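import Pool.Agent.EXM.Defs

/-!
# EXM / Alg: a real part of logarithmic size is bounded

PROOF.  `P(T, X) = F(X, i T α)`, `P*` = `P` with conjugate coefficients: `P*(T, X̄) = 0` if `P(T, X) = 0`, `T` real. There is
`Q(T, U) ≠ 0` with `Q(T, X + X') = 0` if `P(T, X) = P*(T, X') = 0`: the leading coefficients times `X`, `X'` are integral over
`ℂ[T]` in the ring of functions on the set of these `(T, X, X')`. Let `A` be the degree of `Q` in `T`,
`q_A(U) ≠ 0` the coefficient: `|q_A(u)| ≤ C (1 + |u|)^B / T` for `u = 2 Re X_k`, `T = T_k`, and `|u| ≤ 2 C log T`: so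
`q_A(u) → 0`, and a nonzero polynomial tends to `0` only if the argument is bounded.
-/

set_option autoImplicit false

namespace Pool.Agent.EXM

open MvPolynomial Filter Topology

/-- A polynomial which kills the sums of a root of `f` and a root of `g`. -/
private theorem exists_sum (f g : Polynomial (Polynomial ℂ)) (hf : f ≠ 0) (hg : g ≠ 0) :
    ∃ Q : Polynomial (Polynomial ℂ), Q ≠ 0 ∧ ∀ t x y : ℂ,
      f.eval₂ (Polynomial.evalRingHom t) x = 0 → g.eval₂ (Polynomial.evalRingHom t) y = 0 →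
      Q.eval₂ (Polynomial.evalRingHom t) (x + y) = 0 := by
  let Ω := {ω : ℂ × ℂ × ℂ // f.eval₂ (Polynomial.evalRingHom ω.1) ω.2.1 = 0 ∧
    g.eval₂ (Polynomial.evalRingHom ω.1) ω.2.2 = 0}
  let ρ : Polynomial ℂ →+* (Ω → ℂ) := Pi.ringHom fun ω => Polynomial.evalRingHom ω.1.1
  letI : Algebra (Polynomial ℂ) (Ω → ℂ) := ρ.toAlgebra
  let a : Ω → ℂ := fun ω => ω.1.2.1
  let b : Ω → ℂ := fun ω => ω.1.2.2
  have key : ∀ (p : Polynomial (Polynomial ℂ)) (c : Ω → ℂ) (ω : Ω),
      (p.eval₂ (algebraMap (Polynomial ℂ) (Ω → ℂ)) c) ω =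
        p.eval₂ (Polynomial.evalRingHom ω.1.1) (c ω) := by
    intro p c ω
    have h1 := Polynomial.hom_eval₂ p (algebraMap (Polynomial ℂ) (Ω → ℂ))
      (Pi.evalRingHom (fun _ => ℂ) ω) c
    exact h1
  have ha : Polynomial.aeval a f = 0 := by
    funext ω
    rw [Polynomial.aeval_def, key]
    exact ω.2.1
  have hb : Polynomial.aeval b g = 0 := by
    funext ω
    rw [Polynomial.aeval_def, key]
    exact ω.2.2
  have ia := isIntegral_leadingCoeff_smul f a ha
  have ib := isIntegral_leadingCoeff_smul g b hb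
  have iab := (ia.smul g.leadingCoeff).add (ib.smul f.leadingCoeff)
  obtain ⟨χ, hχ, hχ0⟩ := iab
  have hl : f.leadingCoeff * g.leadingCoeff ≠ 0 :=
    mul_ne_zero (Polynomial.leadingCoeff_ne_zero.2 hf) (Polynomial.leadingCoeff_ne_zero.2 hg)
  refine ⟨χ.comp (Polynomial.C (f.leadingCoeff * g.leadingCoeff) * Polynomial.X), ?_, ?_⟩
  · rw [← Polynomial.leadingCoeff_ne_zero, Polynomial.leadingCoeff_comp
      (by rw [Polynomial.natDegree_C_mul_X _ hl]; exact one_ne_zero), hχ.leadingCoeff, one_mul,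
      Polynomial.leadingCoeff_C_mul_X]
    exact pow_ne_zero _ hl
  · intro t x y hx hy
    have h1 := congr_fun hχ0 ⟨(t, x, y), hx, hy⟩
    rw [key] at h1
    rw [Polynomial.eval₂_comp, Polynomial.eval₂_mul, Polynomial.eval₂_C, Polynomial.eval₂_X]
    refine Eq.trans ?_ h1
    congr 1
    change _ = (g.leadingCoeff • (f.leadingCoeff • a)) ⟨(t, x, y), hx, hy⟩ +
      (f.leadingCoeff • (g.leadingCoeff • b)) ⟨(t, x, y), hx, hy⟩
    have hsm : ∀ (r : Polynomial ℂ) (c : Ω → ℂ) (ω : Ω), (r • c) ω = r.eval ω.1.1 * c ω := by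
      intro r c ω
      rw [Algebra.smul_def]
      rfl
    rw [hsm, hsm, hsm, hsm]
    simp only [Polynomial.coe_evalRingHom, Polynomial.eval_mul, a, b]
    ring

private theorem tends_coeff (q : Polynomial ℂ) (T : ℕ → ℝ) (hT : Tendsto T atTop atTop)
    (u : ℕ → ℂ) (C : ℝ) (hC : ∀ᶠ k in atTop, ‖u k‖ ≤ C * Real.log (T k)) :
    Tendsto (fun k => ‖q.eval (u k)‖ / T k) atTop (𝓝 0) := by
  have h1 : Tendsto (fun k => ∑ j ∈ Finset.range (q.natDegree + 1),
      ‖q.coeff j‖ * C ^ j * (Real.log (T k) ^ j / T k)) atTop (𝓝 0) := by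
    have h2 : Tendsto (fun k => ∑ j ∈ Finset.range (q.natDegree + 1),
      ‖q.coeff j‖ * C ^ j * (Real.log (T k) ^ j / T k)) atTop
      (𝓝 (∑ j ∈ Finset.range (q.natDegree + 1), ‖q.coeff j‖ * C ^ j * 0)) := by
      refine tendsto_finsetSum _ fun j _ => ?_
      refine Tendsto.const_mul _ ?_
      exact (Real.isLittleO_pow_log_id_atTop (n := j)).tendsto_div_nhds_zero.comp hT
    simpa using h2
  refine squeeze_zero' ?_ ?_ h1
  · filter_upwards [hT.eventually_gt_atTop 0] with k hk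
    positivity
  · filter_upwards [hT.eventually_gt_atTop 0, hC] with k hk hk2
    rw [Polynomial.eval_eq_sum_range, ← Finset.sum_congr rfl (fun j _ => mul_div_assoc _ _ _),
      ← Finset.sum_div]
    refine div_le_div_of_nonneg_right ((norm_sum_le _ _).trans (Finset.sum_le_sum fun j _ => ?_)) hk.le
    rw [norm_mul, norm_pow, mul_assoc, ← mul_pow]
    gcongr

private theorem lower (p : Polynomial ℂ) (hp : p ≠ 0) :
    ∃ K c : ℝ, 0 < c ∧ ∀ z : ℂ, K ≤ ‖z‖ → c ≤ ‖p.eval z‖ := by
  by_cases hd : 0 < p.degree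
  · have h1 := Polynomial.tendsto_norm_atTop p hd (l := comap (fun z : ℂ => ‖z‖) atTop) (z := id)
      tendsto_comap
    have h2 := h1.eventually_ge_atTop 1
    rw [eventually_comap] at h2
    obtain ⟨K, hK⟩ := eventually_atTop.1 h2
    exact ⟨K, 1, one_pos, fun z hz => hK _ hz z rfl⟩
  · have h1 : p = Polynomial.C (p.coeff 0) := Polynomial.eq_C_of_degree_le_zero (not_lt.1 hd)
    have h2 : p.coeff 0 ≠ 0 := by
      intro h
      rw [h, map_zero] at h1
      exact hp h1
    refine ⟨0, ‖p.coeff 0‖, norm_pos_iff.2 h2, fun z _ => ?_⟩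
    rw [h1]
    simp

private theorem bdd_of_zero (Q : Polynomial (Polynomial ℂ)) (hQ : Q ≠ 0) (T : ℕ → ℝ)
    (hT : Tendsto T atTop atTop) (u : ℕ → ℂ) (C : ℝ)
    (hC : ∀ᶠ k in atTop, ‖u k‖ ≤ C * Real.log (T k))
    (h0 : ∀ k, Q.eval₂ (Polynomial.evalRingHom ((T k : ℝ) : ℂ)) (u k) = 0) :
    ∃ K : ℝ, ∀ᶠ k in atTop, ‖u k‖ ≤ K := by
  set R := Polynomial.Bivariate.swap Q with hR
  have hR0 : R ≠ 0 := by
    rw [hR]
    intro h
    exact hQ ((map_eq_zero_iff _ (AlgEquiv.injective _)).1 h)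
  have hRe : ∀ t x : ℂ, ∑ i ∈ Finset.range (R.natDegree + 1), (R.coeff i).eval x * t ^ i =
      Q.eval₂ (Polynomial.evalRingHom t) x := by
    intro t x
    have h1 := Polynomial.Bivariate.aevalAeval_swap x t Q
    rw [Polynomial.coe_aevalAeval_eq_evalEval, Polynomial.coe_aevalAeval_eq_evalEval, ← hR] at h1
    rw [Polynomial.eval₂_evalRingHom, ← h1, Polynomial.evalEval,
      Polynomial.eval_eq_sum_range (p := R), Polynomial.eval_finsetSum]
    refine Finset.sum_congr rfl fun i _ => ?_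
    rw [Polynomial.eval_mul, Polynomial.eval_pow, Polynomial.eval_C]
  set A := R.natDegree with hA
  obtain ⟨K, c, hc, hK⟩ := lower (R.coeff A) (Polynomial.leadingCoeff_ne_zero.2 hR0)
  have hsum : Tendsto (fun k => ∑ i ∈ Finset.range A, ‖(R.coeff i).eval (u k)‖ / T k) atTop (𝓝 0) := by
    have h2 : Tendsto (fun k => ∑ i ∈ Finset.range A, ‖(R.coeff i).eval (u k)‖ / T k) atTop
        (𝓝 (∑ i ∈ Finset.range A, 0)) :=
      tendsto_finsetSum _ fun i _ => tends_coeff _ T hT u C hC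
    simpa using h2
  refine ⟨K, ?_⟩
  filter_upwards [hsum.eventually_lt_const hc, hT.eventually_ge_atTop 1] with k hk1 hk2
  by_contra hk
  push Not at hk
  have h1 := hK (u k) hk.le
  have h2 := hRe (T k) (u k)
  rw [h0 k, Finset.sum_range_succ] at h2
  have hTA : 0 < T k ^ A := by positivity
  have h3 : ‖(R.coeff A).eval (u k)‖ * T k ^ A ≤
      (∑ i ∈ Finset.range A, ‖(R.coeff i).eval (u k)‖ / T k) * T k ^ A := by
    have h4 : (R.coeff A).eval (u k) * (T k : ℂ) ^ A =
        -∑ i ∈ Finset.range A, (R.coeff i).eval (u k) * (T k : ℂ) ^ i := by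
      linear_combination h2
    have h5 := congrArg norm h4
    rw [norm_mul, norm_pow, norm_neg, Complex.norm_real, Real.norm_of_nonneg (by linarith)] at h5
    rw [h5, Finset.sum_mul]
    refine (norm_sum_le _ _).trans (Finset.sum_le_sum fun i hi => ?_)
    rw [norm_mul, norm_pow, Complex.norm_real, Real.norm_of_nonneg (by linarith), div_mul_eq_mul_div,
      le_div_iff₀ (by linarith), mul_assoc]
    refine mul_le_mul_of_nonneg_left ?_ (norm_nonneg _)
    rw [← pow_succ]
    exact pow_le_pow_right₀ hk2 (Finset.mem_range.1 hi)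
  have h6 := le_of_mul_le_mul_right h3 hTA
  linarith

/-- The point `λ z`. -/
private theorem eval_scale {n r : ℕ} (G : MvPolynomial (Fin n) ℂ) (hG : G.IsHomogeneous r)
    (x : Fin n → ℂ) (t : ℂ) : eval (fun j => t * x j) G = eval x G * t ^ r := by
  rw [eval_eq, eval_eq, Finset.sum_mul]
  refine Finset.sum_congr rfl fun μ hμ => ?_
  have h1 : μ.degree = r := by
    have := hG (mem_support_iff.1 hμ)
    rw [← this]
    exact DFunLike.congr_fun Finsupp.degree_eq_weight_one μ
  rw [mul_assoc]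
  congr 1
  simp only [mul_pow, Finset.prod_mul_distrib]
  rw [Finset.prod_pow_eq_pow_sum, ← h1, mul_comm]
  congr 2

private theorem lead_zero {n : ℕ} (G : MvPolynomial (Fin n) ℂ) (x : Fin n → ℂ)
    (h : ∀ t : ℂ, eval (fun j => t * x j) G = 0) :
    eval x (homogeneousComponent G.totalDegree G) = 0 := by
  set r : Polynomial ℂ := ∑ i ∈ Finset.range (G.totalDegree + 1),
    Polynomial.C (eval x (homogeneousComponent i G)) * Polynomial.X ^ i with hr
  have h1 : ∀ t : ℂ, r.eval t = 0 := by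
    intro t
    rw [← h t]
    conv_rhs => rw [← sum_homogeneousComponent G]
    rw [hr, Polynomial.eval_finsetSum, map_sum]
    refine Finset.sum_congr rfl fun i _ => ?_
    rw [Polynomial.eval_mul, Polynomial.eval_C, Polynomial.eval_pow, Polynomial.eval_X,
      eval_scale _ (homogeneousComponent_isHomogeneous i G)]
  have h2 : r = 0 := Polynomial.funext fun t => by rw [h1 t, Polynomial.eval_zero]
  have h3 : r.coeff G.totalDegree = eval x (homogeneousComponent G.totalDegree G) := by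
    rw [hr, Polynomial.finsetSum_coeff, Finset.sum_eq_single G.totalDegree]
    · simp
    · intro b _ hb
      rw [Polynomial.coeff_C_mul, Polynomial.coeff_X_pow, if_neg hb.symm, mul_zero]
    · intro h'
      exact absurd (Finset.mem_range.2 (Nat.lt_succ_self _)) h'
  rw [← h3, h2, Polynomial.coeff_zero]

theorem re_bdd {m : ℕ} (F : MvPolynomial (Fin (m + 1)) ℂ) (α : Fin m → ℝ)
    (hL1 : ∃ y : ℂ, eval (Fin.cons y (fun j => (α j : ℂ)) : Fin (m + 1) → ℂ)
      (homogeneousComponent F.totalDegree F) ≠ 0)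
    (T : ℕ → ℝ) (hT : Tendsto T atTop atTop) (X : ℕ → ℂ)
    (hX : ∀ k, eval (Fin.cons (X k) (ipt (T k) α) : Fin (m + 1) → ℂ) F = 0) (C : ℝ)
    (hC : ∀ᶠ k in atTop, |(X k).re| ≤ C * Real.log (T k)) :
    ∃ K : ℝ, ∀ᶠ k in atTop, |(X k).re| ≤ K := by
  set φ : MvPolynomial (Fin m) ℂ →+* Polynomial ℂ :=
    eval₂Hom Polynomial.C (fun j => Polynomial.C (Complex.I * α j) * Polynomial.X) with hφ
  have hcomp : ∀ t : ℂ, (Polynomial.evalRingHom t).comp φ = eval fun j => Complex.I * α j * t := by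
    intro t
    refine MvPolynomial.ringHom_ext (fun r => ?_) (fun j => ?_)
    · simp [hφ]
    · simp [hφ]
  set f : Polynomial (Polynomial ℂ) := (finSuccEquiv ℂ m F).map φ with hf
  have hfe : ∀ t x : ℂ, f.eval₂ (Polynomial.evalRingHom t) x =
      eval (Fin.cons x (fun j => Complex.I * α j * t) : Fin (m + 1) → ℂ) F := by
    intro t x
    rw [hf, Polynomial.eval₂_map, hcomp, ← fp_eval, fp, Polynomial.eval_map]
  have hf0 : f ≠ 0 := by
    intro h
    obtain ⟨y, hy⟩ := hL1
    refine hy (lead_zero F _ fun t => ?_)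
    have h1 := hfe (-Complex.I * t) (t * y)
    rw [h, Polynomial.eval₂_zero] at h1
    rw [h1]
    congr 2
    funext j
    refine Fin.cases ?_ (fun i => ?_) j
    · simp
    · simp only [Fin.cons_succ]
      linear_combination ((α i : ℂ) * t) * Complex.I_mul_I
  set g : Polynomial (Polynomial ℂ) := f.map (Polynomial.mapRingHom (starRingEnd ℂ)) with hg
  have hg0 : g ≠ 0 := by
    rw [hg, Ne, Polynomial.map_eq_zero_iff]
    · exact hf0
    · exact Polynomial.map_injective _ (starRingEnd ℂ).injective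
  have hge : ∀ (t : ℝ) (x : ℂ), f.eval₂ (Polynomial.evalRingHom (t : ℂ)) x = 0 →
      g.eval₂ (Polynomial.evalRingHom (t : ℂ)) (starRingEnd ℂ x) = 0 := by
    intro t x h
    rw [hg, Polynomial.eval₂_map]
    have h1 := Polynomial.hom_eval₂ f (Polynomial.evalRingHom (t : ℂ)) (starRingEnd ℂ) x
    rw [h, map_zero] at h1
    rw [h1]
    congr 1
    refine Polynomial.ringHom_ext (fun a => ?_) ?_
    · simp
    · simp
  obtain ⟨Q, hQ, hQ0⟩ := exists_sum f g hf0 hg0
  have hzero : ∀ k, Q.eval₂ (Polynomial.evalRingHom ((T k : ℝ) : ℂ)) (X k + starRingEnd ℂ (X k)) = 0 := by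
    intro k
    have h1 : f.eval₂ (Polynomial.evalRingHom ((T k : ℝ) : ℂ)) (X k) = 0 := by
      rw [hfe, ← hX k]
      congr 2
      funext j
      refine Fin.cases ?_ (fun i => ?_) j
      · simp
      · simp only [Fin.cons_succ, ipt]
        ring
    exact hQ0 _ _ _ h1 (hge _ _ h1)
  have hnorm : ∀ k, ‖X k + starRingEnd ℂ (X k)‖ = 2 * |(X k).re| := by
    intro k
    rw [Complex.add_conj, Complex.norm_real, Real.norm_eq_abs, abs_mul, abs_two]
  obtain ⟨K, hK⟩ := bdd_of_zero Q hQ T hT (fun k => X k + starRingEnd ℂ (X k)) (2 * C)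
    (hC.mono fun k hk => by rw [hnorm]; linarith) hzero
  refine ⟨K / 2, hK.mono fun k hk => ?_⟩
  rw [hnorm] at hk
  linarith

end Pool.Agent.EXM
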