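import Pool.Agent.EXM.Defs

/-!
# EXM / ClMin: some root of the cluster has real part bounded above (and one bounded below)

PROOF.  `d = F.totalDegree`, `s = 1/T`. `p_s(y) = s^d F(i (α₀ + y) / s, i α / s)`, a polynomial in `y` and `s`;
`p_0(y) = L(i (α₀ + y), i α)` is not `0` (`hL1`) and has a zero of order `e ≥ 1` at `y = 0` (`hL0`). Let `0 < r ≤ η₀` be such
that `p_0` has no other zero in `|y| ≤ r`. For small `s`, `p_s ≠ 0` on `|y| = r`, and
`Σ y_i = (1 / 2 π i) ∮ y p_s'(y) / p_s(y) dy` (sum over the roots in `|y| < r` with multiplicity; `p'/p = Σ 1/(y - y_i)`,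
Cauchy's formula), number of them `(1 / 2 π i) ∮ p_s' / p_s = e ≥ 1`; both integrals differ from those for `s = 0`
(`0` and `e`) by `O(s)`. So `|Σ (X_i - i T α₀)| = T |Σ y_i| = O(1)`, there are `e ≥ 1` terms, and not all
`ς Re X_i` can be `> K`. (Any other proof, e.g. factorization of `p_s`, is fine.)
-/

set_option autoImplicit false

namespace Pool.Agent.EXM

open MvPolynomial Filter Topology

/-- Cauchy for a holomorphic function. -/
private theorem int_zero {r : ℝ} (hr : 0 < r) {f : ℂ → ℂ}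
    (hf : DifferentiableOn ℂ f (Metric.closedBall 0 r)) : (∮ z in C(0, r), f z) = 0 :=
  Complex.circleIntegral_eq_zero_of_differentiable_on_off_countable hr.le Set.countable_empty
    hf.continuousOn fun z hz => (hf z (Metric.ball_subset_closedBall hz.1)).differentiableAt
      (Metric.closedBall_mem_nhds_of_mem hz.1)

private theorem ci_inv {r : ℝ} (hr : 0 < r) (a : ℂ) (ha : ‖a‖ ≠ r) :
    CircleIntegrable (fun z => (z - a)⁻¹) 0 r := by
  refine ContinuousOn.circleIntegrable hr.le fun z hz => ?_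
  have h1 : z - a ≠ 0 := by
    intro h
    rw [sub_eq_zero] at h
    rw [h, mem_sphere_zero_iff_norm] at hz
    exact ha hz
  exact ((continuousAt_id.sub continuousAt_const).inv₀ h1).continuousWithinAt

private theorem int_inv {r : ℝ} (hr : 0 < r) (a : ℂ) (ha : ‖a‖ ≠ r) :
    (∮ z in C(0, r), (z - a)⁻¹) = if ‖a‖ < r then 2 * Real.pi * Complex.I else 0 := by
  split_ifs with h
  · exact circleIntegral.integral_sub_inv_of_mem_ball (by simpa using h)
  · refine int_zero hr fun z hz => ?_
    have h1 : z - a ≠ 0 := by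
      intro h2
      rw [sub_eq_zero] at h2
      rw [h2, mem_closedBall_zero_iff] at hz
      exact h (lt_of_le_of_ne hz ha)
    exact ((differentiableAt_id.sub_const a).inv h1).differentiableWithinAt

/-- The two integrals of `∑ 1 / (z - a)`. -/
private theorem int_multiset {r : ℝ} (hr : 0 < r) (s : Multiset ℂ) (hs : ∀ a ∈ s, ‖a‖ ≠ r) :
    CircleIntegrable (fun z => (s.map fun a => (z - a)⁻¹).sum) 0 r ∧
    CircleIntegrable (fun z => z * (s.map fun a => (z - a)⁻¹).sum) 0 r ∧
    (∮ z in C(0, r), (s.map fun a => (z - a)⁻¹).sum) =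
      (2 * Real.pi * Complex.I) * ((s.filter fun a => ‖a‖ < r).card : ℂ) ∧
    (∮ z in C(0, r), z * (s.map fun a => (z - a)⁻¹).sum) =
      (2 * Real.pi * Complex.I) * (s.filter fun a => ‖a‖ < r).sum := by
  induction s using Multiset.induction with
  | empty =>
    refine ⟨?_, ?_, ?_, ?_⟩ <;> simp [circleIntegral, CircleIntegrable]
  | cons a s ih =>
    obtain ⟨h1, h2, h3, h4⟩ := ih fun b hb => hs b (Multiset.mem_cons_of_mem hb)
    have ha : ‖a‖ ≠ r := hs a (Multiset.mem_cons_self a s)
    have e1 := ci_inv hr a ha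
    have e2 : Set.EqOn (fun z : ℂ => z * (z - a)⁻¹) (fun z => 1 + a * (z - a)⁻¹)
        (Metric.sphere 0 r) := by
      intro z hz
      have h5 : z - a ≠ 0 := by
        intro h
        rw [sub_eq_zero] at h
        rw [h, mem_sphere_zero_iff_norm] at hz
        exact ha hz
      show z * (z - a)⁻¹ = 1 + a * (z - a)⁻¹
      field_simp
      ring
    have e3 : CircleIntegrable (fun z : ℂ => z * (z - a)⁻¹) 0 r := by
      refine ContinuousOn.circleIntegrable hr.le fun z hz => ?_
      have h5 : z - a ≠ 0 := by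
        intro h
        rw [sub_eq_zero] at h
        rw [h, mem_sphere_zero_iff_norm] at hz
        exact ha hz
      exact (continuousAt_id.mul
        ((continuousAt_id.sub continuousAt_const).inv₀ h5)).continuousWithinAt
    have e5 : CircleIntegrable (fun z : ℂ => a * (z - a)⁻¹) 0 r := IntervalIntegrable.const_mul e1 a
    have e4 : (∮ z in C(0, r), z * (z - a)⁻¹) =
        (2 * Real.pi * Complex.I) * (if ‖a‖ < r then a else 0) := by
      rw [circleIntegral.integral_congr hr.le e2, circleIntegral.integral_add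
        (ContinuousOn.circleIntegrable hr.le continuousOn_const) e5,
        circleIntegral.integral_const_mul, int_inv hr a ha, int_zero hr (differentiableOn_const 1)]
      split_ifs <;> ring
    simp only [Multiset.map_cons, Multiset.sum_cons, mul_add]
    refine ⟨e1.add h1, e3.add h2, ?_, ?_⟩
    · rw [circleIntegral.integral_add e1 h1, h3, int_inv hr a ha]
      by_cases h : ‖a‖ < r
      · rw [if_pos h, Multiset.filter_cons_of_pos (p := fun a : ℂ => ‖a‖ < r) _ h, Multiset.card_cons]
        push_cast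
        ring
      · rw [if_neg h, Multiset.filter_cons_of_neg (p := fun a : ℂ => ‖a‖ < r) _ h, zero_add]
    · rw [circleIntegral.integral_add e3 h2, h4, e4]
      by_cases h : ‖a‖ < r
      · rw [if_pos h, Multiset.filter_cons_of_pos (p := fun a : ℂ => ‖a‖ < r) _ h, Multiset.sum_cons]
        ring
      · rw [if_neg h, Multiset.filter_cons_of_neg (p := fun a : ℂ => ‖a‖ < r) _ h, mul_zero, zero_add]

/-- The two integrals of `p' / p`. -/
private theorem int_poly {r : ℝ} (hr : 0 < r) (p : Polynomial ℂ)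
    (hp : ∀ z : ℂ, ‖z‖ = r → p.eval z ≠ 0) :
    CircleIntegrable (fun z => p.derivative.eval z / p.eval z) 0 r ∧
    CircleIntegrable (fun z => z * (p.derivative.eval z / p.eval z)) 0 r ∧
    (∮ z in C(0, r), p.derivative.eval z / p.eval z) =
      (2 * Real.pi * Complex.I) * ((p.roots.filter fun a => ‖a‖ < r).card : ℂ) ∧
    (∮ z in C(0, r), z * (p.derivative.eval z / p.eval z)) =
      (2 * Real.pi * Complex.I) * (p.roots.filter fun a => ‖a‖ < r).sum := by
  have hs : ∀ a ∈ p.roots, ‖a‖ ≠ r := fun a ha h => hp a h (Polynomial.isRoot_of_mem_roots ha)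
  obtain ⟨_, _, h3, h4⟩ := int_multiset hr p.roots hs
  have e : ∀ z ∈ Metric.sphere (0 : ℂ) r, p.derivative.eval z / p.eval z =
      (p.roots.map fun a => (z - a)⁻¹).sum := by
    intro z hz
    rw [(IsAlgClosed.splits p).eval_derivative_div_eval_of_ne_zero
      (hp z (mem_sphere_zero_iff_norm.1 hz))]
    simp only [one_div]
  have hc : ContinuousOn (fun z => p.derivative.eval z / p.eval z) (Metric.sphere 0 r) :=
    p.derivative.continuous.continuousOn.div p.continuous.continuousOn
      fun z hz => hp z (mem_sphere_zero_iff_norm.1 hz)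
  refine ⟨hc.circleIntegrable hr.le, (continuousOn_id.mul hc).circleIntegrable hr.le, ?_, ?_⟩
  · rw [← h3]
    exact circleIntegral.integral_congr hr.le e
  · rw [← h4]
    exact circleIntegral.integral_congr hr.le fun z hz => by
      show z * _ = z * _
      rw [e z hz]

private theorem nat_eq {a b : ℕ} (h : ‖(a : ℂ) - b‖ < 1) : a = b := by
  have h1 : ((a : ℂ) - b) = (((a : ℤ) - (b : ℤ) : ℤ) : ℂ) := by push_cast; ring
  rw [h1, Complex.norm_intCast] at h
  have h2 : |(a : ℤ) - b| < 1 := by exact_mod_cast h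
  have := Int.abs_lt_one_iff.1 h2
  omega

/-- The cluster of the roots of `f + s g_0 + s ^ 2 g_1 + ..` near the root `0` of `f`. -/
private theorem cluster (f : Polynomial ℂ) (hf : f ≠ 0) (h0 : f.eval 0 = 0) (η₀ : ℝ)
    (hη₀ : 0 < η₀) (d : ℕ) (g : ℕ → Polynomial ℂ) :
    ∃ K : ℝ, 0 ≤ K ∧ ∀ᶠ s : ℝ in 𝓝[>] 0, ∃ M : Multiset ℂ, M ≠ 0 ∧
      (∀ y ∈ M, ‖y‖ ≤ η₀ ∧
        (f + ∑ k ∈ Finset.range d, Polynomial.C ((s : ℂ) ^ (k + 1)) * g k).eval y = 0) ∧
      ‖M.sum‖ ≤ K * s := by
  -- the radius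
  obtain ⟨r, hr, hrη, hroot⟩ : ∃ r : ℝ, 0 < r ∧ r ≤ η₀ ∧
      ∀ y : ℂ, ‖y‖ ≤ r → f.eval y = 0 → y = 0 := by
    have h1 : ({y : ℂ | f.IsRoot y} \ {0}).Finite := (f.finite_setOf_isRoot hf).subset
      Set.sdiff_subset
    have h2 : ({y : ℂ | f.IsRoot y} \ {0})ᶜ ∈ 𝓝 (0 : ℂ) :=
      h1.isClosed.isOpen_compl.mem_nhds (by simp)
    obtain ⟨r', hr', h3⟩ := Metric.mem_nhds_iff.1 h2
    refine ⟨min η₀ (r' / 2), lt_min hη₀ (by positivity), min_le_left _ _, fun y hy h4 => ?_⟩
    by_contra h5
    have h6 : y ∈ Metric.ball (0 : ℂ) r' := by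
      rw [mem_ball_zero_iff]
      have := hy.trans (min_le_right _ _)
      linarith
    exact h3 h6 ⟨h4, h5⟩
  set P : ℝ → Polynomial ℂ := fun s =>
    f + ∑ k ∈ Finset.range d, Polynomial.C ((s : ℂ) ^ (k + 1)) * g k with hP
  let q : ℝ × ℂ → ℂ := fun x => ∑ k ∈ Finset.range d, (x.1 : ℂ) ^ k * (g k).eval x.2
  let q' : ℝ × ℂ → ℂ := fun x => ∑ k ∈ Finset.range d, (x.1 : ℂ) ^ k * (g k).derivative.eval x.2
  have hPe : ∀ s y, (P s).eval y = f.eval y + s * q (s, y) := by
    intro s y
    simp only [hP, q, Polynomial.eval_add, Polynomial.eval_finsetSum, Polynomial.eval_mul,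
      Polynomial.eval_C, Finset.mul_sum]
    congr 1
    exact Finset.sum_congr rfl fun k _ => by ring
  have hPd : ∀ s y, (P s).derivative.eval y = f.derivative.eval y + s * q' (s, y) := by
    intro s y
    simp only [hP, q', Polynomial.derivative_add, Polynomial.derivative_sum,
      Polynomial.derivative_C_mul, Polynomial.eval_add, Polynomial.eval_finsetSum,
      Polynomial.eval_mul, Polynomial.eval_C, Finset.mul_sum]
    congr 1
    exact Finset.sum_congr rfl fun k _ => by ring
  have hqc : Continuous q := continuous_finsetSum _ fun k _ =>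
    ((Complex.continuous_ofReal.comp continuous_fst).pow k).mul
      ((g k).continuous.comp continuous_snd)
  have hqc' : Continuous q' := continuous_finsetSum _ fun k _ =>
    ((Complex.continuous_ofReal.comp continuous_fst).pow k).mul
      ((g k).derivative.continuous.comp continuous_snd)
  have hcpt : IsCompact ((Set.Icc (0 : ℝ) 1) ×ˢ (Metric.sphere (0 : ℂ) r)) :=
    isCompact_Icc.prod (isCompact_sphere 0 r)
  obtain ⟨B1, hB1⟩ := hcpt.exists_bound_of_continuousOn hqc.continuousOn
  obtain ⟨B2, hB2⟩ := hcpt.exists_bound_of_continuousOn hqc'.continuousOn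
  obtain ⟨B3, hB3⟩ := (isCompact_sphere (0 : ℂ) r).exists_bound_of_continuousOn
    f.continuous.continuousOn
  obtain ⟨B4, hB4⟩ := (isCompact_sphere (0 : ℂ) r).exists_bound_of_continuousOn
    f.derivative.continuous.continuousOn
  have hfne : ∀ y ∈ Metric.sphere (0 : ℂ) r, f.eval y ≠ 0 := by
    intro y hy h
    rw [mem_sphere_zero_iff_norm] at hy
    have := hroot y hy.le h
    rw [this, norm_zero] at hy
    exact hr.ne hy
  obtain ⟨B5, hB5⟩ := (isCompact_sphere (0 : ℂ) r).exists_bound_of_continuousOn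
    (f := fun y => (f.eval y)⁻¹) (f.continuous.continuousOn.inv₀ hfne)
  set B : ℝ := |B1| + |B2| + |B3| + |B4| + |B5| + 1 with hB
  have n1 := abs_nonneg B1
  have n2 := abs_nonneg B2
  have n3 := abs_nonneg B3
  have n4 := abs_nonneg B4
  have n5 := abs_nonneg B5
  have hB1' : 1 ≤ B := by
    rw [hB]
    linarith
  have hq1 : ∀ s ∈ Set.Icc (0 : ℝ) 1, ∀ y ∈ Metric.sphere (0 : ℂ) r, ‖q (s, y)‖ ≤ B := by
    intro s hs y hy
    refine (hB1 (s, y) ⟨hs, hy⟩).trans ?_
    rw [hB]
    linarith [le_abs_self B1]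
  have hq2 : ∀ s ∈ Set.Icc (0 : ℝ) 1, ∀ y ∈ Metric.sphere (0 : ℂ) r, ‖q' (s, y)‖ ≤ B := by
    intro s hs y hy
    refine (hB2 (s, y) ⟨hs, hy⟩).trans ?_
    rw [hB]
    linarith [le_abs_self B2]
  have hq3 : ∀ y ∈ Metric.sphere (0 : ℂ) r, ‖f.eval y‖ ≤ B := by
    intro y hy
    refine (hB3 y hy).trans ?_
    rw [hB]
    linarith [le_abs_self B3]
  have hq4 : ∀ y ∈ Metric.sphere (0 : ℂ) r, ‖f.derivative.eval y‖ ≤ B := by
    intro y hy
    refine (hB4 y hy).trans ?_
    rw [hB]
    linarith [le_abs_self B4]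
  have hq5 : ∀ y ∈ Metric.sphere (0 : ℂ) r, ‖(f.eval y)⁻¹‖ ≤ B := by
    intro y hy
    refine (hB5 y hy).trans ?_
    rw [hB]
    linarith [le_abs_self B5]
  obtain ⟨f1, f2, f3, f4⟩ := int_poly hr f fun z hz => hfne z (mem_sphere_zero_iff_norm.2 hz)
  -- the integrals for `f`
  have hf0 : (f.roots.filter fun a => ‖a‖ < r).sum = 0 := by
    refine Multiset.sum_eq_zero fun a ha => ?_
    obtain ⟨h1, h2⟩ := Multiset.mem_filter.1 ha
    exact hroot a h2.le (Polynomial.isRoot_of_mem_roots h1)
  have hf1 : 0 < (f.roots.filter fun a => ‖a‖ < r).card := by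
    rw [Multiset.card_pos_iff_exists_mem]
    refine ⟨0, Multiset.mem_filter.2 ⟨(Polynomial.mem_roots hf).2 h0, by simpa using hr⟩⟩
  set A : ℝ := 4 * B ^ 4 with hA
  have hA0 : 0 < A := by positivity
  refine ⟨r * (r * A), by positivity, ?_⟩
  have hs0 : 0 < min 1 (min (1 / (2 * B ^ 2)) (1 / (2 * (r * A)))) := by positivity
  filter_upwards [Ioo_mem_nhdsGT hs0] with s hs
  obtain ⟨hs1, hs2⟩ := hs
  have hs3 : s < 1 := hs2.trans_le (min_le_left _ _)
  have hs4 : s * (2 * B ^ 2) ≤ 1 := by
    have := hs2.le.trans ((min_le_right _ _).trans (min_le_left _ _))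
    rwa [le_div_iff₀ (by positivity)] at this
  have hs5 : s * (2 * (r * A)) ≤ 1 := by
    have := hs2.le.trans ((min_le_right _ _).trans (min_le_right _ _))
    rwa [le_div_iff₀ (by positivity)] at this
  have hsI : s ∈ Set.Icc (0 : ℝ) 1 := ⟨hs1.le, hs3.le⟩
  -- lower bound of `P s` on the circle
  have hlow : ∀ y ∈ Metric.sphere (0 : ℂ) r, 1 / (2 * B) ≤ ‖(P s).eval y‖ := by
    intro y hy
    have h1 : 1 / B ≤ ‖f.eval y‖ := by
      have h2 := hq5 y hy
      rw [norm_inv] at h2
      rw [div_le_iff₀ (by positivity)]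
      have h3 : 0 < ‖f.eval y‖ := norm_pos_iff.2 (hfne y hy)
      calc (1 : ℝ) = ‖f.eval y‖ * ‖f.eval y‖⁻¹ := (mul_inv_cancel₀ h3.ne').symm
        _ ≤ ‖f.eval y‖ * B := mul_le_mul_of_nonneg_left h2 h3.le
    have h2 : ‖(s : ℂ) * q (s, y)‖ ≤ s * B := by
      rw [norm_mul, Complex.norm_real, Real.norm_of_nonneg hs1.le]
      exact mul_le_mul_of_nonneg_left (hq1 s hsI y hy) hs1.le
    have h3 : s * B ≤ 1 / (2 * B) := by
      rw [le_div_iff₀ (by positivity)]
      calc s * B * (2 * B) = s * (2 * B ^ 2) := by ring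
        _ ≤ 1 := hs4
    have h4 : ‖f.eval y‖ - ‖(s : ℂ) * q (s, y)‖ ≤ ‖(P s).eval y‖ := by
      rw [hPe]
      have := norm_sub_norm_le (f.eval y) (-((s : ℂ) * q (s, y)))
      rwa [norm_neg, sub_neg_eq_add] at this
    have h5 : 1 / B = 1 / (2 * B) + 1 / (2 * B) := by
      field_simp
      norm_num
    linarith
  have hPne : ∀ y ∈ Metric.sphere (0 : ℂ) r, (P s).eval y ≠ 0 := by
    intro y hy h
    have h1 := hlow y hy
    rw [h, norm_zero] at h1
    have : 0 < 1 / (2 * B) := by positivity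
    linarith
  obtain ⟨p1, p2, p3, p4⟩ := int_poly hr (P s) fun z hz => hPne z (mem_sphere_zero_iff_norm.2 hz)
  have hdiff : ∀ y ∈ Metric.sphere (0 : ℂ) r, ‖(P s).derivative.eval y / (P s).eval y -
      f.derivative.eval y / f.eval y‖ ≤ A * s := by
    intro y hy
    have h1 : (P s).derivative.eval y / (P s).eval y - f.derivative.eval y / f.eval y =
        s * (q' (s, y) * f.eval y - f.derivative.eval y * q (s, y)) * ((P s).eval y)⁻¹ *
          (f.eval y)⁻¹ := by
      rw [div_sub_div _ _ (hPne y hy) (hfne y hy), div_eq_mul_inv, mul_inv, ← mul_assoc, hPd]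
      congr 2
      rw [hPe]
      ring
    have h2 : ‖((P s).eval y)⁻¹‖ ≤ 2 * B := by
      rw [norm_inv]
      have := inv_anti₀ (by positivity) (hlow y hy)
      rwa [one_div, inv_inv] at this
    have h3 : ‖q' (s, y) * f.eval y - f.derivative.eval y * q (s, y)‖ ≤ 2 * B ^ 2 := by
      refine (norm_sub_le _ _).trans ?_
      rw [norm_mul, norm_mul]
      have h4 := mul_le_mul (hq2 s hsI y hy) (hq3 y hy) (norm_nonneg _) (by positivity)
      have h5 := mul_le_mul (hq4 y hy) (hq1 s hsI y hy) (norm_nonneg _) (by positivity)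
      nlinarith
    rw [h1, norm_mul, norm_mul, norm_mul, Complex.norm_real, Real.norm_of_nonneg hs1.le]
    calc s * ‖q' (s, y) * f.eval y - f.derivative.eval y * q (s, y)‖ * ‖((P s).eval y)⁻¹‖ *
          ‖(f.eval y)⁻¹‖ ≤ s * (2 * B ^ 2) * (2 * B) * B := by
          gcongr
          exact hq5 y hy
      _ = A * s := by rw [hA]; ring
  -- the number of the roots
  have hcard : ((P s).roots.filter fun a => ‖a‖ < r).card =
      (f.roots.filter fun a => ‖a‖ < r).card := by
    have h1 : ‖(∮ z in C(0, r), (P s).derivative.eval z / (P s).eval z) -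
        ∮ z in C(0, r), f.derivative.eval z / f.eval z‖ ≤ 2 * Real.pi * r * (A * s) := by
      rw [← circleIntegral.integral_sub p1 f1]
      exact circleIntegral.norm_integral_le_of_norm_le_const hr.le hdiff
    rw [p3, f3, ← mul_sub, norm_mul] at h1
    have h2 : ‖(2 * Real.pi * Complex.I : ℂ)‖ = 2 * Real.pi := by
      rw [norm_mul, norm_mul, Complex.norm_I, mul_one, Complex.norm_real,
        Real.norm_of_nonneg Real.pi_pos.le]
      simp
    rw [h2] at h1
    have h3 : ‖(((P s).roots.filter fun a => ‖a‖ < r).card : ℂ) -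
        ((f.roots.filter fun a => ‖a‖ < r).card : ℂ)‖ < 1 := by
      have h4 : 0 < 2 * Real.pi := by positivity
      have h5 : ‖(((P s).roots.filter fun a => ‖a‖ < r).card : ℂ) -
        ((f.roots.filter fun a => ‖a‖ < r).card : ℂ)‖ ≤ r * (A * s) := by
        refine le_of_mul_le_mul_left (h1.trans (le_of_eq ?_)) h4
        ring
      have h6 : r * (A * s) ≤ 1 / 2 := by linarith
      linarith
    exact nat_eq h3
  refine ⟨(P s).roots.filter fun a => ‖a‖ < r, ?_, fun y hy => ?_, ?_⟩
  · intro h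
    rw [h, Multiset.card_zero] at hcard
    omega
  · obtain ⟨h1, h2⟩ := Multiset.mem_filter.1 hy
    exact ⟨h2.le.trans hrη, Polynomial.isRoot_of_mem_roots h1⟩
  · have h1 : ‖(∮ z in C(0, r), z * ((P s).derivative.eval z / (P s).eval z)) -
        ∮ z in C(0, r), z * (f.derivative.eval z / f.eval z)‖ ≤ 2 * Real.pi * r * (r * (A * s)) := by
      rw [← circleIntegral.integral_sub p2 f2]
      refine circleIntegral.norm_integral_le_of_norm_le_const hr.le fun z hz => ?_
      rw [← mul_sub, norm_mul, mem_sphere_zero_iff_norm.1 hz]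
      exact mul_le_mul_of_nonneg_left (hdiff z hz) hr.le
    rw [p4, f4, hf0, mul_zero, sub_zero, norm_mul] at h1
    have h2 : ‖(2 * Real.pi * Complex.I : ℂ)‖ = 2 * Real.pi := by
      rw [norm_mul, norm_mul, Complex.norm_I, mul_one, Complex.norm_real,
        Real.norm_of_nonneg Real.pi_pos.le]
      simp
    rw [h2] at h1
    have h4 : 0 < 2 * Real.pi := by positivity
    refine le_of_mul_le_mul_left (h1.trans (le_of_eq ?_)) h4
    ring

private theorem eval_hom {σ : Type*} (p : MvPolynomial σ ℂ) (k : ℕ) (hp : p.IsHomogeneous k)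
    (t : ℂ) (v : σ → ℂ) : eval (fun i => t * v i) p = t ^ k * eval v p := by
  rw [eval_eq, eval_eq, Finset.mul_sum]
  refine Finset.sum_congr rfl fun e he => ?_
  have h1 : ∑ i ∈ e.support, e i = k := by
    have h2 := hp (mem_support_iff.1 he)
    simpa [Finsupp.weight_apply, Finsupp.sum] using h2
  rw [← h1]
  simp only [mul_pow, Finset.prod_mul_distrib, Finset.prod_pow_eq_pow_sum]
  ring

theorem cluster_min {m : ℕ} (F : MvPolynomial (Fin (m + 1)) ℂ) (α₀ : ℝ) (α : Fin m → ℝ)
    (hL0 : eval (rpt α₀ α) (homogeneousComponent F.totalDegree F) = 0)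
    (hL1 : ∃ y : ℂ, eval (Fin.cons y (fun j => (α j : ℂ)) : Fin (m + 1) → ℂ)
      (homogeneousComponent F.totalDegree F) ≠ 0) (ς η₀ : ℝ) (hη₀ : 0 < η₀) :
    ∃ K : ℝ, ∀ᶠ T : ℝ in atTop, ∃ X : ℂ, eval (Fin.cons X (ipt T α) : Fin (m + 1) → ℂ) F = 0 ∧
      ‖X - Complex.I * T * α₀‖ ≤ η₀ * T ∧ ς * X.re ≤ K := by
  set d := F.totalDegree with hd
  let w : ℂ → Fin (m + 1) → ℂ := fun y => Fin.cons y fun j => (α j : ℂ)
  let v : Fin (m + 1) → Polynomial ℂ :=
    Fin.cons (Polynomial.C Complex.I * (Polynomial.C (α₀ : ℂ) + Polynomial.X))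
      fun j => Polynomial.C (Complex.I * α j)
  let G : ℕ → Polynomial ℂ := fun k => eval₂ Polynomial.C v (homogeneousComponent k F)
  have hv : ∀ y i, (v i).eval y = Complex.I * w (α₀ + y) i := by
    intro y i
    refine Fin.cases ?_ (fun j => ?_) i
    · simp [v, w]
    · simp [v, w]
  have hG : ∀ k y, (G k).eval y = Complex.I ^ k * eval (w (α₀ + y)) (homogeneousComponent k F) := by
    intro k y
    rw [← eval_hom _ k (homogeneousComponent_isHomogeneous k F)]
    show Polynomial.evalRingHom y (eval₂ Polynomial.C v (homogeneousComponent k F)) = _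
    rw [hom_eval₂]
    have h1 : (Polynomial.evalRingHom y).comp Polynomial.C = RingHom.id ℂ := by
      ext x
      simp
    rw [h1]
    show eval₂ (RingHom.id ℂ) _ _ = eval₂ (RingHom.id ℂ) _ _
    congr 1
    funext i
    exact hv y i
  have hf0 : (G d).eval 0 = 0 := by
    rw [hG, add_zero]
    have : w (α₀ : ℂ) = rpt α₀ α := rfl
    rw [this, hL0, mul_zero]
  have hf : G d ≠ 0 := by
    obtain ⟨y, hy⟩ := hL1
    intro h
    have h1 := hG d (y - α₀)
    rw [h, Polynomial.eval_zero, add_sub_cancel] at h1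
    rcases mul_eq_zero.1 h1.symm with h2 | h2
    · exact pow_ne_zero _ Complex.I_ne_zero h2
    · exact hy h2
  obtain ⟨C, hC0, hC⟩ := cluster (G d) hf hf0 η₀ hη₀ d fun k => G (d - 1 - k)
  refine ⟨|ς| * C + 1, ?_⟩
  filter_upwards [tendsto_inv_atTop_nhdsGT_zero.eventually hC, eventually_gt_atTop (0 : ℝ)]
    with T hT hT0
  obtain ⟨M, hM0, hM1, hM2⟩ := hT
  by_contra hcon
  push Not at hcon
  have hTc : (T : ℂ) ≠ 0 := Complex.ofReal_ne_zero.2 hT0.ne'
  -- each root of the cluster gives a zero of `F`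
  have hz : ∀ y ∈ M, |ς| * C + 1 < ς * -(T * y.im) := by
    intro y hy
    obtain ⟨h1, h2⟩ := hM1 y hy
    have h3 : eval (Fin.cons (Complex.I * T * (α₀ + y)) (ipt T α) : Fin (m + 1) → ℂ) F = 0 := by
      have h4 : (Fin.cons (Complex.I * T * (α₀ + y)) (ipt T α) : Fin (m + 1) → ℂ) =
          fun i => T * (Complex.I * w (α₀ + y) i) := by
        funext i
        refine Fin.cases ?_ (fun j => ?_) i
        · simp only [Fin.cons_zero, w]
          ring
        · simp only [Fin.cons_succ, w, ipt]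
          ring
      rw [h4]
      have h5 : eval (fun i => (T : ℂ) * (Complex.I * w (α₀ + y) i)) F =
          ∑ k ∈ Finset.range (d + 1), (T : ℂ) ^ k * (G k).eval y := by
        conv_lhs => rw [← sum_homogeneousComponent F]
        rw [map_sum]
        refine Finset.sum_congr rfl fun k _ => ?_
        rw [eval_hom _ k (homogeneousComponent_isHomogeneous k F),
          eval_hom _ k (homogeneousComponent_isHomogeneous k F), hG]
      rw [h5, Finset.sum_range_succ]
      have h6 : (T : ℂ) ^ d * ((G d + ∑ k ∈ Finset.range d,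
          Polynomial.C (((T⁻¹ : ℝ) : ℂ) ^ (k + 1)) * G (d - 1 - k)).eval y) =
          ∑ k ∈ Finset.range d, (T : ℂ) ^ k * (G k).eval y + (T : ℂ) ^ d * (G d).eval y := by
        rw [Polynomial.eval_add, Polynomial.eval_finsetSum, mul_add, add_comm, Finset.mul_sum,
          ← Finset.sum_range_reflect (fun k => (T : ℂ) ^ k * (G k).eval y) d]
        congr 1
        refine Finset.sum_congr rfl fun k hk => ?_
        rw [Polynomial.eval_mul, Polynomial.eval_C, ← mul_assoc]
        congr 1
        have h7 : d = (d - 1 - k) + (k + 1) := by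
          have := Finset.mem_range.1 hk
          omega
        conv_lhs => rw [h7]
        rw [pow_add, mul_assoc, ← mul_pow, Complex.ofReal_inv, mul_inv_cancel₀ hTc, one_pow,
          mul_one]
      rw [← h6, h2, mul_zero]
    have h4 : ‖Complex.I * T * (α₀ + y) - Complex.I * T * α₀‖ ≤ η₀ * T := by
      rw [← mul_sub, add_sub_cancel_left, norm_mul, norm_mul, Complex.norm_I, one_mul,
        Complex.norm_real, Real.norm_of_nonneg hT0.le, mul_comm]
      exact mul_le_mul_of_nonneg_right h1 hT0.le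
    have h5 := hcon _ h3 h4
    have h6 : (Complex.I * T * (α₀ + y)).re = -(T * y.im) := by
      simp [Complex.mul_re, Complex.mul_im]
    rwa [h6] at h5
  have hsum : ∀ M : Multiset ℂ, (M.map fun y => ς * -(T * y.im)).sum = ς * -(T * M.sum.im) := by
    intro M
    induction M using Multiset.induction with
    | empty => simp
    | cons a s ih =>
      rw [Multiset.map_cons, Multiset.sum_cons, ih, Multiset.sum_cons, Complex.add_im]
      ring
  have h1 : (M.map fun y => ς * -(T * y.im)).card • (|ς| * C + 1) ≤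
      (M.map fun y => ς * -(T * y.im)).sum := by
    refine Multiset.card_nsmul_le_sum fun x hx => ?_
    obtain ⟨y, hy, rfl⟩ := Multiset.mem_map.1 hx
    exact (hz y hy).le
  rw [hsum, Multiset.card_map, nsmul_eq_mul] at h1
  have h2 : (1 : ℝ) ≤ M.card := by
    have : 0 < M.card := Multiset.card_pos.2 hM0
    exact_mod_cast this
  have h3 : ς * -(T * M.sum.im) ≤ |ς| * C := by
    have h4 : |M.sum.im| ≤ C * T⁻¹ := (Complex.abs_im_le_norm _).trans hM2
    calc ς * -(T * M.sum.im) ≤ |ς * -(T * M.sum.im)| := le_abs_self _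
      _ = |ς| * (T * |M.sum.im|) := by rw [abs_mul, abs_neg, abs_mul, abs_of_pos hT0]
      _ ≤ |ς| * (T * (C * T⁻¹)) := by gcongr
      _ = |ς| * C := by field_simp
  have h4 : 0 ≤ |ς| * C := by positivity
  nlinarith

end Pool.Agent.EXM
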