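import Pool.Agent.EXM.Defs

/-!
# EXM / ClSep: the roots of `F(·, i T α)` near `i T α₀` are at distance `o(T)`

PROOF.  `d = F.totalDegree`, `L` = leading form. `p(y) = L(i (α₀ + y), i α)` is a nonzero polynomial (`hL1`, homogeneity), so
its zeros are isolated: `η₀` such that it has no zero with `0 < |y| ≤ 2 η₀`... For `|y| ≤ η₀`:
`F(i T (α₀ + y), i T α) / T^d → p(y)` uniformly. If `η ≤ |y| ≤ η₀` then `|p(y)| ≥ δ > 0` (compact), so
`F(i T (α₀ + y), i T α) ≠ 0` for large `T`.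
-/

set_option autoImplicit false

namespace Pool.Agent.EXM

open MvPolynomial Filter Topology

private theorem cs_scale {n d : ℕ} {L : MvPolynomial (Fin n) ℂ} (hL : L.IsHomogeneous d) (c : ℂ)
    (x : Fin n → ℂ) : eval (fun j => c * x j) L = c ^ d * eval x L := by
  rw [eval_eq, eval_eq, Finset.mul_sum]
  refine Finset.sum_congr rfl fun s hs => ?_
  have hd : ∑ i ∈ s.support, s i = d := by
    have := hL (mem_support_iff.mp hs)
    rw [Finsupp.weight_apply] at this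
    simpa [Finsupp.sum] using this
  simp only [mul_pow]
  rw [Finset.prod_mul_distrib, Finset.prod_pow_eq_pow_sum, hd]
  ring

private theorem cs_cont {m : ℕ} (F : MvPolynomial (Fin (m + 1)) ℂ) (g : ℂ → ℂ) (hg : Continuous g)
    (v : Fin m → ℂ) : Continuous fun y : ℂ => eval (Fin.cons (g y) v : Fin (m + 1) → ℂ) F := by
  refine (MvPolynomial.continuous_eval F).comp ?_
  refine continuous_pi fun j => ?_
  refine Fin.cases ?_ (fun l => ?_) j
  · simpa using hg
  · simpa using continuous_const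

/-- the expansion by homogeneous components -/
private theorem cs_exp {m : ℕ} (F : MvPolynomial (Fin (m + 1)) ℂ) (z : ℂ) (v : Fin m → ℂ) (T : ℝ) :
    eval (Fin.cons (T * z) (fun j => T * v j) : Fin (m + 1) → ℂ) F =
      ∑ i ∈ Finset.range (F.totalDegree + 1),
        (T : ℂ) ^ i * eval (Fin.cons z v : Fin (m + 1) → ℂ) (homogeneousComponent i F) := by
  have h1 : (Fin.cons (T * z) (fun j => T * v j) : Fin (m + 1) → ℂ) =
      fun j => (T : ℂ) * (Fin.cons z v : Fin (m + 1) → ℂ) j := by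
    funext j
    refine Fin.cases ?_ (fun l => ?_) j
    · simp
    · simp
  rw [h1]
  conv_lhs => rw [← sum_homogeneousComponent F]
  rw [map_sum]
  exact Finset.sum_congr rfl fun i _ => cs_scale (homogeneousComponent_isHomogeneous i F) _ _

theorem cluster_sep {m : ℕ} (F : MvPolynomial (Fin (m + 1)) ℂ) (α₀ : ℝ) (α : Fin m → ℝ)
    (hL1 : ∃ y : ℂ, eval (Fin.cons y (fun j => (α j : ℂ)) : Fin (m + 1) → ℂ)
      (homogeneousComponent F.totalDegree F) ≠ 0) :
    ∃ η₀ : ℝ, 0 < η₀ ∧ ∀ η : ℝ, 0 < η → ∀ᶠ T : ℝ in atTop, ∀ X : ℂ,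
      eval (Fin.cons X (ipt T α) : Fin (m + 1) → ℂ) F = 0 →
      ‖X - Complex.I * T * α₀‖ ≤ η₀ * T → ‖X - Complex.I * T * α₀‖ ≤ η * T := by
  classical
  obtain ⟨d, hd⟩ : ∃ d : ℕ, d = F.totalDegree := ⟨_, rfl⟩
  obtain ⟨L, hL⟩ : ∃ L : MvPolynomial (Fin (m + 1)) ℂ, L = homogeneousComponent F.totalDegree F :=
    ⟨_, rfl⟩
  have hLh : L.IsHomogeneous d := by
    rw [hL, hd]
    exact homogeneousComponent_isHomogeneous _ _
  rw [← hL] at hL1
  -- the leading polynomial in one variable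
  have hp0 : fp L (fun j => (α j : ℂ)) ≠ 0 := by
    obtain ⟨y, hy⟩ := hL1
    intro h
    apply hy
    rw [← fp_eval, h, Polynomial.eval_zero]
  obtain ⟨η₀, hη₀, hη₀r⟩ : ∃ η₀ : ℝ, 0 < η₀ ∧ ∀ y : ℂ, ‖y‖ ≤ η₀ → y ≠ 0 →
      (fp L (fun j => (α j : ℂ))).eval (α₀ + y) ≠ 0 := by
    have hfin : {z : ℂ | (fp L (fun j => (α j : ℂ))).eval z = 0 ∧ z ≠ α₀}.Finite := by
      refine Set.Finite.subset (fp L (fun j => (α j : ℂ))).roots.toFinset.finite_toSet ?_
      rintro z ⟨hz, _⟩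
      rw [Finset.mem_coe, Multiset.mem_toFinset, Polynomial.mem_roots hp0]
      exact hz
    have hopen := hfin.isClosed.isOpen_compl
    have hmem : (α₀ : ℂ) ∈ {z : ℂ | (fp L (fun j => (α j : ℂ))).eval z = 0 ∧ z ≠ α₀}ᶜ :=
      fun h => h.2 rfl
    obtain ⟨ε, hε, hsub⟩ := Metric.isOpen_iff.1 hopen _ hmem
    refine ⟨ε / 2, half_pos hε, ?_⟩
    intro y hy hy0 h0
    have h1 : (α₀ : ℂ) + y ∈ Metric.ball (α₀ : ℂ) ε := by
      rw [mem_ball_iff_norm, add_sub_cancel_left]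
      linarith
    refine hsub h1 ⟨h0, ?_⟩
    intro h2
    exact hy0 (by simpa using h2)
  refine ⟨η₀, hη₀, ?_⟩
  intro η hη
  obtain ⟨q, hq⟩ : ∃ q : ℂ → ℂ, q = fun y => eval (Fin.cons (Complex.I * (α₀ + y))
    (fun j => Complex.I * (α j : ℂ)) : Fin (m + 1) → ℂ) L := ⟨_, rfl⟩
  have hqc : Continuous q := by
    rw [hq]
    exact cs_cont L (fun y => Complex.I * (α₀ + y)) (by fun_prop) _
  have hqe : ∀ y, q y = Complex.I ^ d * (fp L (fun j => (α j : ℂ))).eval (α₀ + y) := by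
    intro y
    have h1 : (Fin.cons (Complex.I * (α₀ + y)) (fun j => Complex.I * (α j : ℂ)) :
        Fin (m + 1) → ℂ) = fun j => Complex.I *
          (Fin.cons ((α₀ : ℂ) + y) (fun j => (α j : ℂ)) : Fin (m + 1) → ℂ) j := by
      funext j
      refine Fin.cases ?_ (fun l => ?_) j
      · rw [Fin.cons_zero, Fin.cons_zero]
      · rw [Fin.cons_succ, Fin.cons_succ]
    have h2 : q y = eval (Fin.cons (Complex.I * (α₀ + y)) (fun j => Complex.I * (α j : ℂ)) :
        Fin (m + 1) → ℂ) L := by rw [hq]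
    rw [h2, h1, cs_scale hLh, fp_eval]
  obtain ⟨δ, hδ, hδq⟩ : ∃ δ : ℝ, 0 < δ ∧ ∀ y ∈ Metric.closedBall (0 : ℂ) η₀ ∩ {y | η ≤ ‖y‖},
      δ ≤ ‖q y‖ := by
    have hc : IsCompact (Metric.closedBall (0 : ℂ) η₀ ∩ {y | η ≤ ‖y‖}) :=
      (isCompact_closedBall _ _).inter_right (isClosed_le continuous_const continuous_norm)
    refine hc.exists_forall_le' hqc.norm.continuousOn ?_
    rintro y ⟨hy1, hy2⟩
    rw [norm_pos_iff, hqe]
    have hy0 : y ≠ 0 := by
      intro h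
      have h2 : η ≤ ‖y‖ := hy2
      rw [h, norm_zero] at h2
      linarith
    exact mul_ne_zero (pow_ne_zero _ Complex.I_ne_zero)
      (hη₀r y (by rwa [mem_closedBall_zero_iff] at hy1) hy0)
  -- the lower terms
  obtain ⟨r, hr⟩ : ∃ r : ℕ → ℂ → ℂ, r = fun i y => eval (Fin.cons (Complex.I * (α₀ + y))
    (fun j => Complex.I * (α j : ℂ)) : Fin (m + 1) → ℂ) (homogeneousComponent i F) := ⟨_, rfl⟩
  have hB : ∀ i, ∃ B : ℝ, ∀ y ∈ Metric.closedBall (0 : ℂ) η₀, ‖r i y‖ ≤ B := by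
    intro i
    refine (isCompact_closedBall _ _).exists_bound_of_continuousOn ?_
    rw [hr]
    exact (cs_cont _ (fun y => Complex.I * (α₀ + y)) (by fun_prop) _).continuousOn
  choose B hB using hB
  obtain ⟨S, hS⟩ : ∃ S : ℝ, S = ∑ i ∈ Finset.range d, B i := ⟨_, rfl⟩
  filter_upwards [eventually_ge_atTop (1 : ℝ), eventually_gt_atTop (S / δ)] with T hT1 hTS
  intro X hX hXη
  have hT0 : 0 < T := by linarith
  have hTc : (T : ℂ) ≠ 0 := by exact_mod_cast hT0.ne'
  obtain ⟨y, hy⟩ : ∃ y : ℂ, y = (X - Complex.I * T * α₀) / (Complex.I * T) := ⟨_, rfl⟩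
  have hXy : X - Complex.I * T * α₀ = Complex.I * T * y := by
    rw [hy, mul_div_cancel₀ _ (mul_ne_zero Complex.I_ne_zero hTc)]
  have hyn : ‖X - Complex.I * T * α₀‖ = ‖y‖ * T := by
    rw [hXy, norm_mul, norm_mul, Complex.norm_I, one_mul, Complex.norm_real, Real.norm_eq_abs,
      abs_of_pos hT0, mul_comm]
  rw [hyn] at hXη ⊢
  have hyη : ‖y‖ ≤ η₀ := le_of_mul_le_mul_right hXη hT0
  by_contra hcon
  rw [not_le] at hcon
  have hηy : η ≤ ‖y‖ := (lt_of_mul_lt_mul_right hcon hT0.le).le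
  have hyB : y ∈ Metric.closedBall (0 : ℂ) η₀ := by rwa [mem_closedBall_zero_iff]
  have h1 := hδq y ⟨hyB, hηy⟩
  have h2 : (Fin.cons X (ipt T α) : Fin (m + 1) → ℂ) =
      (Fin.cons (T * (Complex.I * (α₀ + y))) (fun j => T * (Complex.I * (α j : ℂ))) :
        Fin (m + 1) → ℂ) := by
    funext j
    refine Fin.cases ?_ (fun l => ?_) j
    · rw [Fin.cons_zero, Fin.cons_zero]
      have : X = Complex.I * T * y + Complex.I * T * α₀ := by rw [← hXy]; ring
      rw [this]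
      ring
    · rw [Fin.cons_succ, Fin.cons_succ, ipt]
      ring
  rw [h2, cs_exp, ← hd, Finset.sum_range_succ] at hX
  have h3 : (T : ℂ) ^ d * q y = -∑ i ∈ Finset.range d, (T : ℂ) ^ i * r i y := by
    rw [hq, hr, hL, ← hd]
    linear_combination hX
  have h4 : T ^ d * ‖q y‖ * T ≤ T ^ d * S := by
    have h5 : T ^ d * ‖q y‖ = ‖∑ i ∈ Finset.range d, (T : ℂ) ^ i * r i y‖ := by
      rw [← norm_neg (∑ i ∈ Finset.range d, (T : ℂ) ^ i * r i y), ← h3, norm_mul, norm_pow,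
        Complex.norm_real, Real.norm_eq_abs, abs_of_pos hT0]
    rw [h5, hS, Finset.mul_sum]
    calc ‖∑ i ∈ Finset.range d, (T : ℂ) ^ i * r i y‖ * T
        ≤ (∑ i ∈ Finset.range d, ‖(T : ℂ) ^ i * r i y‖) * T :=
          mul_le_mul_of_nonneg_right (norm_sum_le _ _) hT0.le
      _ = ∑ i ∈ Finset.range d, T ^ (i + 1) * ‖r i y‖ := by
          rw [Finset.sum_mul]
          refine Finset.sum_congr rfl fun i _ => ?_
          rw [norm_mul, norm_pow, Complex.norm_real, Real.norm_eq_abs, abs_of_pos hT0]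
          ring
      _ ≤ ∑ i ∈ Finset.range d, T ^ d * B i := by
          refine Finset.sum_le_sum fun i hi => ?_
          refine mul_le_mul (pow_le_pow_right₀ hT1 (Finset.mem_range.1 hi)) (hB i y hyB)
            (norm_nonneg _) (by positivity)
  have h5 : ‖q y‖ * T ≤ S := by
    have h6 : 0 < T ^ d := by positivity
    refine le_of_mul_le_mul_left ?_ h6
    rw [← mul_assoc]
    exact h4
  have h6 : S < T * δ := (div_lt_iff₀ hδ).1 hTS
  have h7 : δ * T ≤ ‖q y‖ * T := mul_le_mul_of_nonneg_right h1 hT0.le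
  linarith [mul_comm T δ]

end Pool.Agent.EXM
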