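import Pool.Agent.EXM.Defs
import Pool.Agent.EXP.Elim

/-!
# EXM / Disc: a discriminant

PROOF.  `F' = pderiv 0 F ≠ 0` has smaller degree in `X_0` than `F`, so `F` does not divide it; `elim2` (EXP/Elim) gives
`D ≠ 0` with `D(x) = 0` if `F(z) = F'(z) = 0`, `z = (X, x)`. `Δ = D * lc`, `lc` = leading coefficient of
`finSuccEquiv F`. If `Δ(x) ≠ 0` then `fp F x` has degree `degreeOf 0 F` (`natDegree_finSuccEquiv`) and has no common root
with its derivative, so it is separable (`C` algebraically closed).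
-/

set_option autoImplicit false

namespace Pool.Agent.EXM

open MvPolynomial

theorem exists_disc {m : ℕ} (F : MvPolynomial (Fin (m + 1)) ℂ) (hF : Irreducible F)
    (hF0 : 0 < degreeOf 0 F) :
    ∃ Δ : MvPolynomial (Fin m) ℂ, Δ ≠ 0 ∧ ∀ x : Fin m → ℂ, eval x Δ ≠ 0 →
      (fp F x).natDegree = degreeOf 0 F ∧ (fp F x).Separable := by
  obtain ⟨f, hf⟩ : ∃ f : Polynomial (MvPolynomial (Fin m) ℂ), f = finSuccEquiv ℂ m F := ⟨_, rfl⟩
  have hdeg : f.natDegree = degreeOf 0 F := by
    rw [hf, natDegree_finSuccEquiv]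
  have hf0 : f ≠ 0 := by
    rintro h
    rw [h, Polynomial.natDegree_zero] at hdeg
    omega
  obtain ⟨S, hS⟩ : ∃ S : MvPolynomial (Fin (m + 1)) ℂ,
      S = (finSuccEquiv ℂ m).symm (Polynomial.derivative f) := ⟨_, rfl⟩
  have hS' : finSuccEquiv ℂ m S = Polynomial.derivative f := by
    rw [hS, AlgEquiv.apply_symm_apply]
  have hnd : ¬ F ∣ S := by
    intro h
    have h1 : f ∣ Polynomial.derivative f := by
      rw [← hS', hf]
      exact map_dvd _ h
    have h2 : Polynomial.derivative f = 0 :=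
      Polynomial.eq_zero_of_dvd_of_natDegree_lt h1
        (Polynomial.natDegree_derivative_lt (by omega))
    have h3 := Polynomial.derivative_eq_zero.1 h2
    omega
  obtain ⟨D, hD, hD2⟩ := EXP.elim2 F hF hF0 S hnd
  refine ⟨D * f.leadingCoeff, mul_ne_zero hD (Polynomial.leadingCoeff_ne_zero.2 hf0),
    fun x hx => ?_⟩
  rw [map_mul] at hx
  have hx1 := left_ne_zero_of_mul hx
  have hx2 := right_ne_zero_of_mul hx
  have hfp : fp F x = f.map (eval x) := by rw [fp, hf]
  refine ⟨?_, ?_⟩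
  · rw [hfp, Polynomial.natDegree_map_of_leadingCoeff_ne_zero _ hx2, hdeg]
  · rw [Polynomial.separable_def, Polynomial.isCoprime_iff_aeval_ne_zero_of_isAlgClosed ℂ ℂ]
    intro X
    by_contra hcon
    push Not at hcon
    obtain ⟨h1, h2⟩ := hcon
    rw [Polynomial.coe_aeval_eq_eval] at h1 h2
    have h3 := hD2 (Fin.cons X x) (by rw [← fp_eval]; exact h1) (by
      have h4 : eval (Fin.cons X x : Fin (m + 1) → ℂ) S =
          Polynomial.eval X ((finSuccEquiv ℂ m S).map (eval x)) := by
        rw [eval_eq_eval_mv_eval']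
      rw [h4, hS', ← Polynomial.derivative_map, ← hfp]
      exact h2)
    simp only [Fin.cons_succ] at h3
    exact hx1 h3

end Pool.Agent.EXM
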