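import Pool.Agent.EXM.Defs
import Pool.Agent.EXP.Defs
import Pool.Agent.EXP.Hur

/-!
# EXM / NearG: branch whose real part tends to infinity with the right sign

PROOF.  (Compare EXP/NearA, whose private lemmas may be copied.) `c = v_0 - h . v' ≠ 0` real, `u_k = Re X_k`,
`τ_k = u_k / c ≤ - 2 (deg E + 1) log T_k → -∞`, `|τ_k| = o(T_k)` (`near`). `b` = analytic logarithm of `u` at `0`.
`l_j` = nearest integer to `T_k α_j / (2 π)` (`j ≥ 1`), `l_0` = nearest integer to
`(Im X_k - T_k h . α) / (2 π) + h . l'`. For `σ` with `|σ - 1| ≤ r` (`r ≤ 1/2`): `τ = τ_k σ`, `t = e^τ → 0`,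
`x_j(σ) = 2 π i l_j + τ v_j + b_j(t)`. With a sheet `X₀` for `ε`:
`(x_0(σ) - X₀(x'(σ))) / |τ_k| = c (τ - τ_k) / |τ_k| + O(1 / |τ_k|) + O(ε)` (the increment of `x'` is `O(|τ_k| + 1)`, less
than `η T_k`), so uniformly near `- c (σ - 1)`: `hurwitz` gives a zero `σ_k`; `z = x(σ_k)`, `z_0 = X₀(z')`, `F(z) = 0`,
`exp z_j = t^(v_j) u_j(t)`, in `Tz Q`. `E(z', exp z) = t^N Σ_μ a_μ(t) z'^μ`, `|z'| = O(T_k)`,
`|t| ≤ e^(τ_k / 2) ≤ T_k^(-(deg E + 1))`, so `Σ_μ a_μ(t) z'^μ = s(z') + O(|t| T_k^(deg E))`, and divided by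
`(i T_k)^D`, `D = s.totalDegree`, it tends to `s_D(α) ≠ 0` (`z' / (i T_k) → α`).
-/

set_option autoImplicit false

namespace Pool.Agent.EXM

open MvPolynomial Filter Topology Pool.Agent.EXP

private lemma eval_scale {ι : Type} [Fintype ι] {d : ℕ} (L : MvPolynomial ι ℂ)
    (hL : L.IsHomogeneous d) (s : ℂ) (x : ι → ℂ) : eval (fun j => s * x j) L = s ^ d * eval x L := by
  rw [eval_eq', eval_eq', Finset.mul_sum]
  refine Finset.sum_congr rfl fun m hm => ?_
  have h1 : m.degree = d := by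
    by_contra h
    exact (mem_support_iff.1 hm) (hL.coeff_eq_zero h)
  have h2 : ∏ i, (s * x i) ^ m i = s ^ d * ∏ i, x i ^ m i := by
    simp_rw [mul_pow]
    rw [Finset.prod_mul_distrib, Finset.prod_pow_eq_pow_sum, ← h1, Finsupp.degree_eq_sum]
  rw [h2]
  ring

/-- the homogenized polynomial function -/
private noncomputable def Phi {ι : Type} (P : MvPolynomial ι ℂ) (q : ℂ × (ι → ℂ)) : ℂ :=
  ∑ k ∈ Finset.range (P.totalDegree + 1),
    q.1 ^ (P.totalDegree - k) * eval q.2 (homogeneousComponent k P)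

private lemma Phi_cont {ι : Type} (P : MvPolynomial ι ℂ) : Continuous (Phi P) := by
  unfold Phi
  apply continuous_finsetSum
  intro k _
  exact (continuous_fst.pow _).mul ((MvPolynomial.continuous_eval _).comp continuous_snd)

private lemma Phi_zero {ι : Type} (P : MvPolynomial ι ℂ) (w : ι → ℂ) :
    Phi P (0, w) = eval w (homogeneousComponent P.totalDegree P) := by
  unfold Phi
  rw [Finset.sum_range_succ, Nat.sub_self, pow_zero, one_mul, Finset.sum_eq_zero, zero_add]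
  intro k hk
  have hk' := Finset.mem_range.1 hk
  rw [zero_pow (by omega), zero_mul]

private lemma Phi_eq {ι : Type} [Fintype ι] (P : MvPolynomial ι ℂ) (c : ℂ) (hc : c ≠ 0)
    (z : ι → ℂ) : eval z P / c ^ P.totalDegree = Phi P (c⁻¹, fun j => c⁻¹ * z j) := by
  unfold Phi
  conv_lhs => rw [← sum_homogeneousComponent P]
  rw [map_sum, Finset.sum_div]
  apply Finset.sum_congr rfl
  intro k hk
  have hk' := Finset.mem_range.1 hk
  rw [eval_scale _ (homogeneousComponent_isHomogeneous k P), ← mul_assoc, ← pow_add,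
    Nat.sub_add_cancel (by omega), inv_pow, inv_mul_eq_div]
  congr 2
  have htd : (∑ i ∈ Finset.range (P.totalDegree + 1), homogeneousComponent i P).totalDegree =
      P.totalDegree := by rw [sum_homogeneousComponent]
  rw [htd]

/-- the value near the leading form -/
private lemma lead_near {ι : Type} [Fintype ι] (P : MvPolynomial ι ℂ) (A : ι → ℂ) (δ : ℝ)
    (hδ : 0 < δ) : ∃ δ' : ℝ, 0 < δ' ∧ ∀ (c : ℂ) (z : ι → ℂ), c ≠ 0 → ‖c⁻¹‖ < δ' →
      (∀ j, ‖c⁻¹ * z j - A j‖ < δ') →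
      ‖eval z P / c ^ P.totalDegree - eval A (homogeneousComponent P.totalDegree P)‖ < δ := by
  have h0 : ContinuousAt (Phi P) ((0 : ℂ), A) := (Phi_cont P).continuousAt
  obtain ⟨δ', hδ', h2⟩ := Metric.continuousAt_iff.1 h0 δ hδ
  refine ⟨δ' / 2, by positivity, fun c z hc hc' hz => ?_⟩
  have h5 : dist (c⁻¹, fun j => c⁻¹ * z j) ((0 : ℂ), A) < δ' := by
    rw [Prod.dist_eq]
    apply max_lt
    · rw [dist_zero_right]
      linarith
    · refine lt_of_le_of_lt ?_ (by linarith : δ' / 2 < δ')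
      rw [dist_pi_le_iff (by positivity)]
      intro j
      rw [dist_eq_norm]
      exact (hz j).le
  have h6 := h2 h5
  rw [Phi_zero, ← Phi_eq P c hc, dist_eq_norm] at h6
  exact h6

/-- `exp (τ_k σ)` is in every punctured neighbourhood of `0`, uniformly in `σ` -/
private lemma tev (τ : ℕ → ℝ) (hτ : Tendsto τ atTop atBot) (p : ℂ → Prop)
    (hp : ∀ᶠ t in 𝓝[≠] (0 : ℂ), p t) :
    ∀ᶠ k in atTop, ∀ σ : ℂ, 1 / 4 ≤ σ.re → p (Complex.exp ((τ k : ℂ) * σ)) := by
  rw [eventually_nhdsWithin_iff, Metric.eventually_nhds_iff] at hp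
  obtain ⟨δ, hδ, h⟩ := hp
  have hlim : Tendsto (fun k => Real.exp (τ k / 4)) atTop (𝓝 0) :=
    Real.tendsto_exp_atBot.comp (hτ.atBot_div_const (by norm_num))
  filter_upwards [hlim.eventually (gt_mem_nhds hδ), hτ.eventually_le_atBot 0] with k hk hk0 σ hσ
  apply h
  · rw [dist_zero_right, Complex.norm_exp]
    refine lt_of_le_of_lt ?_ hk
    apply Real.exp_le_exp.2
    rw [Complex.re_ofReal_mul]
    nlinarith
  · exact Complex.exp_ne_zero _

/-- a local logarithm -/
private lemma exists_log (u : ℂ → ℂ) (hu : AnalyticAt ℂ u 0) (hu0 : u 0 ≠ 0) :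
    ∃ b : ℂ → ℂ, AnalyticAt ℂ b 0 ∧ ∀ᶠ t in 𝓝 (0 : ℂ), Complex.exp (b t) = u t := by
  refine ⟨fun t => Complex.log (u 0) + Complex.log (u t / u 0), ?_, ?_⟩
  · apply analyticAt_const.add
    apply AnalyticAt.clog
    · exact hu.div analyticAt_const hu0
    · rw [div_self hu0]
      exact Complex.one_mem_slitPlane
  · filter_upwards [hu.continuousAt.eventually_ne hu0] with t ht
    rw [Complex.exp_add, Complex.exp_log hu0, Complex.exp_log (div_ne_zero ht hu0),
      mul_div_cancel₀ _ hu0]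

theorem nearG {m : ℕ} (Q : Ideal (MvPolynomial (Fin (m + 1)) ℂ))
    (F : MvPolynomial (Fin (m + 1)) ℂ) (α₀ : ℝ) (α h : Fin m → ℝ) (T : ℕ → ℝ) (X : ℕ → ℂ)
    (hB : Branch F α₀ α h T X) (v : Fin (m + 1) → ℤ) (u : Fin (m + 1) → ℂ → ℂ)
    (hu : ∀ j, AnalyticAt ℂ (u j) 0) (hu0 : ∀ j, u j 0 ≠ 0)
    (hW : ∀ᶠ t in 𝓝[≠] (0 : ℂ), (fun j => t ^ v j * u j t) ∈ Tz Q)
    (hcv : (v 0 : ℝ) - ∑ j : Fin m, h j * v j.succ ≠ 0)
    (E : MvPolynomial (Fin m) (MvPolynomial (Fin (m + 1)) ℂ))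
    (N : ℤ) (a : (Fin m →₀ ℕ) → ℂ → ℂ) (s : MvPolynomial (Fin m) ℂ)
    (ha : ∀ μ, AnalyticAt ℂ (a μ) 0) (has : ∀ μ, a μ 0 = coeff μ s)
    (haE : ∀ μ, ∀ᶠ t in 𝓝[≠] (0 : ℂ),
      eval (fun j => t ^ v j * u j t) (coeff μ E) = t ^ N * a μ t)
    (hs : eval (fun j : Fin m => (α j : ℂ)) (homogeneousComponent s.totalDegree s) ≠ 0)
    (hg : ∀ᶠ k in atTop, (X k).re / ((v 0 : ℝ) - ∑ j : Fin m, h j * v j.succ) ≤
      -(2 * (E.totalDegree + 1)) * Real.log (T k)) :
    ∃ z : Fin (m + 1) → ℂ, eval z F = 0 ∧ (fun j => Complex.exp (z j)) ∈ Tz Q ∧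
      eval (fun j => z j.succ) (map (eval fun j => Complex.exp (z j)) E) ≠ 0 := by
  classical
  choose b hb hbu using fun j => exists_log (u j) (hu j) (hu0 j)
  obtain ⟨c, hc⟩ : ∃ c : ℝ, c = (v 0 : ℝ) - ∑ j : Fin m, h j * v j.succ := ⟨_, rfl⟩
  rw [← hc] at hcv hg
  have hc0 : 0 < |c| := abs_pos.2 hcv
  have hcC : (c : ℂ) = (v 0 : ℂ) - ∑ j : Fin m, (h j : ℂ) * (v j.succ : ℂ) := by
    rw [hc]; push_cast; rfl
  obtain ⟨τ, hτ⟩ : ∃ τ : ℕ → ℝ, ∀ k, τ k = (X k).re / c := ⟨_, fun _ => rfl⟩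
  have hcτ : ∀ k, c * τ k = (X k).re := fun k => by
    rw [hτ]; field_simp
  have hTt := hB.tend
  have hre : Tendsto (fun k => (X k).re / T k) atTop (𝓝 0) := by
    have h1 := (Complex.continuous_re.tendsto _).comp hB.near
    have h2 : (Complex.I * (α₀ : ℂ)).re = 0 := by simp
    rw [h2] at h1
    refine h1.congr fun k => ?_
    simp [Complex.div_ofReal_re]
  have hτT : Tendsto (fun k => |τ k| / T k) atTop (𝓝 0) := by
    have h1 := (hre.div_const c).abs
    rw [zero_div, abs_zero] at h1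
    refine h1.congr' ?_
    filter_upwards [hTt.eventually_gt_atTop 0] with k hk
    rw [hτ]
    rw [abs_div, abs_div, abs_div, abs_of_pos hk]
    ring
  have hlogT : Tendsto (fun k => Real.log (T k)) atTop atTop := Real.tendsto_log_atTop.comp hTt
  have hd0 : (0 : ℝ) ≤ (E.totalDegree : ℝ) := Nat.cast_nonneg _
  have hτt : Tendsto τ atTop atBot := by
    have h1 : Tendsto (fun k => -(2 * ((E.totalDegree : ℝ) + 1)) * Real.log (T k)) atTop atBot :=
      (tendsto_const_mul_atBot_of_neg (by linarith)).2 hlogT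
    refine tendsto_atBot_mono' atTop ?_ h1
    filter_upwards [hg] with k hk
    rw [hτ]
    exact hk
  have hτabs : Tendsto (fun k => |τ k|) atTop atTop := tendsto_abs_atBot_atTop.comp hτt
  -- the curve
  let tt : ℕ → ℂ → ℂ := fun k σ => Complex.exp ((τ k : ℂ) * σ)
  let l' : ℕ → Fin m → ℤ := fun k j => round (T k * α j / (2 * Real.pi))
  let y0 : ℕ → ℝ := fun k =>
    ((X k).im - T k * ∑ j, h j * α j) / (2 * Real.pi) + ∑ j, h j * (l' k j : ℝ)
  let l : ℕ → Fin (m + 1) → ℤ := fun k => Fin.cons (round (y0 k)) (l' k)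
  let Z : ℕ → ℂ → (Fin (m + 1) → ℂ) := fun k σ j =>
    2 * Real.pi * Complex.I * l k j + τ k * σ * v j + b j (tt k σ)
  let U : Set ℂ := {σ | 1 / 4 < σ.re ∧ ‖σ‖ < 2}
  have hU : IsOpen U := (isOpen_lt continuous_const Complex.continuous_re).inter
    (isOpen_lt continuous_norm continuous_const)
  set K : Set ℂ := Metric.closedBall 1 (1 / 2) with hKdef
  have hKU : K ⊆ U := by
    intro σ hσ
    have h1 : ‖σ - 1‖ ≤ 1 / 2 := by
      have := Metric.mem_closedBall.1 hσ
      rwa [dist_eq_norm] at this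
    have h2 : |(σ - 1).re| ≤ 1 / 2 := (Complex.abs_re_le_norm _).trans h1
    rw [Complex.sub_re, Complex.one_re, abs_le] at h2
    have h3 := norm_sub_norm_le σ 1
    rw [norm_one] at h3
    exact ⟨by linarith [h2.1], by linarith⟩
  have hKre : ∀ σ ∈ K, 1 / 2 ≤ σ.re := by
    intro σ hσ
    have h1 : ‖σ - 1‖ ≤ 1 / 2 := by
      have := Metric.mem_closedBall.1 hσ
      rwa [dist_eq_norm] at this
    have h2 : |(σ - 1).re| ≤ 1 / 2 := (Complex.abs_re_le_norm _).trans h1
    rw [Complex.sub_re, Complex.one_re, abs_le] at h2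
    linarith [h2.1]
  -- events in `t`
  have htev : ∀ p : ℂ → Prop, (∀ᶠ t in 𝓝[≠] (0 : ℂ), p t) →
      ∀ᶠ k in atTop, ∀ σ ∈ U, p (tt k σ) := by
    intro p hp
    filter_upwards [tev τ hτt p hp] with k hk σ hσ
    exact hk σ hσ.1.le
  have hbB : ∀ᶠ k in atTop, ∀ j, ∀ σ ∈ U, ‖b j (tt k σ)‖ ≤ ‖b j 0‖ + 1 := by
    refine eventually_all.2 fun j => ?_
    apply htev (fun t => ‖b j t‖ ≤ ‖b j 0‖ + 1)
    apply eventually_nhdsWithin_of_eventually_nhds
    have h1 := (hb j).continuousAt.norm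
    filter_upwards [h1.eventually (ge_mem_nhds (show ‖b j 0‖ < ‖b j 0‖ + 1 by linarith))] with t ht
    exact ht
  obtain ⟨B, hBdef⟩ : ∃ B : ℝ, B = Real.pi + ∑ j, (‖b j 0‖ + 1) := ⟨_, rfl⟩
  obtain ⟨V, hVdef⟩ : ∃ V : ℝ, V = ∑ j, |(v j : ℝ)| + 1 := ⟨_, rfl⟩
  obtain ⟨H, hHdef⟩ : ∃ H : ℝ, H = ∑ j, |h j| := ⟨_, rfl⟩
  have hBj : ∀ j, Real.pi + (‖b j 0‖ + 1) ≤ B := by
    intro j
    rw [hBdef]
    have := Finset.single_le_sum (f := fun j => ‖b j 0‖ + 1) (fun i _ => by positivity)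
      (Finset.mem_univ j)
    linarith
  have hπ := Real.pi_pos
  have hB0 : 0 < B := by
    have := hBj 0
    have := norm_nonneg (b 0 0)
    linarith
  have hVj : ∀ j, |(v j : ℝ)| ≤ V := by
    intro j
    rw [hVdef]
    have := Finset.single_le_sum (f := fun j => |(v j : ℝ)|) (fun i _ => abs_nonneg _)
      (Finset.mem_univ j)
    linarith
  have hV1 : 1 ≤ V := by
    rw [hVdef]
    have : 0 ≤ ∑ j, |(v j : ℝ)| := Finset.sum_nonneg fun _ _ => abs_nonneg _
    linarith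
  have hH0 : 0 ≤ H := by
    rw [hHdef]
    exact Finset.sum_nonneg fun _ _ => abs_nonneg _
  -- the increment
  have hinc : ∀ᶠ k in atTop, ∀ σ ∈ U, ∀ j : Fin m,
      ‖Z k σ j.succ - ipt (T k) α j‖ ≤ B + 2 * V * |τ k| := by
    filter_upwards [hbB] with k hk σ hσ j
    have e1 : Z k σ j.succ - ipt (T k) α j =
        Complex.I * ((2 * Real.pi * l' k j - T k * α j : ℝ) : ℂ) + b j.succ (tt k σ)
          + τ k * σ * v j.succ := by
      change 2 * Real.pi * Complex.I * (l' k j : ℂ) + τ k * σ * v j.succ + b j.succ (tt k σ)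
        - Complex.I * T k * α j = _
      push_cast
      ring
    rw [e1]
    have e2 : ‖Complex.I * ((2 * Real.pi * l' k j - T k * α j : ℝ) : ℂ)‖ ≤ Real.pi := by
      rw [norm_mul, Complex.norm_I, one_mul, Complex.norm_real, Real.norm_eq_abs]
      have h9 := abs_sub_round (T k * α j / (2 * Real.pi))
      have h10 : 2 * Real.pi * (l' k j : ℝ) - T k * α j =
          -(2 * Real.pi * (T k * α j / (2 * Real.pi) - (l' k j : ℝ))) := by
        field_simp
        ring
      rw [h10, abs_neg, abs_mul, abs_of_pos (by positivity : 0 < 2 * Real.pi)]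
      calc 2 * Real.pi * |T k * α j / (2 * Real.pi) - (l' k j : ℝ)| ≤ 2 * Real.pi * (1 / 2) :=
            mul_le_mul_of_nonneg_left h9 (by positivity)
        _ = Real.pi := by ring
    have e3 : ‖(τ k : ℂ) * σ * v j.succ‖ ≤ 2 * V * |τ k| := by
      rw [norm_mul, norm_mul, Complex.norm_real, Real.norm_eq_abs]
      have h1 : ‖((v j.succ : ℤ) : ℂ)‖ ≤ V := by
        rw [Complex.norm_intCast]
        exact hVj j.succ
      calc |τ k| * ‖σ‖ * ‖((v j.succ : ℤ) : ℂ)‖ ≤ |τ k| * 2 * V := by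
            apply mul_le_mul _ h1 (norm_nonneg _) (by positivity)
            exact mul_le_mul_of_nonneg_left hσ.2.le (abs_nonneg _)
        _ = 2 * V * |τ k| := by ring
    refine (norm_add_le _ _).trans (add_le_add ((norm_add_le _ _).trans ?_) e3)
    exact (add_le_add e2 (hk j.succ σ hσ)).trans (hBj j.succ)
  have hsmall : ∀ η : ℝ, 0 < η → ∀ᶠ k in atTop, B + 2 * V * |τ k| < η * T k := by
    intro η hη
    filter_upwards [hτT.eventually (gt_mem_nhds (show (0 : ℝ) < η / (4 * V) by positivity)),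
      hTt.eventually_gt_atTop (2 * B / η), hTt.eventually_gt_atTop 0] with k h1 h2 h3
    rw [div_lt_div_iff₀ h3 (by positivity)] at h1
    rw [div_lt_iff₀ hη] at h2
    nlinarith
  -- Hurwitz
  obtain ⟨d, hd, hhur⟩ := hurwitz (fun σ : ℂ => σ - 1) 1 (1 / 2) (by norm_num)
    (fun σ _ => by fun_prop) (by simp) (by
      intro hev
      rw [Metric.eventually_nhds_iff] at hev
      obtain ⟨e, he, hev⟩ := hev
      have h1 := @hev (1 + (e / 2 : ℝ)) (by
        rw [dist_eq_norm, add_sub_cancel_left, Complex.norm_real, Real.norm_eq_abs,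
          abs_of_pos (by positivity)]
        linarith)
      rw [add_sub_cancel_left] at h1
      have h2 : (e / 2 : ℝ) = 0 := by exact_mod_cast h1
      linarith)
  obtain ⟨ε, hε, hε1, hε2⟩ : ∃ ε : ℝ, 0 < ε ∧ ε ≤ 1 ∧ 2 * V * ε ≤ |c| * d / 4 := by
    refine ⟨min 1 (|c| * d / (8 * V)), lt_min one_pos (by positivity), min_le_left _ _, ?_⟩
    calc 2 * V * min 1 (|c| * d / (8 * V)) ≤ 2 * V * (|c| * d / (8 * V)) :=
          mul_le_mul_of_nonneg_left (min_le_right _ _) (by positivity)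
      _ = |c| * d / 4 := by field_simp; ring
  obtain ⟨η, hη, hsh⟩ := hB.sheet ε hε
  -- the leading form of `s`
  obtain ⟨κ0, hκ0, hκs⟩ : ∃ κ0 > 0, κ0 ≤ ‖eval (fun j : Fin m => (α j : ℂ))
      (homogeneousComponent s.totalDegree s)‖ := ⟨_, norm_pos_iff.2 hs, le_rfl⟩
  obtain ⟨δ', hδ', hlead⟩ := lead_near s (fun j : Fin m => (α j : ℂ)) (κ0 / 2) (by positivity)
  -- the support
  have hsup : s.support ⊆ E.support := by
    intro μ hμ
    by_contra hE
    rw [mem_support_iff] at hμ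
    apply hμ
    rw [← has μ]
    have h1 : ∀ᶠ t in 𝓝[≠] (0 : ℂ), a μ t = 0 := by
      filter_upwards [haE μ, self_mem_nhdsWithin] with t ht ht0
      rw [notMem_support_iff.1 hE, map_zero] at ht
      exact (mul_eq_zero.1 ht.symm).resolve_left (zpow_ne_zero _ ht0)
    have h2 : Tendsto (a μ) (𝓝[≠] (0 : ℂ)) (𝓝 (a μ 0)) :=
      (ha μ).continuousAt.tendsto.mono_left nhdsWithin_le_nhds
    have h3 : Tendsto (a μ) (𝓝[≠] (0 : ℂ)) (𝓝 0) :=
      tendsto_const_nhds.congr' (h1.mono fun t ht => ht.symm)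
    exact tendsto_nhds_unique h2 h3
  set S : Finset (Fin m →₀ ℕ) := E.support with hS
  -- size of the points
  obtain ⟨A, hA1, hA⟩ : ∃ A : ℝ, 1 ≤ A ∧ ∀ᶠ k in atTop, ∀ σ ∈ U, ∀ j : Fin m,
      ‖Z k σ j.succ‖ ≤ A * T k := by
    refine ⟨∑ j, |α j| + 1, ?_, ?_⟩
    · have : 0 ≤ ∑ j, |α j| := Finset.sum_nonneg fun _ _ => abs_nonneg _
      linarith
    · filter_upwards [hinc, hsmall 1 one_pos, hTt.eventually_gt_atTop 0] with k h1 h2 h3 σ hσ j
      have h4 : ‖ipt (T k) α j‖ ≤ (∑ j, |α j|) * T k := by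
        change ‖Complex.I * T k * α j‖ ≤ _
        rw [norm_mul, norm_mul, Complex.norm_I, one_mul, Complex.norm_real, Complex.norm_real,
          Real.norm_eq_abs, Real.norm_eq_abs, abs_of_pos h3, mul_comm]
        apply mul_le_mul_of_nonneg_right _ h3.le
        exact Finset.single_le_sum (f := fun j => |α j|) (fun i _ => abs_nonneg _)
          (Finset.mem_univ j)
      have h5 := h1 σ hσ j
      have h6 : ‖Z k σ j.succ‖ ≤ ‖ipt (T k) α j‖ + ‖Z k σ j.succ - ipt (T k) α j‖ := by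
        have := norm_add_le (ipt (T k) α j) (Z k σ j.succ - ipt (T k) α j)
        rwa [add_sub_cancel] at this
      rw [add_mul]
      linarith
  have herr : ∀ μ ∈ S, ∀ δ > 0, ∀ᶠ k in atTop, ∀ σ ∈ K,
      ‖(a μ (tt k σ) - a μ 0) * ∏ j, (Z k σ (Fin.succ j)) ^ μ j‖ < δ := by
    intro μ hμ δ hδ
    obtain ⟨Ca, hCa⟩ := ((ha μ).differentiableAt.isBigO_sub).bound
    have h1 := htev _ (eventually_nhdsWithin_of_eventually_nhds hCa)
    have hdeg : ∑ j, μ j ≤ E.totalDegree := by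
      have h := le_totalDegree hμ
      rwa [Finsupp.sum_fintype _ _ fun _ => rfl] at h
    have hlim : Tendsto (fun k => |Ca| * A ^ E.totalDegree / T k) atTop (𝓝 0) :=
      hTt.const_div_atTop _
    filter_upwards [h1, hA, hlim.eventually (gt_mem_nhds hδ), hTt.eventually_ge_atTop 1, hg,
      hτt.eventually_le_atBot 0] with k h2 h3 h4 hT1 h5 h6 σ hσ
    have hσU := hKU hσ
    have hT0 : 0 < T k := by linarith
    refine lt_of_le_of_lt ?_ h4
    rw [norm_mul, norm_prod]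
    have e1 : ‖tt k σ‖ ≤ ((T k) ^ (E.totalDegree + 1))⁻¹ := by
      change ‖Complex.exp ((τ k : ℂ) * σ)‖ ≤ _
      rw [Complex.norm_exp, Complex.re_ofReal_mul]
      have e2 : τ k * σ.re ≤ -((E.totalDegree + 1 : ℕ) * Real.log (T k)) := by
        have h7 := hKre σ hσ
        rw [← hτ] at h5
        push_cast
        nlinarith
      calc Real.exp (τ k * σ.re) ≤ Real.exp (-((E.totalDegree + 1 : ℕ) * Real.log (T k))) :=
            Real.exp_le_exp.2 e2
        _ = ((T k) ^ (E.totalDegree + 1))⁻¹ := by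
            rw [Real.exp_neg, Real.exp_nat_mul, Real.exp_log hT0]
    have e3 : ‖a μ (tt k σ) - a μ 0‖ ≤ |Ca| * ((T k) ^ (E.totalDegree + 1))⁻¹ := by
      have h7 := h2 σ hσU
      rw [sub_zero] at h7
      exact h7.trans (mul_le_mul (le_abs_self _) e1 (norm_nonneg _) (abs_nonneg _))
    have hAT : 1 ≤ A * T k := by nlinarith
    have e4 : ∏ j, ‖(Z k σ (Fin.succ j)) ^ μ j‖ ≤ (A * T k) ^ E.totalDegree := by
      calc ∏ j, ‖(Z k σ (Fin.succ j)) ^ μ j‖ ≤ ∏ j : Fin m, (A * T k) ^ μ j := by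
            apply Finset.prod_le_prod
            · intro j _
              exact norm_nonneg _
            · intro j _
              rw [norm_pow]
              exact pow_le_pow_left₀ (norm_nonneg _) (h3 σ hσU j) _
        _ = (A * T k) ^ ∑ j, μ j := by rw [Finset.prod_pow_eq_pow_sum]
        _ ≤ (A * T k) ^ E.totalDegree := pow_le_pow_right₀ hAT hdeg
    calc ‖a μ (tt k σ) - a μ 0‖ * ∏ j, ‖(Z k σ (Fin.succ j)) ^ μ j‖
        ≤ (|Ca| * ((T k) ^ (E.totalDegree + 1))⁻¹) * (A * T k) ^ E.totalDegree :=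
          mul_le_mul e3 e4 (Finset.prod_nonneg fun j _ => norm_nonneg _) (by positivity)
      _ = |Ca| * A ^ E.totalDegree / T k := by
          rw [mul_pow, pow_succ]
          field_simp
  -- choose `k`
  have hcard : 0 < ((S.card : ℝ) + 1) := by positivity
  have hall1 : ∀ᶠ k in atTop, ∀ μ ∈ S, ∀ σ ∈ K,
      ‖(a μ (tt k σ) - a μ 0) * ∏ j, (Z k σ (Fin.succ j)) ^ μ j‖ < κ0 / 4 / (S.card + 1) := by
    rw [Filter.eventually_all_finset]
    intro μ hμ
    exact herr μ hμ _ (by positivity)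
  have hall2 : ∀ᶠ k in atTop, ∀ μ ∈ S, ∀ σ ∈ U,
      eval (fun j => (tt k σ) ^ v j * u j (tt k σ)) (coeff μ E) = (tt k σ) ^ N * a μ (tt k σ) := by
    rw [Filter.eventually_all_finset]
    intro μ _
    exact htev _ (haE μ)
  have hall3 : ∀ᶠ k in atTop, ∀ j, ∀ σ ∈ U, AnalyticAt ℂ (b j) (tt k σ) :=
    eventually_all.2 fun j =>
      htev _ (eventually_nhdsWithin_of_eventually_nhds (hb j).eventually_analyticAt)
  have hall4 : ∀ᶠ k in atTop, ∀ j, ∀ σ ∈ U, Complex.exp (b j (tt k σ)) = u j (tt k σ) :=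
    eventually_all.2 fun j => htev _ (eventually_nhdsWithin_of_eventually_nhds (hbu j))
  have hsT : ∀ᶠ k in atTop, ∀ σ ∈ U, ∀ j : Fin m,
      ‖(Complex.I * T k)⁻¹ * Z k σ j.succ - (α j : ℂ)‖ < δ' := by
    filter_upwards [hinc, hsmall δ' hδ', hTt.eventually_gt_atTop 0] with k h1 h2 h3 σ hσ j
    have hT0 : (T k : ℂ) ≠ 0 := by exact_mod_cast h3.ne'
    have e1 : (Complex.I * T k)⁻¹ * Z k σ j.succ - (α j : ℂ)
        = (Complex.I * T k)⁻¹ * (Z k σ j.succ - ipt (T k) α j) := by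
      change _ = (Complex.I * T k)⁻¹ * (Z k σ j.succ - Complex.I * T k * α j)
      have hI := Complex.I_ne_zero
      field_simp
    rw [e1, norm_mul, norm_inv, norm_mul, Complex.norm_I, one_mul, Complex.norm_real,
      Real.norm_eq_abs, abs_of_pos h3, inv_mul_lt_iff₀ h3, mul_comm]
    exact lt_of_le_of_lt (h1 σ hσ j) h2
  have hMτ : ∀ᶠ k in atTop, (2 + H) * B < |c| * d / 2 * |τ k| := by
    filter_upwards [hτabs.eventually_gt_atTop ((2 + H) * B / (|c| * d / 2))] with k hk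
    rw [div_lt_iff₀ (by positivity)] at hk
    linarith
  have hIT : ∀ᶠ k in atTop, (T k)⁻¹ < δ' := by
    filter_upwards [hTt.eventually_gt_atTop δ'⁻¹] with k hk
    exact inv_lt_of_inv_lt₀ hδ' hk
  obtain ⟨k, h1, h2, h3, h4, h5, h6, h7, h8, h9, h10, h11, h12, h13⟩ := (hall1.and
    (hall2.and (hall3.and (hall4.and ((htev _ hW).and (hsT.and (hMτ.and (hinc.and
    ((hsmall η hη).and (hbB.and (hsh.and (hIT.and
      (hTt.eventually_ge_atTop 1))))))))))))).exists
  obtain ⟨X₀, hX₀d, -, hX₀⟩ := h11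
  have hT0 : 0 < T k := by linarith
  have hτ0 : 0 < |τ k| := by
    by_contra hno
    have h14 : |τ k| = 0 := le_antisymm (not_lt.1 hno) (abs_nonneg _)
    rw [h14, mul_zero] at h7
    have : 0 ≤ (2 + H) * B := by positivity
    linarith
  have hmem : ∀ σ ∈ U, (fun j : Fin m => Z k σ j.succ) ∈ Metric.ball (ipt (T k) α) (η * T k) := by
    intro σ hσ
    rw [Metric.mem_ball, dist_eq_norm]
    refine lt_of_le_of_lt ?_ h9
    rw [pi_norm_le_iff_of_nonneg (by positivity)]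
    intro j
    exact h8 σ hσ j
  have hZd : ∀ j, DifferentiableOn ℂ (fun σ => Z k σ j) U := by
    intro j σ hσ
    apply DifferentiableAt.differentiableWithinAt
    change DifferentiableAt ℂ (fun σ => 2 * Real.pi * Complex.I * l k j + τ k * σ * v j +
      b j (tt k σ)) σ
    apply DifferentiableAt.add
    · fun_prop
    · have h14 : DifferentiableAt ℂ (fun σ => tt k σ) σ := by
        change DifferentiableAt ℂ (fun σ => Complex.exp ((τ k : ℂ) * σ)) σ
        fun_prop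
      exact (h3 j σ hσ).differentiableAt.comp σ h14
  have hga : AnalyticOnNhd ℂ (fun σ => (Z k σ 0 - X₀ (fun j : Fin m => Z k σ j.succ)) /
      ((c * τ k : ℝ) : ℂ)) K := by
    have h14 : DifferentiableOn ℂ (fun σ => (Z k σ 0 - X₀ (fun j : Fin m => Z k σ j.succ)) /
      ((c * τ k : ℝ) : ℂ)) U := by
      apply DifferentiableOn.div_const
      apply (hZd 0).sub
      exact hX₀d.comp (differentiableOn_pi.2 fun j => hZd j.succ) fun σ hσ => hmem σ hσ
    exact (h14.analyticOnNhd hU).mono hKU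
  have hcτ0 : ((c * τ k : ℝ) : ℂ) ≠ 0 := by
    exact_mod_cast mul_ne_zero hcv (abs_pos.1 hτ0)
  obtain ⟨σ, hσ, hz⟩ := hhur _ hga (fun σ hσ => by
    have hσU := hKU hσ
    obtain ⟨-, hE1⟩ := hX₀ _ (hmem σ hσU)
    set E1 : ℂ := X₀ (fun j : Fin m => Z k σ j.succ) - X k -
      ∑ j, (h j : ℂ) * ((fun j : Fin m => Z k σ j.succ) j - ipt (T k) α j) with hE1def
    have hE1b : ‖E1‖ ≤ ε * (B + 2 * V * |τ k|) := by
      refine hE1.trans (mul_le_mul_of_nonneg_left ?_ hε.le)
      rw [pi_norm_le_iff_of_nonneg (by positivity)]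
      intro j
      exact h8 σ hσU j
    have hsum : ∑ j, (h j : ℂ) * ((fun j : Fin m => Z k σ j.succ) j - ipt (T k) α j) =
        2 * Real.pi * Complex.I * (∑ j, (h j : ℂ) * (l' k j : ℂ)) +
        τ k * σ * (∑ j : Fin m, (h j : ℂ) * (v j.succ : ℂ)) +
        (∑ j : Fin m, (h j : ℂ) * b j.succ (tt k σ)) -
        Complex.I * T k * ∑ j, (h j : ℂ) * (α j : ℂ) := by
      simp only [Finset.mul_sum, ← Finset.sum_add_distrib, ← Finset.sum_sub_distrib]
      refine Finset.sum_congr rfl fun j _ => ?_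
      change (h j : ℂ) * (2 * Real.pi * Complex.I * (l' k j : ℂ) + τ k * σ * v j.succ +
        b j.succ (tt k σ) - Complex.I * T k * α j) = _
      ring
    have hX : X k = ((c * τ k : ℝ) : ℂ) + Complex.I * ((X k).im : ℂ) := by
      rw [hcτ, mul_comm Complex.I]
      exact (Complex.re_add_im _).symm
    have hy0 : (((2 * Real.pi * ((round (y0 k) : ℤ) - y0 k) : ℝ)) : ℂ) =
        2 * Real.pi * ((round (y0 k) : ℤ) : ℂ) - (X k).im +
        T k * (∑ j, (h j : ℂ) * (α j : ℂ)) - 2 * Real.pi * ∑ j, (h j : ℂ) * (l' k j : ℂ) := by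
      have e1 : 2 * Real.pi * ((round (y0 k) : ℤ) - y0 k) =
          2 * Real.pi * ((round (y0 k) : ℤ) : ℝ) - (X k).im +
          T k * (∑ j, h j * α j) - 2 * Real.pi * ∑ j, h j * (l' k j : ℝ) := by
        have e2 : y0 k = ((X k).im - T k * ∑ j, h j * α j) / (2 * Real.pi) +
          ∑ j, h j * (l' k j : ℝ) := rfl
        rw [mul_sub]
        conv_lhs =>
          rw [show 2 * Real.pi * y0 k = 2 * Real.pi * (((X k).im - T k * ∑ j, h j * α j) /
            (2 * Real.pi) + ∑ j, h j * (l' k j : ℝ)) from by rw [← e2]]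
        field_simp
        ring
      rw [e1]
      push_cast
      ring
    have hkey : Z k σ 0 - X₀ (fun j : Fin m => Z k σ j.succ) =
        ((c * τ k : ℝ) : ℂ) * (σ - 1) +
        (Complex.I * (((2 * Real.pi * ((round (y0 k) : ℤ) - y0 k) : ℝ)) : ℂ) + b 0 (tt k σ) -
          (∑ j : Fin m, (h j : ℂ) * b j.succ (tt k σ)) - E1) := by
      rw [hy0, hE1def, hsum]
      change 2 * Real.pi * Complex.I * ((round (y0 k) : ℤ) : ℂ) + τ k * σ * v 0 + b 0 (tt k σ) -
        X₀ (fun j : Fin m => Z k σ j.succ) = _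
      have hX' : X k = (c : ℂ) * τ k + Complex.I * ((X k).im : ℂ) := by
        rw [hX]
        push_cast
        simp
      have hv0 : (v 0 : ℂ) = c + ∑ j : Fin m, (h j : ℂ) * (v j.succ : ℂ) := by
        rw [hcC]; ring
      rw [hv0]
      push_cast
      linear_combination -hX'
    have hdiff : (Z k σ 0 - X₀ (fun j : Fin m => Z k σ j.succ)) / ((c * τ k : ℝ) : ℂ) - (σ - 1) =
        (Complex.I * (((2 * Real.pi * ((round (y0 k) : ℤ) - y0 k) : ℝ)) : ℂ) + b 0 (tt k σ) -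
          (∑ j : Fin m, (h j : ℂ) * b j.succ (tt k σ)) - E1) / ((c * τ k : ℝ) : ℂ) := by
      rw [hkey]
      field_simp
      ring
    rw [hdiff, norm_div, Complex.norm_real, Real.norm_eq_abs, abs_mul,
      div_lt_iff₀ (by positivity)]
    have n1 : ‖Complex.I * (((2 * Real.pi * ((round (y0 k) : ℤ) - y0 k) : ℝ)) : ℂ)‖ ≤ Real.pi := by
      rw [norm_mul, Complex.norm_I, one_mul, Complex.norm_real, Real.norm_eq_abs]
      have h15 := abs_sub_round (y0 k)
      rw [abs_sub_comm] at h15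
      rw [abs_mul, abs_of_pos (by positivity : 0 < 2 * Real.pi)]
      calc 2 * Real.pi * |((round (y0 k) : ℤ) : ℝ) - y0 k| ≤ 2 * Real.pi * (1 / 2) :=
            mul_le_mul_of_nonneg_left h15 (by positivity)
        _ = Real.pi := by ring
    have n2 := h10 0 σ hσU
    have n3 : ‖∑ j : Fin m, (h j : ℂ) * b j.succ (tt k σ)‖ ≤ H * B := by
      refine (norm_sum_le _ _).trans ?_
      rw [hHdef, Finset.sum_mul]
      refine Finset.sum_le_sum fun j _ => ?_
      rw [norm_mul, Complex.norm_real, Real.norm_eq_abs]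
      refine mul_le_mul_of_nonneg_left ?_ (abs_nonneg _)
      have := hBj j.succ
      have := h10 j.succ σ hσU
      linarith
    have n4 := norm_sub_le (Complex.I * (((2 * Real.pi * ((round (y0 k) : ℤ) - y0 k) : ℝ)) : ℂ) +
      b 0 (tt k σ) - (∑ j : Fin m, (h j : ℂ) * b j.succ (tt k σ))) E1
    have n5 := norm_sub_le (Complex.I * (((2 * Real.pi * ((round (y0 k) : ℤ) - y0 k) : ℝ)) : ℂ) +
      b 0 (tt k σ)) (∑ j : Fin m, (h j : ℂ) * b j.succ (tt k σ))
    have n6 := norm_add_le (Complex.I * (((2 * Real.pi * ((round (y0 k) : ℤ) - y0 k) : ℝ)) : ℂ))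
      (b 0 (tt k σ))
    have n7 := hBj 0
    have n8 : ε * (B + 2 * V * |τ k|) ≤ B + |c| * d / 4 * |τ k| := by
      have q1 : ε * B ≤ 1 * B := mul_le_mul_of_nonneg_right hε1 hB0.le
      have q2 : 2 * V * ε * |τ k| ≤ |c| * d / 4 * |τ k| :=
        mul_le_mul_of_nonneg_right hε2 hτ0.le
      have q3 : ε * (B + 2 * V * |τ k|) = ε * B + 2 * V * ε * |τ k| := by ring
      linarith
    have n9 : 0 < |c| * d / 4 * |τ k| := by positivity
    have n10 : d * (|c| * |τ k|) = |c| * d / 2 * |τ k| + |c| * d / 4 * |τ k|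
      + |c| * d / 4 * |τ k| := by ring
    rw [n10]
    have n11 : (2 + H) * B = B + B + H * B := by ring
    rw [n11] at h7
    linarith)
  have hσU := hKU hσ
  have hz0 : Z k σ 0 = X₀ (fun j : Fin m => Z k σ j.succ) := by
    rcases div_eq_zero_iff.1 hz with h14 | h14
    · exact sub_eq_zero.1 h14
    · exact absurd h14 hcτ0
  have hexp : (fun j => Complex.exp (Z k σ j)) = fun j => (tt k σ) ^ v j * u j (tt k σ) := by
    funext j
    change Complex.exp (2 * Real.pi * Complex.I * l k j + τ k * σ * v j + b j (tt k σ)) = _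
    rw [Complex.exp_add, Complex.exp_add, h4 j σ hσU]
    have e1 : Complex.exp (2 * Real.pi * Complex.I * l k j) = 1 := by
      rw [mul_comm (2 * (Real.pi : ℂ) * Complex.I)]
      exact Complex.exp_int_mul_two_pi_mul_I (l k j)
    have e2 : Complex.exp ((τ k : ℂ) * σ * v j) = (tt k σ) ^ v j := by
      rw [mul_comm ((τ k : ℂ) * σ), Complex.exp_int_mul]
    rw [e1, e2, one_mul]
  refine ⟨Z k σ, ?_, ?_, ?_⟩
  · have h14 := (hX₀ _ (hmem σ hσU)).1
    rw [← hz0] at h14
    have h15 : (Fin.cons (Z k σ 0) (fun j : Fin m => Z k σ j.succ) : Fin (m + 1) → ℂ) = Z k σ := by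
      funext j
      refine Fin.cases ?_ (fun i => ?_) j
      · rw [Fin.cons_zero]
      · rw [Fin.cons_succ]
    rwa [h15] at h14
  · rw [hexp]
    exact h5 σ hσU
  · rw [hexp]
    have ht0 : tt k σ ≠ 0 := Complex.exp_ne_zero _
    -- the value as a sum over `S`
    have e1 : eval (fun j => Z k σ (Fin.succ j))
        (map (eval fun j => (tt k σ) ^ v j * u j (tt k σ)) E) =
        (tt k σ) ^ N * ∑ μ ∈ S, a μ (tt k σ) * ∏ j, (Z k σ (Fin.succ j)) ^ μ j := by
      rw [eval_map, eval₂_eq', Finset.mul_sum]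
      apply Finset.sum_congr rfl
      intro μ hμ
      rw [h2 μ hμ σ hσU]
      ring
    have e3 : eval (fun j => Z k σ (Fin.succ j)) s =
        ∑ μ ∈ S, a μ 0 * ∏ j, (Z k σ (Fin.succ j)) ^ μ j := by
      rw [eval_eq']
      have e4 : ∑ μ ∈ S, a μ 0 * ∏ j, (Z k σ (Fin.succ j)) ^ μ j =
          ∑ μ ∈ S, coeff μ s * ∏ j, (Z k σ (Fin.succ j)) ^ μ j :=
        Finset.sum_congr rfl fun μ _ => by rw [has]
      rw [e4]
      apply Finset.sum_subset hsup
      intro μ _ hμ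
      rw [notMem_support_iff.1 hμ, zero_mul]
    have e5 : ‖∑ μ ∈ S, a μ (tt k σ) * ∏ j, (Z k σ (Fin.succ j)) ^ μ j -
        eval (fun j => Z k σ (Fin.succ j)) s‖ ≤ κ0 / 4 := by
      rw [e3, ← Finset.sum_sub_distrib]
      refine (norm_sum_le _ _).trans ?_
      calc ∑ μ ∈ S, ‖a μ (tt k σ) * ∏ j, (Z k σ (Fin.succ j)) ^ μ j -
            a μ 0 * ∏ j, (Z k σ (Fin.succ j)) ^ μ j‖
          ≤ ∑ μ ∈ S, κ0 / 4 / (S.card + 1) := by
            apply Finset.sum_le_sum
            intro μ hμ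
            rw [← sub_mul]
            exact (h1 μ hμ σ hσ).le
        _ = (S.card : ℝ) * (κ0 / 4 / (S.card + 1)) := by
            rw [Finset.sum_const, nsmul_eq_mul]
        _ ≤ κ0 / 4 := by
            rw [mul_div_assoc', div_le_iff₀ hcard]
            nlinarith
    have e6 : κ0 / 2 ≤ ‖eval (fun j => Z k σ (Fin.succ j)) s‖ := by
      have hIT0 : Complex.I * (T k : ℂ) ≠ 0 :=
        mul_ne_zero Complex.I_ne_zero (by exact_mod_cast hT0.ne')
      have hITn : ‖Complex.I * (T k : ℂ)‖ = T k := by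
        rw [norm_mul, Complex.norm_I, one_mul, Complex.norm_real, Real.norm_eq_abs,
          abs_of_pos hT0]
      have h14 := hlead (Complex.I * T k) (fun j => Z k σ (Fin.succ j)) hIT0 (by
        rw [norm_inv, hITn]
        exact h12) (h6 σ hσU)
      have h8 := norm_sub_norm_le (eval (fun j : Fin m => (α j : ℂ))
        (homogeneousComponent s.totalDegree s))
        (eval (fun j => Z k σ (Fin.succ j)) s / (Complex.I * T k) ^ s.totalDegree)
      rw [norm_sub_rev] at h8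
      have h9 : κ0 / 2 ≤
          ‖eval (fun j => Z k σ (Fin.succ j)) s / (Complex.I * T k) ^ s.totalDegree‖ := by
        linarith
      rw [norm_div, norm_pow, hITn] at h9
      refine h9.trans ?_
      apply div_le_self (norm_nonneg _)
      exact one_le_pow₀ h13
    rw [e1]
    apply mul_ne_zero (zpow_ne_zero _ ht0)
    intro h0
    rw [h0, zero_sub, norm_neg] at e5
    linarith

end Pool.Agent.EXM
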