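import Mathlib

/-!
# EXM / DensU: uniform density

By density there are finitely many `l` such that the values `l_0 - h . l'` are `ε`-dense in `[0, 1]`;
the general case follows by a translation by integer vectors.
-/

set_option autoImplicit false

namespace Pool.Agent.EXM

theorem dens_unif {m : ℕ} (h : Fin m → ℝ)
    (hdens : ∀ θ ε : ℝ, 0 < ε → ∃ l : Fin (m + 1) → ℤ,
      |(l 0 : ℝ) - ∑ j : Fin m, h j * l j.succ - θ| < ε) (ε : ℝ) (hε : 0 < ε) :
    ∃ M : ℝ, ∀ (θ : ℝ) (a : Fin m → ℝ), ∃ l : Fin (m + 1) → ℤ,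
      (∀ j : Fin m, |(l j.succ : ℝ) - a j| ≤ M) ∧
      |(l 0 : ℝ) - ∑ j : Fin m, h j * l j.succ - θ| < ε := by
  obtain ⟨N, hN⟩ := exists_nat_gt (2 / ε)
  have hN0 : (0 : ℝ) < N := lt_trans (by positivity) hN
  have hN1 : 1 / (N : ℝ) < ε / 2 := by
    rw [div_lt_iff₀ hN0]
    rw [div_lt_iff₀ hε] at hN
    linarith
  choose L hL using fun i : ℕ => hdens ((i : ℝ) / N) (ε / 2) (by positivity)
  refine ⟨∑ i ∈ Finset.range (N + 1), ∑ j : Fin m, |(L i j.succ : ℝ)| + 1, fun θ a => ?_⟩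
  set θ' : ℝ := θ + ∑ j : Fin m, h j * (round (a j) : ℝ) with hθ'
  set t : ℝ := Int.fract θ' with ht
  have ht0 : 0 ≤ t := Int.fract_nonneg _
  have ht1 : t < 1 := Int.fract_lt_one _
  set i : ℕ := ⌊t * N⌋₊ with hi
  have hi1 : (i : ℝ) ≤ t * N := Nat.floor_le (by positivity)
  have hi2 : t * N < i + 1 := Nat.lt_floor_add_one _
  have hiN : i < N + 1 := by
    have : (i : ℝ) < N := lt_of_le_of_lt hi1 (by nlinarith)
    have : i < N := by exact_mod_cast this
    omega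
  have hti : |(i : ℝ) / N - t| ≤ 1 / N := by
    have h1 : (i : ℝ) / N ≤ t := by
      rw [div_le_iff₀ hN0]
      exact hi1
    have h2 : t ≤ (i : ℝ) / N + 1 / N := by
      rw [← add_div, le_div_iff₀ hN0]
      exact hi2.le
    rw [abs_le]
    constructor <;> linarith
  refine ⟨Fin.cons (L i 0 + ⌊θ'⌋) fun j => L i j.succ + round (a j), fun j => ?_, ?_⟩
  · rw [Fin.cons_succ]
    push_cast
    have h1 : |(L i j.succ : ℝ)| ≤ ∑ j : Fin m, |(L i j.succ : ℝ)| :=
      Finset.single_le_sum (f := fun j : Fin m => |(L i j.succ : ℝ)|)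
        (fun _ _ => abs_nonneg _) (Finset.mem_univ j)
    have h2 : ∑ j : Fin m, |(L i j.succ : ℝ)| ≤
        ∑ i ∈ Finset.range (N + 1), ∑ j : Fin m, |(L i j.succ : ℝ)| :=
      Finset.single_le_sum (f := fun i : ℕ => ∑ j : Fin m, |(L i j.succ : ℝ)|)
        (fun _ _ => Finset.sum_nonneg fun _ _ => abs_nonneg _) (Finset.mem_range.2 hiN)
    have h3 : |(round (a j) : ℝ) - a j| ≤ 1 / 2 := by
      rw [abs_sub_comm]
      exact abs_sub_round _
    calc |(L i j.succ : ℝ) + round (a j) - a j| = |(L i j.succ : ℝ) + (round (a j) - a j)| := by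
          congr 1
          ring
      _ ≤ |(L i j.succ : ℝ)| + |(round (a j) : ℝ) - a j| := abs_add_le _ _
      _ ≤ _ := by linarith
  · rw [Fin.cons_zero]
    simp only [Fin.cons_succ]
    push_cast
    have h1 : ∑ j : Fin m, h j * ((L i j.succ : ℝ) + (round (a j) : ℝ)) =
        ∑ j : Fin m, h j * (L i j.succ : ℝ) + ∑ j : Fin m, h j * (round (a j) : ℝ) := by
      rw [← Finset.sum_add_distrib]
      exact Finset.sum_congr rfl fun j _ => by ring
    have h2 : (⌊θ'⌋ : ℝ) + t = θ' := Int.floor_add_fract θ'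
    have h3 : (L i 0 : ℝ) + (⌊θ'⌋ : ℝ) - ∑ j : Fin m, h j * ((L i j.succ : ℝ) + (round (a j) : ℝ)) -
        θ = ((L i 0 : ℝ) - ∑ j : Fin m, h j * (L i j.succ : ℝ) - (i : ℝ) / N) +
          ((i : ℝ) / N - t) := by
      rw [h1]
      linarith
    rw [h3]
    calc _ ≤ |(L i 0 : ℝ) - ∑ j : Fin m, h j * (L i j.succ : ℝ) - (i : ℝ) / N| +
          |(i : ℝ) / N - t| := abs_add_le _ _
      _ < ε := by linarith [hL i]

end Pool.Agent.EXM
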