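import Pool.Agent.EXM.Defs
import Pool.Agent.EXM.DensU
import Pool.Agent.EXP.Defs
import Pool.Agent.EXP.Hur
import Pool.Agent.EXP.NbB

/-!
# EXM / NearM: branch with bounded real part

PROOF.  (Compare EXP/NearB.) `f(t) = (x_0(t) - h . x'(t)) - (x_0(0) - h . x'(0))`. `r > 0` small, `hurwitz` for `f` on `|t| ≤ r`
with `δ`; `|x(t)| ≤ B` there. `M` from `dens_unif` for `ε₁ = δ / (8 π)`; `B' = 2 π (M + 1) + B`; `ε` with `ε B' < δ / 4` and the
sheet `X₀` for this `ε`. For large `k`: `l` with `|l_j - T_k α_j / (2 π)| ≤ M` (`j ≥ 1`) and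
`2 π (l_0 - h . l')` within `δ / 4` of `θ_k = Im X_k - T_k h . α - Im (x_0(0) - h . x'(0))`.
`g(t) = 2 π i l_0 + x_0(t) - X₀(2 π i l' + x'(t))` is analytic on `|t| ≤ r` and equals
`f(t) + (κ - Re X_k) + i (2 π (l_0 - h . l') - θ_k) + O(ε B')`: so `|g - f| < δ`. A zero `t_k` of `g` gives
`z = 2 π i l + x(t_k)`, `z_0 = X₀(z')`, `F(z) = 0`, `exp z = exp x(t_k) ∈ Tz Q`; `E` as in NearB (`nb_Emain`, `nb_Econt`,
with `T = T_k / (2 π)`).
-/

set_option autoImplicit false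

namespace Pool.Agent.EXM

open MvPolynomial Filter Topology Pool.Agent.EXP

theorem nearM {m : ℕ} (Q : Ideal (MvPolynomial (Fin (m + 1)) ℂ))
    (F : MvPolynomial (Fin (m + 1)) ℂ) (α₀ : ℝ) (α h : Fin m → ℝ) (T : ℕ → ℝ) (X : ℕ → ℂ)
    (hB : Branch F α₀ α h T X) (κ : ℝ) (hκ : Tendsto (fun k => (X k).re) atTop (𝓝 κ))
    (hdens : ∀ θ ε : ℝ, 0 < ε → ∃ l : Fin (m + 1) → ℤ,
      |(l 0 : ℝ) - ∑ j : Fin m, h j * l j.succ - θ| < ε)
    (x : ℂ → Fin (m + 1) → ℂ) (hx : ∀ j, AnalyticAt ℂ (fun t => x t j) 0)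
    (hxW : ∀ᶠ t in 𝓝 (0 : ℂ), (fun j => Complex.exp (x t j)) ∈ Tz Q)
    (hx0 : (x 0 0 - ∑ j : Fin m, (h j : ℂ) * x 0 j.succ).re = κ)
    (hx1 : ¬ ∀ᶠ t in 𝓝 (0 : ℂ), x t 0 - ∑ j : Fin m, (h j : ℂ) * x t j.succ =
      x 0 0 - ∑ j : Fin m, (h j : ℂ) * x 0 j.succ)
    (E : MvPolynomial (Fin m) (MvPolynomial (Fin (m + 1)) ℂ)) (D : ℕ)
    (hD : ∀ w ∈ Tz Q, (map (eval w) E).totalDegree ≤ D)
    (hE : eval (fun j : Fin m => (α j : ℂ))
      (homogeneousComponent D (map (eval fun j => Complex.exp (x 0 j)) E)) ≠ 0) :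
    ∃ z : Fin (m + 1) → ℂ, eval z F = 0 ∧ (fun j => Complex.exp (z j)) ∈ Tz Q ∧
      eval (fun j => z j.succ) (map (eval fun j => Complex.exp (z j)) E) ≠ 0 := by
  have hpi := Real.pi_gt_three
  have hpi0 : 0 < Real.pi := Real.pi_pos
  -- the value of the leading part of `E` at `exp x(t)`
  set φ : ℂ → ℂ := fun t => eval (fun j : Fin m => (α j : ℂ))
    (homogeneousComponent D (map (eval fun j => Complex.exp (x t j)) E)) with hφ
  have hφc : ContinuousAt φ 0 := by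
    have h1 : φ = (fun w : Fin (m + 1) → ℂ => eval (fun j : Fin m => (α j : ℂ))
        (map (eval w) (homogeneousComponent D E))) ∘ fun t j => Complex.exp (x t j) := by
      funext t
      rw [hφ]
      simp only [Function.comp_apply]
      rw [nb_map_comp]
    rw [h1]
    refine ContinuousAt.comp (nb_Econt _ _).continuousAt ?_
    exact continuousAt_pi.2 fun j => (hx j).continuousAt.cexp
  obtain ⟨δ₀, hδ₀, hδφ⟩ : ∃ δ₀ : ℝ, 0 < δ₀ ∧ ∀ᶠ t in 𝓝 (0 : ℂ), δ₀ ≤ ‖φ t‖ := by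
    have h0 : 0 < ‖φ 0‖ := norm_pos_iff.2 hE
    refine ⟨‖φ 0‖ / 2, by positivity, ?_⟩
    have h1 : ∀ᶠ t in 𝓝 (0 : ℂ), ‖φ 0‖ / 2 < ‖φ t‖ :=
      hφc.norm.eventually_const_lt (by linarith)
    exact h1.mono fun t ht => ht.le
  -- a closed disc
  have hev : ∀ᶠ t in 𝓝 (0 : ℂ), (∀ j, AnalyticAt ℂ (fun t => x t j) t) ∧
      (fun j => Complex.exp (x t j)) ∈ Tz Q ∧ δ₀ ≤ ‖φ t‖ :=
    (eventually_all.2 fun j => (hx j).eventually_analyticAt).and (hxW.and hδφ)
  obtain ⟨r', hr', hball⟩ := Metric.eventually_nhds_iff_ball.1 hev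
  obtain ⟨r, hr, hrr⟩ : ∃ r : ℝ, 0 < r ∧ r < r' := ⟨r' / 2, by linarith, by linarith⟩
  have hcl : ∀ t ∈ Metric.closedBall (0 : ℂ) r, (∀ j, AnalyticAt ℂ (fun t => x t j) t) ∧
      (fun j => Complex.exp (x t j)) ∈ Tz Q ∧ δ₀ ≤ ‖φ t‖ := fun t ht =>
    hball t (Metric.closedBall_subset_ball hrr ht)
  -- a bound
  obtain ⟨B₁, hB₁, hB₂⟩ : ∃ B₁ : ℝ, (∀ t ∈ Metric.closedBall (0 : ℂ) r, ∀ j, ‖x t j‖ ≤ B₁) ∧
      ∀ t ∈ Metric.closedBall (0 : ℂ) r, ∀ j, ‖Complex.exp (x t j)‖ ≤ B₁ := by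
    have hcont : ∀ j, ContinuousOn (fun t => x t j) (Metric.closedBall (0 : ℂ) r) :=
      fun j t ht => ((hcl t ht).1 j).continuousAt.continuousWithinAt
    choose b₁ hb₁ using fun j =>
      (isCompact_closedBall (0 : ℂ) r).exists_bound_of_continuousOn (hcont j)
    choose b₂ hb₂ using fun j =>
      (isCompact_closedBall (0 : ℂ) r).exists_bound_of_continuousOn (hcont j).cexp
    refine ⟨∑ j, (|b₁ j| + |b₂ j|), fun t ht j => ?_, fun t ht j => ?_⟩
    · refine (hb₁ j t ht).trans ?_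
      have h1 := Finset.single_le_sum (f := fun j => |b₁ j| + |b₂ j|)
        (fun j _ => by positivity) (Finset.mem_univ j)
      have h2 := le_abs_self (b₁ j)
      have h3 := abs_nonneg (b₂ j)
      linarith
    · refine (hb₂ j t ht).trans ?_
      have h1 := Finset.single_le_sum (f := fun j => |b₁ j| + |b₂ j|)
        (fun j _ => by positivity) (Finset.mem_univ j)
      have h2 := le_abs_self (b₂ j)
      have h3 := abs_nonneg (b₁ j)
      linarith
  -- the limit function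
  set Y0 : ℂ := x 0 0 - ∑ j : Fin m, (h j : ℂ) * x 0 j.succ with hY0
  set f : ℂ → ℂ := fun t => (x t 0 - ∑ j : Fin m, (h j : ℂ) * x t j.succ) - Y0 with hf
  have hfa : AnalyticOnNhd ℂ f (Metric.closedBall 0 r) := by
    intro t ht
    refine AnalyticAt.sub (AnalyticAt.sub ((hcl t ht).1 0) ?_) analyticAt_const
    exact Finset.analyticAt_fun_sum _ fun j _ => analyticAt_const.mul ((hcl t ht).1 j.succ)
  have hf0 : f 0 = 0 := sub_self _
  have hfne : ¬ ∀ᶠ t in 𝓝 (0 : ℂ), f t = 0 := fun h =>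
    hx1 (h.mono fun t ht => sub_eq_zero.1 ht)
  obtain ⟨δ, hδ, hH⟩ := hurwitz f 0 r hr hfa hf0 hfne
  -- constants
  obtain ⟨M, hM⟩ := dens_unif h hdens (δ / (16 * Real.pi)) (by positivity)
  obtain ⟨B, hBM, hBB, hB0⟩ : ∃ B : ℝ, M ≤ B ∧ B₁ ≤ B ∧ 0 ≤ B := by
    refine ⟨|M| + |B₁|, ?_, ?_, by positivity⟩
    · have h1 := le_abs_self M
      have h2 := abs_nonneg B₁
      linarith
    · have h1 := le_abs_self B₁
      have h2 := abs_nonneg M
      linarith
  obtain ⟨B', hB'⟩ : ∃ B' : ℝ, B' = 2 * Real.pi * B + B := ⟨_, rfl⟩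
  have hB'0 : 0 ≤ B' := by rw [hB']; positivity
  obtain ⟨C₂, hC₂0, hC₂⟩ := nb_Emain E D α B
  have hε : 0 < δ / (4 * (B' + 1)) := by positivity
  obtain ⟨η, hη, hsh⟩ := hB.sheet (δ / (4 * (B' + 1))) hε
  have ev1 : ∀ᶠ k in atTop, B' < η * T k :=
    (hB.tend.const_mul_atTop hη).eventually_gt_atTop B'
  have ev2 : ∀ᶠ k in atTop, |(X k).re - κ| < δ / 4 := by
    have h1 := Metric.tendsto_nhds.1 hκ (δ / 4) (by positivity)
    exact h1.mono fun k hk => by rwa [Real.dist_eq] at hk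
  have ev3 : ∀ᶠ k in atTop, max (2 * Real.pi) (2 * Real.pi * (C₂ / δ₀)) < T k :=
    hB.tend.eventually_gt_atTop _
  obtain ⟨k, ⟨⟨⟨X₀, hX1, hX2, hX3⟩, hk1⟩, hk2⟩, hk3⟩ := (((hsh.and ev1).and ev2).and ev3).exists
  have hT2 : 2 * Real.pi < T k := lt_of_le_of_lt (le_max_left _ _) hk3
  have hT0 : 0 < T k := by linarith
  have hT1 : 1 ≤ T k / (2 * Real.pi) := by
    rw [le_div_iff₀ (by positivity)]
    linarith
  have hTC₂ : C₂ / (T k / (2 * Real.pi)) < δ₀ := by
    have h1 : 2 * Real.pi * (C₂ / δ₀) < T k := lt_of_le_of_lt (le_max_right _ _) hk3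
    rw [div_lt_iff₀ (by linarith)]
    rw [← lt_div_iff₀' (by positivity), div_lt_iff₀ hδ₀] at h1
    linarith
  set hα : ℝ := ∑ j, h j * α j with hhα
  obtain ⟨l, hl1, hl2⟩ := hM (((X k).im - Y0.im - T k * hα) / (2 * Real.pi))
    (fun j => T k * α j / (2 * Real.pi))
  set θ : ℂ := 2 * Real.pi * Complex.I with hθ
  have hθn : ‖θ‖ = 2 * Real.pi := by
    rw [hθ]
    simp [abs_of_pos Real.pi_pos]
  -- the points
  set P : ℂ → Fin m → ℂ := fun t j => θ * (((l j.succ : ℤ) : ℝ) : ℂ) + x t j.succ with hP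
  have hPj : ∀ t (j : Fin m), P t j - ipt (T k) α j =
      Complex.I * ((2 * Real.pi * l j.succ - T k * α j : ℝ) : ℂ) + x t j.succ := by
    intro t j
    rw [hP, ipt, hθ]
    push_cast
    ring
  have hPn : ∀ t ∈ Metric.closedBall (0 : ℂ) r, ‖P t - ipt (T k) α‖ ≤ B' := by
    intro t ht
    rw [pi_norm_le_iff_of_nonneg hB'0]
    intro j
    rw [Pi.sub_apply, hPj]
    refine (norm_add_le _ _).trans ?_
    rw [norm_mul, Complex.norm_I, one_mul, Complex.norm_real, Real.norm_eq_abs, hB']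
    refine add_le_add ?_ ((hB₁ t ht _).trans hBB)
    have h1 : 2 * Real.pi * (l j.succ : ℝ) - T k * α j =
        2 * Real.pi * ((l j.succ : ℝ) - T k * α j / (2 * Real.pi)) := by
      field_simp
    rw [h1, abs_mul, abs_of_pos (by positivity : (0 : ℝ) < 2 * Real.pi)]
    exact mul_le_mul_of_nonneg_left ((hl1 j).trans hBM) (by positivity)
  have hPb : ∀ t ∈ Metric.closedBall (0 : ℂ) r, P t ∈ Metric.ball (ipt (T k) α) (η * T k) := by
    intro t ht
    rw [mem_ball_iff_norm]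
    exact lt_of_le_of_lt (hPn t ht) hk1
  set g : ℂ → ℂ := fun t => θ * (((l 0 : ℤ) : ℝ) : ℂ) + x t 0 - X₀ (P t) with hg
  have hga : AnalyticOnNhd ℂ g (Metric.closedBall 0 r) := by
    intro t ht
    rw [Complex.analyticAt_iff_eventually_differentiableAt]
    have hPan : ∀ s, (∀ j, AnalyticAt ℂ (fun t => x t j) s) → DifferentiableAt ℂ P s := by
      intro s hs
      rw [differentiableAt_pi]
      intro j
      exact (differentiableAt_const _).add (hs j.succ).differentiableAt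
    have h1 : ∀ᶠ s in 𝓝 t, ∀ j, AnalyticAt ℂ (fun t => x t j) s :=
      eventually_all.2 fun j => ((hcl t ht).1 j).eventually_analyticAt
    have h2 : ∀ᶠ s in 𝓝 t, P s ∈ Metric.ball (ipt (T k) α) (η * T k) :=
      (hPan t (hcl t ht).1).continuousAt.eventually_mem (Metric.isOpen_ball.mem_nhds (hPb t ht))
    filter_upwards [h1, h2] with s hs1 hs2
    refine ((differentiableAt_const _).add (hs1 0).differentiableAt).sub ?_
    exact DifferentiableAt.comp s ((hX1 _ hs2).differentiableAt (Metric.isOpen_ball.mem_nhds hs2))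
      (hPan s hs1)
  have hgf : ∀ t ∈ Metric.closedBall (0 : ℂ) r, ‖g t - f t‖ < δ := by
    intro t ht
    obtain ⟨err, herr⟩ : ∃ err : ℂ, err = X₀ (P t) - X k - ∑ j, (h j : ℂ) * (P t j - ipt (T k) α j) :=
      ⟨_, rfl⟩
    have h1 := (hX3 (P t) (hPb t ht)).2
    rw [← herr] at h1
    have h2 : ‖err‖ ≤ δ / 4 := by
      refine h1.trans ?_
      calc δ / (4 * (B' + 1)) * ‖P t - ipt (T k) α‖ ≤ δ / (4 * (B' + 1)) * (B' + 1) := by
            refine mul_le_mul_of_nonneg_left ?_ hε.le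
            have := hPn t ht
            linarith
        _ = δ / 4 := by
            field_simp
    obtain ⟨s, hs⟩ : ∃ s : ℝ, s = (l 0 : ℝ) - ∑ j : Fin m, h j * l j.succ := ⟨_, rfl⟩
    have e : g t - f t = (Y0 - X k) + Complex.I * ((2 * Real.pi * s + T k * hα : ℝ) : ℂ) - err := by
      have e1 : ∑ j, (h j : ℂ) * (P t j - ipt (T k) α j) =
          Complex.I * ((2 * Real.pi * ∑ j : Fin m, h j * l j.succ - T k * hα : ℝ) : ℂ) +
          ∑ j : Fin m, (h j : ℂ) * x t j.succ := by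
        rw [hhα, Finset.mul_sum, Finset.mul_sum, ← Finset.sum_sub_distrib, Complex.ofReal_sum,
          Finset.mul_sum, ← Finset.sum_add_distrib]
        refine Finset.sum_congr rfl fun j _ => ?_
        rw [hPj]
        push_cast
        ring
      rw [herr, e1, hs, hg, hf, hθ]
      push_cast
      ring
    have him : (Y0 - X k + Complex.I * ((2 * Real.pi * s + T k * hα : ℝ) : ℂ)).im =
        2 * Real.pi * (s - ((X k).im - Y0.im - T k * hα) / (2 * Real.pi)) := by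
      have h3 : (Complex.I * ((2 * Real.pi * s + T k * hα : ℝ) : ℂ)).im = 2 * Real.pi * s + T k * hα := by
        rw [Complex.mul_im, Complex.I_re, Complex.I_im, Complex.ofReal_re, Complex.ofReal_im]
        ring
      rw [Complex.add_im, h3, Complex.sub_im]
      field_simp
      ring
    have hre : (Y0 - X k + Complex.I * ((2 * Real.pi * s + T k * hα : ℝ) : ℂ)).re = κ - (X k).re := by
      have h3 : (Complex.I * ((2 * Real.pi * s + T k * hα : ℝ) : ℂ)).re = 0 := by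
        rw [Complex.mul_re, Complex.I_re, Complex.I_im, Complex.ofReal_re, Complex.ofReal_im]
        ring
      rw [Complex.add_re, h3, Complex.sub_re, hx0, add_zero]
    have h4 : ‖Y0 - X k + Complex.I * ((2 * Real.pi * s + T k * hα : ℝ) : ℂ)‖ ≤ δ / 4 + δ / 8 := by
      refine (Complex.norm_le_abs_re_add_abs_im _).trans (add_le_add ?_ ?_)
      · rw [hre, abs_sub_comm]
        exact hk2.le
      · rw [him, abs_mul, abs_of_pos (by positivity : (0 : ℝ) < 2 * Real.pi)]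
        rw [← hs] at hl2
        calc 2 * Real.pi * |s - ((X k).im - Y0.im - T k * hα) / (2 * Real.pi)|
            ≤ 2 * Real.pi * (δ / (16 * Real.pi)) := mul_le_mul_of_nonneg_left hl2.le (by positivity)
          _ = δ / 8 := by
              field_simp
              ring
    rw [e]
    have h5 := norm_sub_le (Y0 - X k + Complex.I * ((2 * Real.pi * s + T k * hα : ℝ) : ℂ)) err
    linarith
  obtain ⟨t, ht, hgt⟩ := hH g hga hgf
  -- the zero
  have hexp : (fun j => Complex.exp (θ * (((l j : ℤ) : ℝ) : ℂ) + x t j)) =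
      fun j => Complex.exp (x t j) := by
    funext j
    have h1 : θ * (((l j : ℤ) : ℝ) : ℂ) = (l j : ℂ) * (2 * Real.pi * Complex.I) := by
      rw [hθ]
      push_cast
      ring
    rw [Complex.exp_add, h1, Complex.exp_int_mul_two_pi_mul_I, one_mul]
  refine ⟨fun j => θ * (((l j : ℤ) : ℝ) : ℂ) + x t j, ?_, ?_, ?_⟩
  · have h1 := (hX3 (P t) (hPb t ht)).1
    have h2 : X₀ (P t) = θ * (((l 0 : ℤ) : ℝ) : ℂ) + x t 0 := (sub_eq_zero.1 hgt).symm
    rw [h2] at h1
    have h3 : (Fin.cons (θ * (((l 0 : ℤ) : ℝ) : ℂ) + x t 0) (P t) : Fin (m + 1) → ℂ) =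
        fun j => θ * (((l j : ℤ) : ℝ) : ℂ) + x t j := by
      funext j
      refine Fin.cases ?_ (fun i => ?_) j
      · rw [Fin.cons_zero]
      · rw [Fin.cons_succ]
    rw [h3] at h1
    exact h1
  · rw [hexp]
    exact (hcl t ht).2.1
  · rw [hexp]
    have hw : (fun j => Complex.exp (x t j)) ∈ Tz Q := (hcl t ht).2.1
    have h1 := hC₂ (T k / (2 * Real.pi)) (fun j : Fin m => ((l j.succ : ℤ) : ℝ))
      (fun j : Fin m => x t j.succ) (fun j => Complex.exp (x t j)) hT1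
      (fun j => by
        have h2 := (hl1 j).trans hBM
        have h3 : T k / (2 * Real.pi) * α j = T k * α j / (2 * Real.pi) := by ring
        rw [h3]
        exact h2)
      (fun j => (hB₁ t ht j.succ).trans hBB) (fun j => (hB₂ t ht j).trans hBB) (hD _ hw)
    intro h0
    rw [h0, zero_div, zero_sub, norm_neg] at h1
    have h2 := (hcl t ht).2.2
    rw [hφ] at h2
    exact absurd (h2.trans h1) (not_le.2 hTC₂)

end Pool.Agent.EXM
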