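import Pool.Agent.EXM.Seq
import Pool.Agent.EXM.Disc
import Pool.Agent.EXM.NearM
import Pool.Agent.EXM.NearG
import Pool.Agent.EXP.MainC

/-!
# EXM / Core: the core of the product theorem, any multiplicity
-/

set_option autoImplicit false

namespace Pool.Agent.EXM

open MvPolynomial Filter Topology Pool.Agent.EXP

theorem degreeOf_eq_zero_of_pderiv {m : ℕ} (G : MvPolynomial (Fin (m + 1)) ℂ)
    (h0 : pderiv 0 G = 0) : degreeOf 0 G = 0 := by
  rw [← Nat.le_zero, degreeOf_le_iff]
  intro μ hμ
  by_contra hcon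
  have h1 : 1 ≤ μ 0 := by omega
  have h2 : coeff (μ - Finsupp.single 0 1) (pderiv 0 G) = 0 := by rw [h0, coeff_zero]
  rw [coeff_pderiv] at h2
  have h3 : μ - Finsupp.single 0 1 + Finsupp.single 0 1 = μ := by
    ext j
    simp only [Finsupp.add_apply, Finsupp.tsub_apply]
    by_cases hj : j = 0
    · subst hj
      simp
      omega
    · simp [Ne.symm hj]
  rw [h3] at h2
  rcases mul_eq_zero.1 h2 with h4 | h4
  · exact (mem_support_iff.1 hμ) h4
  · exact Nat.cast_add_one_ne_zero _ h4

/-- The core: any multiplicity of the factor `G`. -/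
theorem coreM {m : ℕ} (F G : MvPolynomial (Fin (m + 1)) ℂ) (hF : Irreducible F)
    (hG : Irreducible G) (hGL : G ∣ homogeneousComponent F.totalDegree F)
    (hG0 : 0 < degreeOf 0 G)
    (hrat : ∀ μ : Fin (m + 1) → ℤ, μ ≠ 0 → ∃ w : Fin (m + 1) → ℤ,
      ∑ j, μ j * w j = 0 ∧ dirD w G ≠ 0)
    (Q : Ideal (MvPolynomial (Fin (m + 1)) ℂ)) (hQ : Q.IsPrime)
    (hY : ∀ j, (X j : MvPolynomial (Fin (m + 1)) ℂ) ∉ Q)
    (hdim : Algebra.trdeg ℂ (MvPolynomial (Fin (m + 1)) ℂ ⧸ Q) = 1)
    (v : Fin (m + 1) → ℤ) (hvP : Punct Q v) (hvG : dirD v G ≠ 0)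
    (h : MvPolynomial (Fin (m + 1) ⊕ Fin (m + 1)) ℂ)
    (hh : ∃ z w : Fin (m + 1) → ℂ, eval z F = 0 ∧ w ∈ Tz Q ∧ eval (Sum.elim z w) h ≠ 0) :
    ∃ z : Fin (m + 1) → ℂ, eval z F = 0 ∧ (fun j => Complex.exp (z j)) ∈ Tz Q ∧
      eval (Sum.elim z fun j => Complex.exp (z j)) h ≠ 0 := by
  classical
  obtain ⟨z₁, w₁, hz₁, hw₁, hh₁⟩ := hh
  have hLne := top_ne_zero F hF.ne_zero
  obtain ⟨r, hGh⟩ : ∃ r, G.IsHomogeneous r := by
    obtain ⟨S, hS⟩ := hGL
    exact homog_of_mul _ G S hLne (homogeneousComponent_isHomogeneous _ F) hS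
  obtain ⟨e, R, he, hL, hGR⟩ : ∃ (e : ℕ) (R : MvPolynomial (Fin (m + 1)) ℂ), 1 ≤ e ∧
      homogeneousComponent F.totalDegree F = G ^ e * R ∧ ¬ G ∣ R := by
    have hfm : FiniteMultiplicity G (homogeneousComponent F.totalDegree F) :=
      FiniteMultiplicity.of_not_isUnit hG.not_isUnit hLne
    obtain ⟨R, h1, h2⟩ := hfm.exists_eq_pow_mul_and_not_dvd
    refine ⟨_, R, ?_, h1, h2⟩
    by_contra h3
    have h4 : multiplicity G (homogeneousComponent F.totalDegree F) = 0 := by omega
    rw [h4, pow_zero, one_mul] at h1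
    exact h2 (h1 ▸ hGL)
  have hF0 : 0 < degreeOf 0 F := by
    obtain ⟨S, hS⟩ := hGL
    exact degreeOf_pos_of_top F G S hF.ne_zero hG0 hS
  obtain ⟨Δ, hΔ0, hΔ⟩ := exists_disc F hF hF0
  obtain ⟨E, hE₁, hE⟩ := elim F hF hF0 h w₁ (by
    rintro ⟨q, hq⟩
    apply hh₁
    have h1 : eval z₁ (aeval (Sum.elim X fun j => C (w₁ j)) h) = eval (Sum.elim z₁ w₁) h := by
      have h2 : ∀ P : MvPolynomial (Fin (m + 1) ⊕ Fin (m + 1)) ℂ,
          eval z₁ (aeval (Sum.elim X fun j => C (w₁ j)) P) = eval (Sum.elim z₁ w₁) P := by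
        intro P
        induction P using MvPolynomial.induction_on with
        | C a => simp
        | add p q hp hq => rw [map_add, map_add, hp, hq, map_add]
        | mul_X p i hp =>
          rw [map_mul, map_mul, hp, map_mul, aeval_X, eval_X]
          rcases i with i | i <;> simp
      exact h2 h
    rw [← h1, hq, map_mul, hz₁, zero_mul])
  have hfin : ∀ z : Fin (m + 1) → ℂ, eval z F = 0 → (fun j => Complex.exp (z j)) ∈ Tz Q →
      eval (fun j => z j.succ) (map (eval fun j => Complex.exp (z j)) E) ≠ 0 →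
      ∃ z : Fin (m + 1) → ℂ, eval z F = 0 ∧ (fun j => Complex.exp (z j)) ∈ Tz Q ∧
      eval (Sum.elim z fun j => Complex.exp (z j)) h ≠ 0 :=
    fun z h1 h2 h3 => ⟨z, h1, h2, fun h4 => h3 (hE z _ h1 h4)⟩
  obtain ⟨u, hu, hu0, hW⟩ := hvP
  have hv0 : v ≠ 0 := by
    rintro rfl
    apply hvG
    unfold dirD
    simp
  obtain ⟨μ₁, hμ₁⟩ : ∃ μ, eval w₁ (coeff μ E) ≠ 0 := by
    by_contra hcon
    push Not at hcon
    apply hE₁
    ext μ
    rw [coeff_map, hcon, coeff_zero]
  obtain ⟨N, a, s, hs0, ha, has, haE⟩ := exists_order v u hu hu0 E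
    ⟨μ₁, puncture_dense Q hQ hdim v hv0 u hu hu0 hW _ (fun hmem => hμ₁ (hw₁.1 _ hmem))⟩
  obtain ⟨D, w₂, hw₂, hD, hD₂⟩ := exists_max_degree (Tz Q) E w₁ hw₁ hE₁
  set 𝒮 : Set (MvPolynomial (Fin (m + 1)) ℂ) := {S | ¬ G ∣ S ∧ (S = R ∨
    S = map (starRingEnd ℂ) G ∨ S = rename Fin.succ (homogeneousComponent s.totalDegree s) ∨
    S = rename Fin.succ (homogeneousComponent D (map (eval w₂) E)) ∨
    S = rename Fin.succ (homogeneousComponent Δ.totalDegree Δ) ∨
    ∃ w : Fin (m + 1) → ℤ, S = dirD w G)} with h𝒮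
  have hcount : 𝒮.Countable := by
    refine Set.Countable.mono (s₂ := ({R, map (starRingEnd ℂ) G,
      rename Fin.succ (homogeneousComponent s.totalDegree s),
      rename Fin.succ (homogeneousComponent D (map (eval w₂) E)),
      rename Fin.succ (homogeneousComponent Δ.totalDegree Δ)} :
        Set (MvPolynomial (Fin (m + 1)) ℂ)) ∪ Set.range fun w : Fin (m + 1) → ℤ => dirD w G) ?_
      ((Set.toFinite _).countable.union (Set.countable_range _))
    rintro S ⟨-, h1 | h1 | h1 | h1 | h1 | ⟨w, h1⟩⟩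
    · exact Or.inl (by simp [h1])
    · exact Or.inl (by simp [h1])
    · exact Or.inl (by simp [h1])
    · exact Or.inl (by simp [h1])
    · exact Or.inl (by simp [h1])
    · exact Or.inr ⟨w, h1.symm⟩
  haveI : Countable 𝒮 := hcount.to_subtype
  obtain ⟨y, ρ, hGρ, hσ, hS⟩ := gen G hG v (line_of_dirD v G hvG) (fun i : 𝒮 => i.1) (fun i => i.2.1)
  have hS' : ∀ S, ¬ G ∣ S → (S = R ∨
      S = map (starRingEnd ℂ) G ∨ S = rename Fin.succ (homogeneousComponent s.totalDegree s) ∨
      S = rename Fin.succ (homogeneousComponent D (map (eval w₂) E)) ∨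
      S = rename Fin.succ (homogeneousComponent Δ.totalDegree Δ) ∨
      ∃ w : Fin (m + 1) → ℤ, S = dirD w G) → eval (fun j => (y j : ℂ) + ρ * v j) S ≠ 0 :=
    fun S h1 h2 => hS ⟨S, h1, h2⟩
  have hRρ := hS' R hGR (Or.inl rfl)
  have hsρ := hS' _ (not_dvd_rename G hG0 _ (top_ne_zero s hs0)) (Or.inr (Or.inr (Or.inl rfl)))
  have hDρ := hS' _ (not_dvd_rename G hG0 _ hD₂) (Or.inr (Or.inr (Or.inr (Or.inl rfl))))
  have hΔρ := hS' _ (not_dvd_rename G hG0 _ (top_ne_zero Δ hΔ0))
    (Or.inr (Or.inr (Or.inr (Or.inr (Or.inl rfl)))))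
  rw [eval_rename] at hsρ hDρ hΔρ
  by_cases hρ : ρ.im = 0
  · -- the real case
    set α : Fin (m + 1) → ℝ := fun j => y j + ρ.re * v j with hα
    have hρ' : (ρ.re : ℂ) = ρ := Complex.ext (by simp) (by simp [hρ])
    have hα' : (fun j => (α j : ℂ)) = fun j => (y j : ℂ) + ρ * v j := by
      funext j
      rw [hα]
      push_cast
      rw [hρ']
    rw [← hα'] at hGρ hRρ hsρ hDρ hΔρ
    obtain ⟨ω, hω, hωc⟩ := real_of_generic G hG α hGρ (by
      intro h0
      by_contra h1
      have h2 := hS' _ h1 (Or.inr (Or.inl rfl))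
      rw [← hα'] at h2
      exact h2 h0)
    choose c hc using hωc
    have hcv : ∀ w : Fin (m + 1) → ℤ, dirD w G ≠ 0 → ∑ j, c j * w j ≠ 0 := by
      intro w hw h0
      have h1 := hS' (dirD w G) (not_dvd_dirD' w G hw)
        (Or.inr (Or.inr (Or.inr (Or.inr (Or.inr ⟨w, rfl⟩)))))
      rw [← hα'] at h1
      apply h1
      have h2 : ω * eval (fun j => (α j : ℂ)) (dirD w G) = ((∑ j, c j * w j : ℝ) : ℂ) := by
        unfold dirD
        push_cast
        rw [map_sum, Finset.mul_sum]
        refine Finset.sum_congr rfl fun j _ => ?_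
        rw [← hc j, pderiv_C_mul, map_mul, map_mul, eval_C, eval_C]
        ring
      rw [h0, Complex.ofReal_zero] at h2
      exact (mul_eq_zero.1 h2).resolve_left hω
    -- the gradient
    have hωc : ∀ j, ω * eval (fun j => (α j : ℂ)) (pderiv j G) = c j := by
      intro j
      rw [← hc j, pderiv_C_mul, map_mul, eval_C]
    have he0 : dirD (Pi.single 0 1 : Fin (m + 1) → ℤ) G ≠ 0 := by
      intro h0
      have h1 : pderiv 0 G = 0 := by
        rw [← h0]
        unfold dirD
        rw [Finset.sum_eq_single 0]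
        · simp
        · intro b _ hb
          simp [hb]
        · simp
      have h2 : degreeOf 0 G = 0 := degreeOf_eq_zero_of_pderiv G h1
      omega
    have hc0 : c 0 ≠ 0 := by
      have h1 := hcv _ he0
      rw [Finset.sum_eq_single 0] at h1
      · simpa using h1
      · intro b _ hb
        simp [hb]
      · simp
    set g : Fin m → ℝ := fun j => -(c j.succ / c 0) with hgdef
    have hlam : ∀ w : Fin (m + 1) → ℤ, (w 0 : ℝ) - ∑ j : Fin m, g j * w j.succ =
        (∑ j, c j * w j) / c 0 := by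
      intro w
      rw [Fin.sum_univ_succ, eq_div_iff hc0, sub_mul, Finset.sum_mul, sub_eq_add_neg,
        ← Finset.sum_neg_distrib]
      congr 1
      · ring
      · refine Finset.sum_congr rfl fun j _ => ?_
        rw [hgdef]
        field_simp
    have hlamC : ∀ X : Fin (m + 1) → ℂ, ∑ j, ((Fin.cons 1 (fun j => -g j) : Fin (m + 1) → ℝ) j : ℂ) * X j =
        X 0 - ∑ j : Fin m, (g j : ℂ) * X j.succ := by
      intro X
      rw [Fin.sum_univ_succ]
      simp only [Fin.cons_zero, Fin.cons_succ]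
      push_cast
      rw [one_mul, sub_eq_add_neg, ← Finset.sum_neg_distrib]
      congr 1
      refine Finset.sum_congr rfl fun j _ => ?_
      ring
    have hlamR : ∀ w : Fin (m + 1) → ℤ, ∑ j, (Fin.cons 1 (fun j => -g j) : Fin (m + 1) → ℝ) j * w j =
        (w 0 : ℝ) - ∑ j : Fin m, g j * w j.succ := by
      intro w
      rw [Fin.sum_univ_succ]
      simp only [Fin.cons_zero, Fin.cons_succ]
      rw [one_mul, sub_eq_add_neg, ← Finset.sum_neg_distrib]
      congr 1
      refine Finset.sum_congr rfl fun j _ => ?_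
      ring
    have hrpt : rpt (α 0) (fun j => α j.succ) = fun j => (α j : ℂ) := by
      funext j
      refine Fin.cases ?_ (fun i => ?_) j
      · rfl
      · rfl
    have hg0 : eval (fun j => (α j : ℂ)) (pderiv 0 G) ≠ 0 := by
      intro h0
      have h1 := hωc 0
      rw [h0, mul_zero] at h1
      exact hc0 (by exact_mod_cast h1.symm)
    have hL1 : ∃ y : ℂ, eval (Fin.cons y (fun j : Fin m => (α j.succ : ℂ)) : Fin (m + 1) → ℂ)
        (homogeneousComponent F.totalDegree F) ≠ 0 := by
      have h1 : ∃ σ : ℂ, eval (fun j => (α j : ℂ) + σ * (Pi.single 0 1 : Fin (m + 1) → ℤ) j)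
          (G ^ e) ≠ 0 := by
        by_contra hcon
        push Not at hcon
        have h2 : ∀ σ : ℂ, eval (fun j => (α j : ℂ) + σ * (Pi.single 0 1 : Fin (m + 1) → ℤ) j)
            G = 0 := by
          intro σ
          have h3 := hcon σ
          rw [map_pow] at h3
          exact pow_eq_zero_iff (by omega) |>.1 h3
        have h3 := hasDerivAt_line (Pi.single 0 1 : Fin (m + 1) → ℤ) (fun j => (α j : ℂ)) G 0
        have h4 : (fun σ : ℂ => eval (fun j => (α j : ℂ) +
            σ * (Pi.single 0 1 : Fin (m + 1) → ℤ) j) G) = fun _ => 0 := _root_.funext h2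
        rw [h4] at h3
        have h5 := h3.unique (hasDerivAt_const (0 : ℂ) (0 : ℂ))
        have h6 : (fun j => (α j : ℂ) + 0 * ((Pi.single 0 1 : Fin (m + 1) → ℤ) j : ℂ)) =
            fun j => (α j : ℂ) := by
          funext j
          ring
        rw [h6] at h5
        apply hg0
        rw [← h5]
        unfold dirD
        rw [Finset.sum_eq_single 0]
        · simp
        · intro b _ hb
          simp [hb]
        · simp
      obtain ⟨σ, hσ'⟩ := exists_ne_line (fun j => (α j : ℂ)) (Pi.single 0 1) (G ^ e) R h1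
        ⟨0, by simpa using hRρ⟩
      refine ⟨α 0 + σ, ?_⟩
      rw [hL]
      convert hσ' using 3
      funext j
      refine Fin.cases ?_ (fun i => ?_) j
      · simp
      · simp
    have hcv' : (v 0 : ℝ) - ∑ j : Fin m, g j * v j.succ ≠ 0 := by
      rw [hlam]
      exact div_ne_zero (hcv v hvG) hc0
    obtain ⟨T, Xs, hB, hcase⟩ := dichotomy F G R hGh hL he (α 0) (fun j => α j.succ) g
      (by rw [hrpt]; exact hGρ) (by rw [hrpt]; exact hg0)
      (fun j => by
        rw [hrpt]
        have h1 := hωc j.succ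
        have h2 := hωc 0
        have h3 : ω * eval (fun j => (α j : ℂ)) (pderiv j.succ G) =
            ω * (-(g j : ℂ) * eval (fun j => (α j : ℂ)) (pderiv 0 G)) := by
          have h4 : ω * (-(g j : ℂ) * eval (fun j => (α j : ℂ)) (pderiv 0 G)) =
              -(g j : ℂ) * (ω * eval (fun j => (α j : ℂ)) (pderiv 0 G)) := by ring
          rw [h4, h1, h2, hgdef]
          have h5 : (c 0 : ℂ) ≠ 0 := by exact_mod_cast hc0
          push_cast
          field_simp
        exact mul_left_cancel₀ hω h3)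
      (by rw [hrpt]; exact hRρ) Δ hΔ hΔρ hL1 (1 / ((v 0 : ℝ) - ∑ j : Fin m, g j * v j.succ))
      (one_div_ne_zero hcv') (2 * (E.totalDegree + 1))
    rcases hcase with hgr | ⟨κ, hκ⟩
    · obtain ⟨z, h1, h2, h3⟩ := nearG Q F (α 0) (fun j => α j.succ) g T Xs hB v u hu hu0 hW hcv'
        E N a s ha has haE hsρ (hgr.mono fun k hk => by
          rw [one_div, inv_mul_eq_div] at hk
          exact hk)
      exact hfin z h1 h2 h3
    · obtain ⟨x, hx, hxW, hx0, hx1⟩ := amoeba Q hQ hY hdim (Fin.cons 1 fun j => -g j) v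
        ⟨u, hu, hu0, hW⟩ (by rw [hlamR]; exact hcv') κ
      have hgQ : eval (fun j : Fin m => C (α j.succ : ℂ)) (homogeneousComponent D E) ∉ Q := by
        intro hmem
        apply hDρ
        have h1 := hw₂.1 _ hmem
        rw [← eval_top] at h1
        exact h1
      obtain ⟨x', hx', hxA', hx0', hx1', hg'⟩ := recenter (Fin.cons 1 fun j => -g j) x hx
        {X | (fun j => Complex.exp (X j)) ∈ Tz Q} hxW hx1
        (fun X => eval (fun j : Fin m => (α j.succ : ℂ))
          (homogeneousComponent D (map (eval fun j => Complex.exp (X j)) E)))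
        (by
          simp only [eval_top]
          have h1 : ∀ P : MvPolynomial (Fin (m + 1)) ℂ,
              AnalyticAt ℂ (fun t => eval (fun j => Complex.exp (x t j)) P) 0 := by
            intro P
            induction P using MvPolynomial.induction_on with
            | C a => simpa using analyticAt_const
            | add p q hp hq =>
              simp only [map_add]
              exact hp.add hq
            | mul_X p i hp =>
              simp only [map_mul, eval_X]
              exact hp.mul (hx i).cexp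
          exact h1 _)
        (by
          simp only [eval_top]
          exact exp_dense Q hQ hdim _ x hx hxW hx1 _ hgQ)
      obtain ⟨z, h1, h2, h3⟩ := nearM Q F (α 0) (fun j => α j.succ) g T Xs hB κ hκ
        (fun θ ε hε => by
          obtain ⟨l, hl⟩ := dens_of_irr (Fin.cons 1 (fun j => -g j) : Fin (m + 1) → ℝ) (by
              intro h0
              have := congrFun h0 0
              simp at this)
            (fun μ hμ => by
              obtain ⟨w, hw1, hw2⟩ := hrat μ hμ
              refine ⟨w, hw1, ?_⟩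
              rw [hlamR, hlam]
              exact div_ne_zero (hcv w hw2) hc0) θ ε hε
          rw [hlamR] at hl
          exact ⟨l, hl⟩)
        x' hx' hxA'
        (by rw [← hlamC, hx0', hx0])
        (by
          intro h0
          apply hx1'
          filter_upwards [h0] with t ht
          rw [hlamC, hlamC]
          exact ht) E D hD hg'
      exact hfin z h1 h2 h3
  · obtain ⟨z, h1, h2, h3⟩ := nearA Q F v u hu hu0 hW y ρ hρ
      (by rw [hL, map_mul, map_pow, hGρ, zero_pow (by omega), zero_mul])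
      (by
        rw [hL]
        refine exists_ne_line (fun j => (y j : ℂ)) v (G ^ e) R ?_ ⟨ρ, hRρ⟩
        obtain ⟨σ, hσ⟩ := hσ
        exact ⟨σ, by rw [map_pow]; exact pow_ne_zero _ hσ⟩)
      E N a s ha has haE hsρ
    exact hfin z h1 h2 h3

end Pool.Agent.EXM
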