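import Mathlib

/-!
# EXM / Defs: branches of a hypersurface at infinity over `i ℝ^m`
-/

set_option autoImplicit false

namespace Pool.Agent.EXM

open MvPolynomial Filter Topology

/-- The point `i T α`. -/
noncomputable def ipt {m : ℕ} (T : ℝ) (α : Fin m → ℝ) : Fin m → ℂ :=
  fun j => Complex.I * T * α j

/-- The complex point `(α₀, α)`. -/
noncomputable def rpt {m : ℕ} (α₀ : ℝ) (α : Fin m → ℝ) : Fin (m + 1) → ℂ :=
  Fin.cons (α₀ : ℂ) fun j => (α j : ℂ)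

/-- `F(·, x)` -/
noncomputable def fp {m : ℕ} (F : MvPolynomial (Fin (m + 1)) ℂ) (x : Fin m → ℂ) : Polynomial ℂ :=
  (finSuccEquiv ℂ m F).map (eval x)

theorem fp_eval {m : ℕ} (F : MvPolynomial (Fin (m + 1)) ℂ) (x : Fin m → ℂ) (X : ℂ) :
    (fp F x).eval X = eval (Fin.cons X x : Fin (m + 1) → ℂ) F := by
  rw [fp, eval_eq_eval_mv_eval']

/-- A branch of `F = 0` at infinity in the direction `i (α₀, α)`: points `(X k, i T_k α)`, and around them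
`x_0` is a function of `x'` which is nearly affine with gradient `h`. -/
structure Branch {m : ℕ} (F : MvPolynomial (Fin (m + 1)) ℂ) (α₀ : ℝ) (α h : Fin m → ℝ)
    (T : ℕ → ℝ) (X : ℕ → ℂ) : Prop where
  tend : Tendsto T atTop atTop
  zero : ∀ k, eval (Fin.cons (X k) (ipt (T k) α) : Fin (m + 1) → ℂ) F = 0
  near : Tendsto (fun k => X k / T k) atTop (𝓝 (Complex.I * α₀))
  sheet : ∀ ε : ℝ, 0 < ε → ∃ η : ℝ, 0 < η ∧ ∀ᶠ k in atTop, ∃ X₀ : (Fin m → ℂ) → ℂ,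
    DifferentiableOn ℂ X₀ (Metric.ball (ipt (T k) α) (η * T k)) ∧ X₀ (ipt (T k) α) = X k ∧
    ∀ x ∈ Metric.ball (ipt (T k) α) (η * T k), eval (Fin.cons (X₀ x) x : Fin (m + 1) → ℂ) F = 0 ∧
      ‖X₀ x - X k - ∑ j, (h j : ℂ) * (x j - ipt (T k) α j)‖ ≤ ε * ‖x - ipt (T k) α‖

end Pool.Agent.EXM
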