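import Pool.Agent.EXM.Core
import Pool.Agent.EXP.Perm

/-!
# EXM / Perm: permutation of the coordinates, final form
-/

set_option autoImplicit false

namespace Pool.Agent.EXM

open MvPolynomial Filter Topology Pool.Agent.EXP

/-- `coreM` with any coordinate. -/
theorem coreM' {m : ℕ} (F G : MvPolynomial (Fin (m + 1)) ℂ) (hF : Irreducible F)
    (hG : Irreducible G) (hGL : G ∣ homogeneousComponent F.totalDegree F)
    (hrat : ∀ μ : Fin (m + 1) → ℤ, μ ≠ 0 → ∃ w : Fin (m + 1) → ℤ,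
      ∑ j, μ j * w j = 0 ∧ dirD w G ≠ 0)
    (Q : Ideal (MvPolynomial (Fin (m + 1)) ℂ)) (hQ : Q.IsPrime)
    (hY : ∀ j, (X j : MvPolynomial (Fin (m + 1)) ℂ) ∉ Q)
    (hdim : Algebra.trdeg ℂ (MvPolynomial (Fin (m + 1)) ℂ ⧸ Q) = 1)
    (v : Fin (m + 1) → ℤ) (hvP : Punct Q v) (hvG : dirD v G ≠ 0)
    (h : MvPolynomial (Fin (m + 1) ⊕ Fin (m + 1)) ℂ)
    (hh : ∃ z w : Fin (m + 1) → ℂ, eval z F = 0 ∧ w ∈ Tz Q ∧ eval (Sum.elim z w) h ≠ 0) :
    ∃ z : Fin (m + 1) → ℂ, eval z F = 0 ∧ (fun j => Complex.exp (z j)) ∈ Tz Q ∧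
      eval (Sum.elim z fun j => Complex.exp (z j)) h ≠ 0 := by
  classical
  -- a coordinate which occurs in `G`
  obtain ⟨i, hi⟩ : ∃ i, 0 < degreeOf i G := by
    by_contra hcon
    push Not at hcon
    apply hvG
    unfold dirD
    refine Finset.sum_eq_zero fun j _ => ?_
    rw [pderiv_eq_zero_of_notMem_vars, mul_zero]
    intro hj
    have h2 := hcon j
    rw [vars_def, Multiset.mem_toFinset, ← Multiset.count_pos] at hj
    rw [degreeOf_def] at h2
    omega
  set σ : Equiv.Perm (Fin (m + 1)) := Equiv.swap 0 i with hσ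
  have hσi : σ i = 0 := Equiv.swap_apply_right 0 i
  have hFt : (rename σ F).totalDegree = F.totalDegree := totalDegree_renameEquiv σ F
  have hcomp : ∀ v : Fin (m + 1) → ℤ, (v ∘ σ.symm) ∘ σ = v := fun v => by
    rw [Function.comp_assoc, Equiv.symm_comp_self, Function.comp_id]
  obtain ⟨z, h1, h2, h3⟩ := coreM (rename σ F) (rename σ G)
    ((MulEquiv.irreducible_iff (renameEquiv ℂ σ)).2 hF)
    ((MulEquiv.irreducible_iff (renameEquiv ℂ σ)).2 hG)
    (by
      rw [hFt, ← rename_homogeneousComponent]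
      exact map_dvd (rename σ : MvPolynomial (Fin (m + 1)) ℂ →ₐ[ℂ] _) hGL)
    (by
      have h4 := degreeOf_rename_of_injective (p := G) σ.injective i
      rw [hσi] at h4
      rw [h4]
      exact hi)
    (fun μ hμ => by
      obtain ⟨w, hw1, hw2⟩ := hrat (μ ∘ σ) (by
        intro h0
        apply hμ
        funext j
        have := congrFun h0 (σ.symm j)
        simpa using this)
      refine ⟨w ∘ σ.symm, ?_, ?_⟩
      · rw [← hw1, ← Equiv.sum_comp σ]
        refine Finset.sum_congr rfl fun j _ => ?_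
        simp
      · rw [dirD_rename, hcomp]
        intro h0
        exact hw2 (rename_injective _ σ.injective (by rw [h0, map_zero])))
    (permI σ Q) (Ideal.comap_isPrime _ _)
    (fun j => by
      rw [mem_permI, rename_X]
      exact hY _)
    (by
      rw [← hdim]
      exact ((Ideal.quotientEquivAlg Q (permI σ Q) (renameEquiv ℂ σ)
        (permI_eq_map σ Q)).trdeg_eq).symm)
    (v ∘ σ.symm)
    (by
      obtain ⟨u, hu, hu0, hW⟩ := hvP
      refine ⟨fun j => u (σ.symm j), fun j => hu _, fun j => hu0 _, hW.mono fun t ht => ?_⟩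
      rw [mem_Tz_permI]
      convert ht using 1
      funext j
      simp)
    (by
      rw [dirD_rename, hcomp]
      intro h0
      exact hvG (rename_injective _ σ.injective (by rw [h0, map_zero])))
    (rename (Sum.map σ σ) h)
    (by
      obtain ⟨z, w, h1, h2, h3⟩ := hh
      have h4 : Sum.elim (z ∘ σ.symm) (w ∘ σ.symm) ∘ Sum.map σ σ = Sum.elim z w := by
        funext k
        rcases k with k | k <;> simp
      refine ⟨z ∘ σ.symm, w ∘ σ.symm, ?_, ?_, ?_⟩
      · rw [eval_rename, Function.comp_assoc, Equiv.symm_comp_self, Function.comp_id]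
        exact h1
      · rw [mem_Tz_permI, Function.comp_assoc, Equiv.symm_comp_self, Function.comp_id]
        exact h2
      · rw [eval_rename, h4]
        exact h3)
  refine ⟨z ∘ σ, ?_, ?_, ?_⟩
  · rw [← eval_rename]
    exact h1
  · rw [mem_Tz_permI] at h2
    exact h2
  · rw [eval_rename] at h3
    have h4 : (Sum.elim z fun j => Complex.exp (z j)) ∘ Sum.map σ σ =
        Sum.elim (z ∘ σ) fun j => Complex.exp ((z ∘ σ) j) := by
      funext k
      rcases k with k | k <;> simp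
    rw [h4] at h3
    exact h3

/-- THEOREM M. -/
theorem mainM {n : ℕ} (F G : MvPolynomial (Fin n) ℂ) (hF : Irreducible F)
    (hG : Irreducible G) (hGL : G ∣ homogeneousComponent F.totalDegree F)
    (hrat : ∀ (c : ℂ) (a : Fin n → ℤ), G ≠ C c * ∑ j, C (a j : ℂ) * X j)
    (Q : Ideal (MvPolynomial (Fin n) ℂ)) (hQ : Q.IsPrime)
    (hY : ∀ j, (X j : MvPolynomial (Fin n) ℂ) ∉ Q)
    (hdim : Algebra.trdeg ℂ (MvPolynomial (Fin n) ℂ ⧸ Q) = 1) (μ : Fin n → ℤ)
    (hμG : ∀ v : Fin n → ℤ, (∀ x : Fin n → ℂ, eval (fun j => x j + v j) G = eval x G) →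
      ∑ j, μ j * v j = 0)
    (hμW : ∀ c : ℂ, ∃ w ∈ Tz Q, ∏ j, w j ^ μ j ≠ c)
    (h : MvPolynomial (Fin n ⊕ Fin n) ℂ)
    (hh : ∃ z w : Fin n → ℂ, eval z F = 0 ∧ w ∈ Tz Q ∧ eval (Sum.elim z w) h ≠ 0) :
    ∃ z : Fin n → ℂ, eval z F = 0 ∧ (fun j => Complex.exp (z j)) ∈ Tz Q ∧
      eval (Sum.elim z fun j => Complex.exp (z j)) h ≠ 0 := by
  obtain ⟨m, rfl⟩ : ∃ m, n = m + 1 := by
    cases n with
    | zero =>
      exfalso
      obtain ⟨w, -, hw⟩ := hμW 1
      exact hw (by simp)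
    | succ m => exact ⟨m, rfl⟩
  obtain ⟨r, hr⟩ : ∃ r, G.IsHomogeneous r := by
    obtain ⟨S, hS⟩ := hGL
    exact homog_of_mul _ G S (top_ne_zero F hF.ne_zero)
      (homogeneousComponent_isHomogeneous _ F) hS
  obtain ⟨v, hvP, hv⟩ := punct Q hQ hY hdim μ hμW
  have hvG : dirD v G ≠ 0 := by
    have h1 : ¬ ∀ x : Fin (m + 1) → ℂ, eval (fun j => x j + v j) G = eval x G :=
      fun h2 => hv (hμG v h2)
    push Not at h1
    obtain ⟨x, hx⟩ := h1
    exact dirD_ne_zero v G ⟨x, 1, by simpa using hx⟩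
  exact coreM' F G hF hG hGL (exists_dir' G hG hr hrat) Q hQ hY hdim v hvP hvG h hh

end Pool.Agent.EXM
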