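import Pool.Agent.EXM.ShLoc
import Pool.Agent.EXG.SheetG

/-!
# EXM / Sh: holomorphic sheets near infinity with nearly constant gradient
-/

set_option autoImplicit false

namespace Pool.Agent.EXM.Sh18

open MvPolynomial Filter Topology

/-- zeros at infinity are near zeros of the leading form -/
theorem top_inf {n : ℕ} (F : MvPolynomial (Fin n) ℂ) (B : ℝ) (δ : ℝ) (hδ : 0 < δ) :
    ∀ᶠ T : ℝ in atTop, ∀ y : Fin n → ℂ, ‖y‖ ≤ B → eval (fun i => (T : ℂ) * y i) F = 0 →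
      ‖eval y (homogeneousComponent F.totalDegree F)‖ ≤ δ := by
  set D := F.totalDegree with hD
  -- bounds for the components
  have hbd : ∀ k : ℕ, ∃ C : ℝ, 0 ≤ C ∧ ∀ y : Fin n → ℂ, ‖y‖ ≤ B →
      ‖eval y (homogeneousComponent k F)‖ ≤ C := by
    intro k
    have h1 : IsCompact (Metric.closedBall (0 : Fin n → ℂ) B) := isCompact_closedBall _ _
    have h2 : ContinuousOn (fun y : Fin n → ℂ => eval y (homogeneousComponent k F))
        (Metric.closedBall 0 B) := (MvPolynomial.continuous_eval _).continuousOn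
    obtain ⟨C, hC⟩ := h1.exists_bound_of_continuousOn h2
    refine ⟨max C 0, le_max_right _ _, fun y hy => (hC y (by simpa using hy)).trans (le_max_left _ _)⟩
  choose C hC0 hC using hbd
  set S := ∑ k ∈ Finset.range D, C k with hS
  have hS0 : 0 ≤ S := Finset.sum_nonneg fun k _ => hC0 k
  filter_upwards [eventually_ge_atTop (1 : ℝ), eventually_ge_atTop (S / δ)] with T hT1 hT2 y hy h0
  have hT0 : (0 : ℝ) < T := by linarith
  have hTC : (T : ℂ) ≠ 0 := by exact_mod_cast hT0.ne'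
  -- expand
  have h1 : eval (fun i => (T : ℂ) * y i) F =
      ∑ k ∈ Finset.range (D + 1), (T : ℂ) ^ k * eval y (homogeneousComponent k F) := by
    conv_lhs => rw [← sum_homogeneousComponent F]
    rw [map_sum]
    refine Finset.sum_congr rfl fun k _ => ?_
    exact eval_smul_hom (homogeneousComponent_isHomogeneous k F) _ _
  rw [h1, Finset.sum_range_succ] at h0
  have h2 : (T : ℂ) ^ D * eval y (homogeneousComponent D F) =
      -∑ k ∈ Finset.range D, (T : ℂ) ^ k * eval y (homogeneousComponent k F) := by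
    linear_combination h0
  have h3 : T ^ D * ‖eval y (homogeneousComponent D F)‖ ≤ T ^ D * (S / T) := by
    have h4 : ‖(T : ℂ) ^ D * eval y (homogeneousComponent D F)‖ =
        T ^ D * ‖eval y (homogeneousComponent D F)‖ := by
      rw [norm_mul, norm_pow, Complex.norm_real, Real.norm_of_nonneg hT0.le]
    rw [← h4, h2, norm_neg]
    refine (norm_sum_le _ _).trans ?_
    rw [hS, Finset.sum_div, Finset.mul_sum]
    refine Finset.sum_le_sum fun k hk => ?_
    rw [norm_mul, norm_pow, Complex.norm_real, Real.norm_of_nonneg hT0.le]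
    have h5 : T ^ k * T ≤ T ^ D := by
      rw [← pow_succ]
      exact pow_le_pow_right₀ hT1 (Finset.mem_range.1 hk)
    calc T ^ k * ‖eval y (homogeneousComponent k F)‖ ≤ T ^ k * C k :=
          mul_le_mul_of_nonneg_left (hC k y hy) (by positivity)
      _ = (T ^ k * T) * (C k / T) := by field_simp
      _ ≤ T ^ D * (C k / T) := mul_le_mul_of_nonneg_right h5 (div_nonneg (hC0 k) hT0.le)
  have h4 := le_of_mul_le_mul_left h3 (by positivity)
  refine h4.trans ?_
  rw [div_le_iff₀ hT0]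
  rw [div_le_iff₀ hδ] at hT2
  linarith

theorem ipt_smul {m : ℕ} (T : ℝ) (α : Fin m → ℝ) : ipt T α = (T : ℂ) • ipt 1 α := by
  funext j
  simp only [ipt, Pi.smul_apply, smul_eq_mul, Complex.ofReal_one]
  ring

/-- no zeros of `Δ` near `i T α` -/
theorem delta_inf {m : ℕ} (Δ : MvPolynomial (Fin m) ℂ) (α : Fin m → ℝ)
    (hΔα : eval (fun j => (α j : ℂ)) (homogeneousComponent Δ.totalDegree Δ) ≠ 0) :
    ∃ η : ℝ, 0 < η ∧ ∀ᶠ T : ℝ in atTop, ∀ x ∈ Metric.ball (ipt T α) (η * T), eval x Δ ≠ 0 := by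
  set L := homogeneousComponent Δ.totalDegree Δ with hL
  have h1 : eval (ipt 1 α) L ≠ 0 := by
    have h2 : ipt 1 α = fun j => Complex.I * (α j : ℂ) := by
      funext j
      simp [ipt]
    rw [h2, eval_smul_hom (homogeneousComponent_isHomogeneous _ _)]
    exact mul_ne_zero (pow_ne_zero _ Complex.I_ne_zero) hΔα
  have h2 : ∀ᶠ y in 𝓝 (ipt 1 α), ‖eval (ipt 1 α) L‖ / 2 < ‖eval y L‖ := by
    have h3 : ContinuousAt (fun y : Fin m → ℂ => ‖eval y L‖) (ipt 1 α) :=
      (MvPolynomial.continuous_eval _).norm.continuousAt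
    exact h3.eventually_const_lt (by
      have := norm_pos_iff.2 h1
      linarith)
  obtain ⟨η, hη, hb⟩ := Metric.eventually_nhds_iff_ball.1 h2
  refine ⟨η, hη, ?_⟩
  have h3 := top_inf Δ (‖ipt 1 α‖ + η) (‖eval (ipt 1 α) L‖ / 2) (by
    have := norm_pos_iff.2 h1
    linarith)
  filter_upwards [h3, eventually_gt_atTop (0 : ℝ)] with T hT hT0 x hx h0
  have hTC : (T : ℂ) ≠ 0 := by exact_mod_cast hT0.ne'
  set y : Fin m → ℂ := (T : ℂ)⁻¹ • x with hy
  have hxy : x = fun i => (T : ℂ) * y i := by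
    funext i
    simp only [hy, Pi.smul_apply, smul_eq_mul]
    field_simp
  have hyb : y ∈ Metric.ball (ipt 1 α) η := by
    rw [Metric.mem_ball, dist_eq_norm] at hx ⊢
    have h4 : y - ipt 1 α = (T : ℂ)⁻¹ • (x - ipt T α) := by
      rw [ipt_smul T α, smul_sub, smul_smul, inv_mul_cancel₀ hTC, one_smul]
    rw [h4, norm_smul, norm_inv, Complex.norm_real, Real.norm_of_nonneg hT0.le]
    rw [inv_mul_lt_iff₀ hT0]
    linarith
  have h5 := hT y (by
    have h6 : ‖y - ipt 1 α‖ < η := by rwa [Metric.mem_ball, dist_eq_norm] at hyb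
    have h7 := norm_sub_norm_le y (ipt 1 α)
    linarith) (by rw [← hxy]; exact h0)
  exact absurd (hb y hyb) (not_lt.2 h5)

/-- the sheet over a ball without zeros of `Δ` -/
theorem sheet_ball {m : ℕ} (F : MvPolynomial (Fin (m + 1)) ℂ) (Δ : MvPolynomial (Fin m) ℂ)
    (hΔ : ∀ x : Fin m → ℂ, eval x Δ ≠ 0 →
      (fp F x).natDegree = degreeOf 0 F ∧ (fp F x).Separable)
    (c : Fin m → ℂ) (s : ℝ) (hs : 0 < s) (hb : ∀ x ∈ Metric.ball c s, eval x Δ ≠ 0) (X : ℂ)
    (hX : eval (Fin.cons X c : Fin (m + 1) → ℂ) F = 0) :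
    ∃ X₀ : (Fin m → ℂ) → ℂ, DifferentiableOn ℂ X₀ (Metric.ball c s) ∧ X₀ c = X ∧
      ∀ x ∈ Metric.ball c s, eval (Fin.cons (X₀ x) x : Fin (m + 1) → ℂ) F = 0 := by
  set d := degreeOf 0 F with hd
  have hco : ∀ k (x : Fin m → ℂ), (fp F x).coeff k = eval x ((finSuccEquiv ℂ m F).coeff k) := by
    intro k x
    rw [fp, Polynomial.coeff_map]
  have hne : ∀ x ∈ Metric.ball c s, (fp F x).coeff d ≠ 0 := by
    intro x hx
    obtain ⟨h1, h2⟩ := hΔ x (hb x hx)
    rw [← h1, Polynomial.coeff_natDegree]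
    exact Polynomial.leadingCoeff_ne_zero.2 h2.ne_zero
  have hM : ∀ q ∈ Metric.ball c s,
      (Polynomial.C ((fp F q).coeff d)⁻¹ * fp F q).Monic ∧
      (Polynomial.C ((fp F q).coeff d)⁻¹ * fp F q).natDegree = d ∧
      (Polynomial.C ((fp F q).coeff d)⁻¹ * fp F q).Separable := by
    intro q hq
    obtain ⟨h1, h2⟩ := hΔ q (hb q hq)
    have h4 : (fp F q).leadingCoeff = (fp F q).coeff d := by
      rw [← h1, Polynomial.coeff_natDegree]
    have h5 := inv_ne_zero (hne q hq)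
    refine ⟨?_, ?_, ?_⟩
    · exact Polynomial.monic_C_mul_of_mul_leadingCoeff_eq_one (by
        rw [h4]
        exact inv_mul_cancel₀ (hne q hq))
    · rw [Polynomial.natDegree_C_mul h5, h1]
    · exact (Polynomial.Separable.unit_mul (Polynomial.isUnit_C.2 (isUnit_iff_ne_zero.2 h5)) h2)
  have hcf : ∀ k, ∀ q ∈ Metric.ball c s, ContDiffAt ℂ 1
      (fun q => (Polynomial.C ((fp F q).coeff d)⁻¹ * fp F q).coeff k) q := by
    intro k q hq
    have h5 : (fun q => (Polynomial.C ((fp F q).coeff d)⁻¹ * fp F q).coeff k) =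
        fun q => (eval q ((finSuccEquiv ℂ m F).coeff d))⁻¹ * eval q ((finSuccEquiv ℂ m F).coeff k) := by
      funext x
      rw [Polynomial.coeff_C_mul, hco, hco]
    rw [h5]
    have h6 : ∀ P : MvPolynomial (Fin m) ℂ, ContDiffAt ℂ 1 (fun q : Fin m → ℂ => eval q P) q := by
      intro P
      have h7 := AnalyticAt.aeval_mvPolynomial (𝕜 := ℂ) (B := ℂ)
        (f := fun u : Fin m → ℂ => u) (z := q) (fun i =>
          (ContinuousLinearMap.proj (R := ℂ) (φ := fun _ : Fin m => ℂ) i).analyticAt q) P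
      have h8 : AnalyticAt ℂ (fun q : Fin m → ℂ => eval q P) q := by
        simpa [MvPolynomial.aeval_eq_eval] using h7
      exact h8.contDiffAt
    refine ContDiffAt.mul (ContDiffAt.inv (h6 _) ?_) (h6 _)
    rw [← hco]
    exact hne q hq
  obtain ⟨θ, h1, h2, h3⟩ := EXG.sheet_gen (Metric.ball c s) Metric.isOpen_ball
    (convex_ball c s) d (fun x => Polynomial.C ((fp F x).coeff d)⁻¹ * fp F x) 1 one_ne_zero
    hM hcf c (Metric.mem_ball_self hs) X (by
      rw [Polynomial.eval_mul, fp_eval, hX, mul_zero])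
  refine ⟨θ, fun x hx => ((h1 x hx).differentiableAt one_ne_zero).differentiableWithinAt, h2,
    fun x hx => ?_⟩
  have h4 := h3 x hx
  rw [Polynomial.eval_mul, Polynomial.eval_C] at h4
  rcases mul_eq_zero.1 h4 with h5 | h5
  · exact absurd h5 (inv_ne_zero (hne x hx))
  · rw [← fp_eval]
    exact h5

end Pool.Agent.EXM.Sh18

namespace Pool.Agent.EXM

open MvPolynomial Filter Topology Sh18

/-- **Sheets at infinity.** -/
theorem sheet_inf {m r e : ℕ} (F G R : MvPolynomial (Fin (m + 1)) ℂ) (hGh : G.IsHomogeneous r)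
    (hL : homogeneousComponent F.totalDegree F = G ^ e * R) (he : 1 ≤ e)
    (α₀ : ℝ) (α h : Fin m → ℝ) (hα : eval (rpt α₀ α) G = 0)
    (hG0 : eval (rpt α₀ α) (pderiv 0 G) ≠ 0)
    (hh : ∀ j : Fin m, eval (rpt α₀ α) (pderiv j.succ G) = -(h j : ℂ) * eval (rpt α₀ α) (pderiv 0 G))
    (hR : eval (rpt α₀ α) R ≠ 0) (Δ : MvPolynomial (Fin m) ℂ)
    (hΔ : ∀ x : Fin m → ℂ, eval x Δ ≠ 0 →
      (fp F x).natDegree = degreeOf 0 F ∧ (fp F x).Separable)
    (hΔα : eval (fun j => (α j : ℂ)) (homogeneousComponent Δ.totalDegree Δ) ≠ 0)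
    (ε : ℝ) (hε : 0 < ε) :
    ∃ η : ℝ, 0 < η ∧ ∀ᶠ T : ℝ in atTop, ∀ X : ℂ,
      eval (Fin.cons X (ipt T α) : Fin (m + 1) → ℂ) F = 0 →
      ‖X - Complex.I * T * α₀‖ ≤ η * T → ∃ X₀ : (Fin m → ℂ) → ℂ,
        DifferentiableOn ℂ X₀ (Metric.ball (ipt T α) (η * T)) ∧ X₀ (ipt T α) = X ∧
        ∀ x ∈ Metric.ball (ipt T α) (η * T), eval (Fin.cons (X₀ x) x : Fin (m + 1) → ℂ) F = 0 ∧
          ‖X₀ x - X - ∑ j, (h j : ℂ) * (x j - ipt T α j)‖ ≤ ε * ‖x - ipt T α‖ := by
  set L := homogeneousComponent F.totalDegree F with hLd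
  have hLh : L.IsHomogeneous F.totalDegree := homogeneousComponent_isHomogeneous _ _
  obtain ⟨ρ, hρ, η₁, hη₁, A, hAd, hA0, hAl, hAb, hAu⟩ :=
    loc G R L hLh hL α₀ α h hα hG0 hh hR (ε / 2) (by positivity)
  obtain ⟨η₂, hη₂, hdel⟩ := delta_inf Δ α hΔα
  -- the radius
  set η₃ := min η₁ η₂ / 2 with hη₃
  have hmin : 0 < min η₁ η₂ := lt_min hη₁ hη₂
  have hη₃p : 0 < η₃ := by positivity
  have hη₃1 : η₃ < η₁ := by
    have := min_le_left η₁ η₂
    linarith
  have hη₃2 : η₃ < η₂ := by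
    have := min_le_right η₁ η₂
    linarith
  set δ := min (ρ / 4) (ε * η₃ / 4) with hδ
  have hδp : 0 < δ := lt_min (by positivity) (by positivity)
  -- the compact set
  set K : Set ((Fin m → ℂ) × ℂ) := {v | v.1 ∈ Metric.closedBall (ipt 1 α) η₃ ∧
    v.2 ∈ Metric.closedBall (Complex.I * α₀) ρ ∧ δ ≤ ‖v.2 - A v.1‖} with hK
  have hAc : ContinuousOn A (Metric.closedBall (ipt 1 α) η₃) :=
    hAd.continuousOn.mono (Metric.closedBall_subset_ball hη₃1)
  have hKc : IsCompact K := by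
    have h1 : IsCompact (Metric.closedBall (ipt 1 α) η₃ ×ˢ
        Metric.closedBall (Complex.I * (α₀ : ℂ)) ρ) :=
      (isCompact_closedBall _ _).prod (isCompact_closedBall _ _)
    have h2 : ContinuousOn (fun v : (Fin m → ℂ) × ℂ => ‖v.2 - A v.1‖)
        (Metric.closedBall (ipt 1 α) η₃ ×ˢ Metric.closedBall (Complex.I * (α₀ : ℂ)) ρ) := by
      refine ContinuousOn.norm (continuousOn_snd.sub ?_)
      exact hAc.comp continuousOn_fst (fun v hv => hv.1)
    have h3 := h2.preimage_isClosed_of_isClosed h1.isClosed (isClosed_Ici (a := δ))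
    have h4 : K = (Metric.closedBall (ipt 1 α) η₃ ×ˢ
        Metric.closedBall (Complex.I * (α₀ : ℂ)) ρ) ∩
        (fun v : (Fin m → ℂ) × ℂ => ‖v.2 - A v.1‖) ⁻¹' Set.Ici δ := by
      ext v
      simp only [hK, Set.mem_ofPred_eq, Set.mem_inter_iff, Set.mem_prod, Set.mem_preimage,
        Set.mem_Ici]
      tauto
    rw [h4]
    exact h1.of_isClosed_subset h3 Set.inter_subset_left
  obtain ⟨κ, hκ, hκK⟩ : ∃ κ : ℝ, 0 < κ ∧ ∀ v ∈ K,
      κ ≤ ‖eval (Fin.cons v.2 v.1 : Fin (m + 1) → ℂ) L‖ := by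
    have hc : ContinuousOn (fun v : (Fin m → ℂ) × ℂ =>
        ‖eval (Fin.cons v.2 v.1 : Fin (m + 1) → ℂ) L‖) K := fun v _ =>
      (analyticAt_cons L v).continuousAt.norm.continuousWithinAt
    rcases K.eq_empty_or_nonempty with hKe | hKn
    · refine ⟨1, one_pos, fun v hv => ?_⟩
      rw [hKe] at hv
      exact absurd hv (Set.notMem_empty v)
    · obtain ⟨v₀, hv₀, hmn⟩ := hKc.exists_isMinOn hKn hc
      refine ⟨_, norm_pos_iff.2 (fun h0 => ?_), fun v hv => hmn hv⟩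
      obtain ⟨h1, h2, h3⟩ := hv₀
      have h4 := hAu v₀.1 (Metric.closedBall_subset_ball hη₃1 h1) v₀.2
        (by rw [← dist_eq_norm]; exact h2) h0
      rw [← h4, sub_self, norm_zero] at h3
      linarith
  set B := ‖ipt 1 α‖ + η₃ + (|α₀| + ρ) with hB
  have htop := top_inf F B (κ / 2) (by positivity)
  refine ⟨min η₃ (ρ / 4), lt_min hη₃p (by positivity), ?_⟩
  filter_upwards [htop, hdel, eventually_gt_atTop (0 : ℝ)] with T hT hTd hT0 X hX hXn
  have hTC : (T : ℂ) ≠ 0 := by exact_mod_cast hT0.ne'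
  -- the sheet on the larger ball
  obtain ⟨X₀, hXd, hXc, hXz⟩ := sheet_ball F Δ hΔ (ipt T α) (η₃ * T) (by positivity)
    (fun x hx => hTd x (Metric.ball_subset_ball (by
      exact mul_le_mul_of_nonneg_right hη₃2.le hT0.le) hx)) X hX
  -- rescaling
  have hsc : ∀ ξ ∈ Metric.ball (ipt 1 α) η₃, (T : ℂ) • ξ ∈ Metric.ball (ipt T α) (η₃ * T) := by
    intro ξ hξ
    rw [Metric.mem_ball, dist_eq_norm] at hξ ⊢
    rw [ipt_smul T α, ← smul_sub, norm_smul, Complex.norm_real, Real.norm_of_nonneg hT0.le,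
      mul_comm]
    exact mul_lt_mul_of_pos_right hξ hT0
  set Y : (Fin m → ℂ) → ℂ := fun ξ => (T : ℂ)⁻¹ * X₀ ((T : ℂ) • ξ) with hY
  have hYd : DifferentiableOn ℂ Y (Metric.ball (ipt 1 α) η₃) := by
    refine DifferentiableOn.const_mul ?_ _
    exact hXd.comp (differentiable_id.const_smul (T : ℂ)).differentiableOn hsc
  have hY0 : Y (ipt 1 α) = (T : ℂ)⁻¹ * X := by
    simp only [hY]
    rw [← ipt_smul, hXc]
  have hY0n : ‖Y (ipt 1 α) - Complex.I * α₀‖ ≤ ρ / 4 := by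
    rw [hY0]
    have h1 : (T : ℂ)⁻¹ * X - Complex.I * α₀ = (T : ℂ)⁻¹ * (X - Complex.I * T * α₀) := by
      field_simp
    rw [h1, norm_mul, norm_inv, Complex.norm_real, Real.norm_of_nonneg hT0.le,
      inv_mul_le_iff₀ hT0]
    refine hXn.trans ?_
    rw [mul_comm]
    exact mul_le_mul_of_nonneg_left (min_le_right _ _) hT0.le
  -- the dichotomy
  have hdich : ∀ ξ ∈ Metric.ball (ipt 1 α) η₃, ‖Y ξ - Complex.I * α₀‖ ≤ ρ → ‖Y ξ - A ξ‖ < δ := by
    intro ξ hξ hY1
    by_contra hcon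
    push Not at hcon
    have hξ' : ‖ξ - ipt 1 α‖ < η₃ := by rwa [Metric.mem_ball, dist_eq_norm] at hξ
    have h1 : (ξ, Y ξ) ∈ K := ⟨Metric.ball_subset_closedBall hξ, by
      rw [Metric.mem_closedBall, dist_eq_norm]; exact hY1, hcon⟩
    have h2 := hκK _ h1
    have h3 := hT (Fin.cons (Y ξ) ξ) (by
      rw [pi_norm_le_iff_of_nonneg (by positivity)]
      intro i
      refine Fin.cases ?_ (fun j => ?_) i
      · rw [Fin.cons_zero]
        have h4 := norm_sub_norm_le (Y ξ) (Complex.I * α₀)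
        have h4' : ‖Complex.I * (α₀ : ℂ)‖ = |α₀| := by
          rw [norm_mul, Complex.norm_I, one_mul, Complex.norm_real, Real.norm_eq_abs]
        rw [h4'] at h4
        have h5 := norm_nonneg (ipt 1 α)
        rw [hB]
        linarith
      · rw [Fin.cons_succ]
        have h4 := norm_le_pi_norm ξ j
        have h5 := norm_sub_norm_le ξ (ipt 1 α)
        have h6 := abs_nonneg α₀
        rw [hB]
        linarith) (by
      have h4 := hXz _ (hsc ξ hξ)
      rw [← h4]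
      congr 2
      funext i
      refine Fin.cases ?_ (fun j => ?_) i
      · simp only [Fin.cons_zero, hY]
        rw [← mul_assoc, mul_inv_cancel₀ hTC, one_mul]
      · simp)
    simp only at h2
    linarith
  -- connectedness
  have hnear : ∀ ξ ∈ Metric.ball (ipt 1 α) η₃, ‖Y ξ - A ξ‖ < δ := by
    intro ξ hξ
    refine hdich ξ hξ ?_
    by_contra hcon
    push Not at hcon
    have hpc : IsPreconnected (Metric.ball (ipt 1 α) η₃) :=
      (convex_ball (ipt 1 α) η₃).isPreconnected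
    have hcf : ContinuousOn (fun ξ => ‖Y ξ - Complex.I * α₀‖) (Metric.ball (ipt 1 α) η₃) :=
      (hYd.continuousOn.sub continuousOn_const).norm
    have h1 := hpc.intermediate_value (Metric.mem_ball_self hη₃p) hξ hcf
    obtain ⟨ζ, hζ, hζv⟩ := h1 ⟨(by linarith : ‖Y (ipt 1 α) - Complex.I * α₀‖ ≤ 3 * ρ / 4),
      (by linarith : 3 * ρ / 4 ≤ ‖Y ξ - Complex.I * α₀‖)⟩
    simp only at hζv
    have h2 := hdich ζ hζ (by linarith)
    have h3 := hAb ζ (Metric.ball_subset_ball hη₃1.le hζ)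
    have h4 := norm_sub_le_norm_sub_add_norm_sub (Y ζ) (A ζ) (Complex.I * (α₀ : ℂ))
    have h5 : δ ≤ ρ / 4 := min_le_left _ _
    linarith
  -- the estimate
  have hest : ∀ ξ ∈ Metric.ball (ipt 1 α) η₃,
      ‖Y ξ - Y (ipt 1 α) - ∑ j, (h j : ℂ) * (ξ j - ipt 1 α j)‖ ≤ ε * ‖ξ - ipt 1 α‖ := by
    intro ξ hξ
    have h1 := lip_center (f := fun ξ => Y ξ - A ξ) (c := ipt 1 α) (η := η₃) (δ := δ)
      (hYd.sub (hAd.mono (Metric.ball_subset_ball hη₃1.le))) (fun x hx => (hnear x hx).le) ξ hξ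
    have h2 := hAl ξ (Metric.ball_subset_ball hη₃1.le hξ)
    have h3 : 2 * δ / η₃ ≤ ε / 2 := by
      rw [div_le_iff₀ hη₃p]
      have : δ ≤ ε * η₃ / 4 := min_le_right _ _
      linarith
    have h4 : Y ξ - Y (ipt 1 α) - ∑ j, (h j : ℂ) * (ξ j - ipt 1 α j) =
        (Y ξ - A ξ - (Y (ipt 1 α) - A (ipt 1 α))) +
        (A ξ - Complex.I * α₀ - ∑ j, (h j : ℂ) * (ξ j - ipt 1 α j)) := by
      rw [hA0]
      ring
    rw [h4]
    refine (norm_add_le _ _).trans ?_
    have h5 := mul_le_mul_of_nonneg_right h3 (norm_nonneg (ξ - ipt 1 α))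
    linarith
  refine ⟨X₀, hXd.mono (Metric.ball_subset_ball
    (mul_le_mul_of_nonneg_right (min_le_left _ _) hT0.le)), hXc, fun x hx => ?_⟩
  have hx' : x ∈ Metric.ball (ipt T α) (η₃ * T) := Metric.ball_subset_ball
    (mul_le_mul_of_nonneg_right (min_le_left _ _) hT0.le) hx
  refine ⟨hXz x hx', ?_⟩
  -- back to `x`
  set ξ : Fin m → ℂ := (T : ℂ)⁻¹ • x with hξd
  have hxξ : (T : ℂ) • ξ = x := by rw [hξd, smul_smul, mul_inv_cancel₀ hTC, one_smul]
  have hdiff : x - ipt T α = (T : ℂ) • (ξ - ipt 1 α) := by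
    rw [smul_sub, hxξ, ← ipt_smul]
  have hξb : ξ ∈ Metric.ball (ipt 1 α) η₃ := by
    rw [Metric.mem_ball, dist_eq_norm] at hx' ⊢
    rw [hdiff, norm_smul, Complex.norm_real, Real.norm_of_nonneg hT0.le, mul_comm] at hx'
    exact lt_of_mul_lt_mul_right hx' hT0.le
  have h1 := hest ξ hξb
  have h2 : X₀ x - X - ∑ j, (h j : ℂ) * (x j - ipt T α j) =
      (T : ℂ) * (Y ξ - Y (ipt 1 α) - ∑ j, (h j : ℂ) * (ξ j - ipt 1 α j)) := by
    rw [hY0, mul_sub, mul_sub, Finset.mul_sum]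
    have h3 : (T : ℂ) * Y ξ = X₀ x := by
      simp only [hY]
      rw [hxξ, ← mul_assoc, mul_inv_cancel₀ hTC, one_mul]
    rw [h3, ← mul_assoc, mul_inv_cancel₀ hTC, one_mul]
    congr 1
    refine Finset.sum_congr rfl fun j _ => ?_
    have h4 : x j - ipt T α j = (T : ℂ) * (ξ j - ipt 1 α j) := by
      have := congrFun hdiff j
      simpa using this
    rw [h4]
    ring
  rw [h2, norm_mul, hdiff, norm_smul, Complex.norm_real, Real.norm_of_nonneg hT0.le]
  calc T * ‖Y ξ - Y (ipt 1 α) - ∑ j, (h j : ℂ) * (ξ j - ipt 1 α j)‖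
      ≤ T * (ε * ‖ξ - ipt 1 α‖) := mul_le_mul_of_nonneg_left h1 hT0.le
    _ = ε * (T * ‖ξ - ipt 1 α‖) := by ring

end Pool.Agent.EXM
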