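import Pool.Agent.EXM.ClSep
import Pool.Agent.EXM.ClMin
import Pool.Agent.EXM.Sh
import Pool.Agent.EXM.Alg

/-!
# EXM / Seq: the dichotomy for the branches over a real zero of the leading form
-/

set_option autoImplicit false

namespace Pool.Agent.EXM

open MvPolynomial Filter Topology

theorem mk_branch {m : ℕ} (F : MvPolynomial (Fin (m + 1)) ℂ) (α₀ : ℝ) (α h : Fin m → ℝ)
    (η₀ : ℝ)
    (hsep : ∀ η : ℝ, 0 < η → ∀ᶠ T : ℝ in atTop, ∀ X : ℂ,
      eval (Fin.cons X (ipt T α) : Fin (m + 1) → ℂ) F = 0 →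
      ‖X - Complex.I * T * α₀‖ ≤ η₀ * T → ‖X - Complex.I * T * α₀‖ ≤ η * T)
    (hsh : ∀ ε : ℝ, 0 < ε → ∃ η : ℝ, 0 < η ∧ ∀ᶠ T : ℝ in atTop, ∀ X : ℂ,
      eval (Fin.cons X (ipt T α) : Fin (m + 1) → ℂ) F = 0 →
      ‖X - Complex.I * T * α₀‖ ≤ η * T → ∃ X₀ : (Fin m → ℂ) → ℂ,
        DifferentiableOn ℂ X₀ (Metric.ball (ipt T α) (η * T)) ∧ X₀ (ipt T α) = X ∧
        ∀ x ∈ Metric.ball (ipt T α) (η * T), eval (Fin.cons (X₀ x) x : Fin (m + 1) → ℂ) F = 0 ∧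
          ‖X₀ x - X - ∑ j, (h j : ℂ) * (x j - ipt T α j)‖ ≤ ε * ‖x - ipt T α‖)
    (T : ℕ → ℝ) (hT : Tendsto T atTop atTop) (X : ℕ → ℂ)
    (hX : ∀ k, eval (Fin.cons (X k) (ipt (T k) α) : Fin (m + 1) → ℂ) F = 0)
    (hX' : ∀ k, ‖X k - Complex.I * T k * α₀‖ ≤ η₀ * T k) : Branch F α₀ α h T X := by
  have hloc : ∀ η : ℝ, 0 < η → ∀ᶠ k in atTop, ‖X k - Complex.I * T k * α₀‖ ≤ η * T k :=
    fun η hη => (hT.eventually (hsep η hη)).mono fun k hk => hk (X k) (hX k) (hX' k)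
  refine ⟨hT, hX, ?_, ?_⟩
  · rw [Metric.tendsto_nhds]
    intro ε hε
    filter_upwards [hloc (ε / 2) (by positivity), hT.eventually (eventually_gt_atTop 0)]
      with k hk hk0
    rw [dist_eq_norm]
    have hT0 : (T k : ℂ) ≠ 0 := by exact_mod_cast hk0.ne'
    have h1 : X k / T k - Complex.I * α₀ = (X k - Complex.I * T k * α₀) / T k := by
      field_simp
    rw [h1, norm_div, Complex.norm_real, Real.norm_eq_abs, abs_of_pos hk0, div_lt_iff₀ hk0]
    nlinarith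
  · intro ε hε
    obtain ⟨η, hη, h1⟩ := hsh ε hε
    refine ⟨η, hη, ?_⟩
    filter_upwards [hloc η hη, hT.eventually h1] with k hk hk1
    exact hk1 (X k) (hX k) hk

theorem dichotomy {m r e : ℕ} (F G R : MvPolynomial (Fin (m + 1)) ℂ) (hGh : G.IsHomogeneous r)
    (hL : homogeneousComponent F.totalDegree F = G ^ e * R) (he : 1 ≤ e)
    (α₀ : ℝ) (α h : Fin m → ℝ) (hα : eval (rpt α₀ α) G = 0)
    (hG0 : eval (rpt α₀ α) (pderiv 0 G) ≠ 0)
    (hh : ∀ j : Fin m, eval (rpt α₀ α) (pderiv j.succ G) = -(h j : ℂ) * eval (rpt α₀ α) (pderiv 0 G))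
    (hR : eval (rpt α₀ α) R ≠ 0) (Δ : MvPolynomial (Fin m) ℂ)
    (hΔ : ∀ x : Fin m → ℂ, eval x Δ ≠ 0 →
      (fp F x).natDegree = degreeOf 0 F ∧ (fp F x).Separable)
    (hΔα : eval (fun j => (α j : ℂ)) (homogeneousComponent Δ.totalDegree Δ) ≠ 0)
    (hL1 : ∃ y : ℂ, eval (Fin.cons y (fun j => (α j : ℂ)) : Fin (m + 1) → ℂ)
      (homogeneousComponent F.totalDegree F) ≠ 0) (ς : ℝ) (hς : ς ≠ 0) (D : ℝ) :
    ∃ (T : ℕ → ℝ) (X : ℕ → ℂ), Branch F α₀ α h T X ∧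
      ((∀ᶠ k in atTop, ς * (X k).re ≤ -D * Real.log (T k)) ∨
        ∃ κ : ℝ, Tendsto (fun k => (X k).re) atTop (𝓝 κ)) := by
  have hL0 : eval (rpt α₀ α) (homogeneousComponent F.totalDegree F) = 0 := by
    rw [hL, map_mul, map_pow, hα, zero_pow (by omega), zero_mul]
  obtain ⟨η₀, hη₀, hsep⟩ := cluster_sep F α₀ α hL1
  have hsh : ∀ ε : ℝ, 0 < ε → ∃ η : ℝ, 0 < η ∧ ∀ᶠ T : ℝ in atTop, ∀ X : ℂ,
      eval (Fin.cons X (ipt T α) : Fin (m + 1) → ℂ) F = 0 →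
      ‖X - Complex.I * T * α₀‖ ≤ η * T → ∃ X₀ : (Fin m → ℂ) → ℂ,
        DifferentiableOn ℂ X₀ (Metric.ball (ipt T α) (η * T)) ∧ X₀ (ipt T α) = X ∧
        ∀ x ∈ Metric.ball (ipt T α) (η * T), eval (Fin.cons (X₀ x) x : Fin (m + 1) → ℂ) F = 0 ∧
          ‖X₀ x - X - ∑ j, (h j : ℂ) * (x j - ipt T α j)‖ ≤ ε * ‖x - ipt T α‖ :=
    fun ε hε => sheet_inf F G R hGh hL he α₀ α h hα hG0 hh hR Δ hΔ hΔα ε hε
  obtain ⟨K, hK⟩ := cluster_min F α₀ α hL0 hL1 ς η₀ hη₀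
  obtain ⟨T₁, hT₁⟩ := eventually_atTop.1 hK
  have hch : ∀ T : ℝ, ∃ X : ℂ, T₁ ≤ T → eval (Fin.cons X (ipt T α) : Fin (m + 1) → ℂ) F = 0 ∧
      ‖X - Complex.I * T * α₀‖ ≤ η₀ * T ∧ ς * X.re ≤ K := by
    intro T
    by_cases h1 : T₁ ≤ T
    · obtain ⟨X, hX⟩ := hT₁ T h1
      exact ⟨X, fun _ => hX⟩
    · exact ⟨0, fun h2 => absurd h2 h1⟩
  choose Xf hXf using hch
  by_cases hfreq : ∃ᶠ T : ℝ in atTop, T₁ ≤ T ∧ ς * (Xf T).re ≤ -D * Real.log T
  · obtain ⟨T, hT, hT'⟩ := exists_seq_forall_of_frequently hfreq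
    refine ⟨T, fun k => Xf (T k), mk_branch F α₀ α h η₀ hsep hsh T hT _
      (fun k => (hXf _ (hT' k).1).1) (fun k => (hXf _ (hT' k).1).2.1), Or.inl ?_⟩
    exact Eventually.of_forall fun k => (hT' k).2
  · rw [not_frequently] at hfreq
    obtain ⟨T₂, hT₂⟩ := eventually_atTop.1 hfreq
    set B : ℝ := max T₁ (max T₂ 3) with hB
    have hB1 : T₁ ≤ B := le_max_left _ _
    have hB2 : T₂ ≤ B := (le_max_left _ _).trans (le_max_right _ _)
    have hB3 : 3 ≤ B := (le_max_right _ _).trans (le_max_right _ _)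
    set T : ℕ → ℝ := fun k => B + k with hTdef
    have hT : Tendsto T atTop atTop :=
      tendsto_atTop_add_const_left _ _ tendsto_natCast_atTop_atTop
    have hTB : ∀ k, B ≤ T k := fun k => by
      rw [hTdef]
      have := Nat.cast_nonneg (α := ℝ) k
      linarith
    have hlog : ∀ k, 1 ≤ Real.log (T k) := by
      intro k
      rw [Real.le_log_iff_exp_le (by linarith [hTB k])]
      have := Real.exp_one_lt_d9
      linarith [hTB k]
    obtain ⟨K', hK'⟩ := re_bdd F α hL1 T hT (fun k => Xf (T k))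
      (fun k => (hXf _ (hB1.trans (hTB k))).1) ((|D| + |K|) / |ς|) (by
        refine Eventually.of_forall fun k => ?_
        have h1 := (hXf _ (hB1.trans (hTB k))).2.2
        have h2 := hT₂ (T k) (hB2.trans (hTB k))
        rw [not_and] at h2
        have h3 := h2 (hB1.trans (hTB k))
        push Not at h3
        have h4 := hlog k
        have h5 : |ς * (Xf (T k)).re| ≤ (|D| + |K|) * Real.log (T k) := by
          rw [abs_le]
          have h6 := le_abs_self D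
          have h7 := le_abs_self K
          have h8 := abs_nonneg D
          have h9 := abs_nonneg K
          constructor
          · nlinarith
          · nlinarith
        rw [abs_mul] at h5
        have h6 : 0 < |ς| := abs_pos.2 hς
        rw [div_mul_eq_mul_div, le_div_iff₀ h6]
        linarith)
    obtain ⟨k₀, hk₀⟩ := eventually_atTop.1 hK'
    obtain ⟨κ, -, φ, hφ, hκ⟩ := tendsto_subseq_of_bounded (x := fun k => (Xf (T (k + k₀))).re)
      (s := Metric.closedBall 0 K') Metric.isBounded_closedBall (fun k => by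
        rw [Metric.mem_closedBall, dist_zero_right, Real.norm_eq_abs]
        exact hk₀ _ (by omega))
    have hsub : Tendsto (fun k => T (φ k + k₀)) atTop atTop :=
      hT.comp ((tendsto_add_atTop_nat k₀).comp hφ.tendsto_atTop)
    refine ⟨fun k => T (φ k + k₀), fun k => Xf (T (φ k + k₀)),
      mk_branch F α₀ α h η₀ hsep hsh _ hsub _
      (fun k => (hXf _ (hB1.trans (hTB _))).1) (fun k => (hXf _ (hB1.trans (hTB _))).2.1),
      Or.inr ⟨κ, hκ⟩⟩

end Pool.Agent.EXM
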