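import Pool.Agent.EXM.ShTop

/-!
# EXM / ShInf: the top component decides near infinity
-/

set_option autoImplicit false

namespace Pool.Agent.EXM

open MvPolynomial Filter Topology

theorem top_inf {m : ℕ} (F : MvPolynomial (Fin (m + 1)) ℂ) (B : ℝ) (hB : 0 < B) (δ : ℝ) (hδ : 0 < δ) :
    ∀ᶠ T : ℝ in atTop, ∀ y : Fin (m + 1) → ℂ, (∀ i, ‖y i‖ ≤ B) →
      eval (fun i => (T : ℂ) * y i) F = 0 → ‖eval y (homogeneousComponent F.totalDegree F)‖ ≤ δ := by
  filter_upwards [top_approx F B δ hδ, eventually_ge_atTop 1] with T h1 hT y hy h0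
  have hT0 : 0 < T := by linarith
  have h2 := h1 y ((pi_norm_le_iff_of_nonneg hB.le).2 hy)
  rw [h0, zero_sub, norm_neg, norm_mul, norm_pow, Complex.norm_real, Real.norm_eq_abs,
    abs_of_pos hT0, mul_comm] at h2
  exact le_of_mul_le_mul_right h2 (pow_pos hT0 _)

theorem delta_inf {m : ℕ} (Δ : MvPolynomial (Fin m) ℂ) (α : Fin m → ℝ)
    (h : eval (fun j => (α j : ℂ)) (homogeneousComponent Δ.totalDegree Δ) ≠ 0) :
    ∃ η : ℝ, 0 < η ∧ ∀ᶠ T : ℝ in atTop, ∀ x ∈ Metric.ball (ipt T α) (η * T), eval x Δ ≠ 0 := by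
  set L := homogeneousComponent Δ.totalDegree Δ with hL
  have h1 : eval (ipt 1 α) L = Complex.I ^ Δ.totalDegree * eval (fun j => (α j : ℂ)) L := by
    have h2 := eval_homog L (homogeneousComponent_isHomogeneous _ _) Complex.I (fun j => (α j : ℂ))
    rw [← h2]
    congr 1
    congr 1
    funext j
    rw [ipt]
    push_cast
    ring
  have h3 : eval (ipt 1 α) L ≠ 0 := by
    rw [h1]
    exact mul_ne_zero (pow_ne_zero _ Complex.I_ne_zero) h
  set κ := ‖eval (ipt 1 α) L‖ with hκ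
  have hκ0 : 0 < κ := norm_pos_iff.2 h3
  obtain ⟨η, hη, h4⟩ := Metric.continuousAt_iff.1
    ((MvPolynomial.continuous_eval L).continuousAt (x := ipt 1 α)) (κ / 2) (by positivity)
  refine ⟨η, hη, ?_⟩
  filter_upwards [top_approx Δ (‖ipt 1 α‖ + η) (κ / 4) (by positivity), eventually_ge_atTop 1] with T h5 hT
    x hx h0
  have hT0 : 0 < T := by linarith
  have hTc : (T : ℂ) ≠ 0 := by exact_mod_cast hT0.ne'
  obtain ⟨ξ, hξ⟩ : ∃ ξ : Fin m → ℂ, ξ = fun j => (T : ℂ)⁻¹ * x j := ⟨_, rfl⟩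
  have hx1 : (fun j => (T : ℂ) * ξ j) = x := by
    funext j
    rw [hξ]
    show (T : ℂ) * ((T : ℂ)⁻¹ * x j) = x j
    rw [← mul_assoc, mul_inv_cancel₀ hTc, one_mul]
  have hd : dist ξ (ipt 1 α) < η := by
    have e : ξ - ipt 1 α = (T : ℂ)⁻¹ • (x - ipt T α) := by
      funext j
      rw [hξ, Pi.sub_apply, Pi.smul_apply, Pi.sub_apply, ipt, ipt, smul_eq_mul]
      field_simp
      push_cast
      ring
    rw [dist_eq_norm, e, norm_smul, norm_inv, Complex.norm_real, Real.norm_eq_abs, abs_of_pos hT0,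
      inv_mul_lt_iff₀ hT0, mul_comm]
    exact mem_ball_iff_norm.1 hx
  have hn : ‖ξ‖ ≤ ‖ipt 1 α‖ + η := by
    have e : ξ = (ξ - ipt 1 α) + ipt 1 α := by rw [sub_add_cancel]
    rw [e]
    refine (norm_add_le _ _).trans ?_
    rw [dist_eq_norm] at hd
    linarith
  have h6 := h5 ξ hn
  rw [hx1, h0, zero_sub, norm_neg, norm_mul, norm_pow, Complex.norm_real, Real.norm_eq_abs,
    abs_of_pos hT0, mul_comm] at h6
  have h7 := le_of_mul_le_mul_right h6 (pow_pos hT0 _)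
  have h8 := h4 hd
  rw [dist_eq_norm] at h8
  have h9 := norm_sub_norm_le (eval (ipt 1 α) L) (eval ξ L)
  rw [norm_sub_rev] at h9
  linarith

end Pool.Agent.EXM
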