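import Pool.Agent.EXM.Defs

/-!
# EXM / ShLoc: the local part of the sheets at infinity (implicit function, Schwarz)
-/

set_option autoImplicit false

namespace Pool.Agent.EXM.Sh18

open MvPolynomial Filter Topology

/-- Derivative of a polynomial along a curve. -/
theorem hasDerivAt_eval_curve {n : ℕ} (q : MvPolynomial (Fin n) ℂ) {c : ℂ → Fin n → ℂ}
    {c' : Fin n → ℂ} {u₀ : ℂ} (hc : ∀ j, HasDerivAt (fun u => c u j) (c' j) u₀) :
    HasDerivAt (fun u => eval (c u) q) (∑ i, eval (c u₀) (pderiv i q) * c' i) u₀ := by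
  induction q using MvPolynomial.induction_on with
  | C a =>
    simp only [eval_C, pderiv_C, map_zero, zero_mul, Finset.sum_const_zero]
    exact hasDerivAt_const _ _
  | add p q hp hq =>
    simp only [map_add, add_mul, Finset.sum_add_distrib]
    exact hp.add hq
  | mul_X p j hp =>
    have h := hp.mul (hc j)
    have e1 : (fun u => eval (c u) (p * X j)) =
        (fun u => eval (c u) p) * (fun u => c u j) := by
      funext u
      simp only [map_mul, eval_X, Pi.mul_apply]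
    rw [e1]
    refine h.congr_deriv ?_
    have e2 : ∀ i, eval (c u₀) (pderiv i (p * X j)) * c' i =
        eval (c u₀) (pderiv i p) * c' i * c u₀ j +
          (if i = j then eval (c u₀) p * c' i else 0) := by
      intro i
      rw [Derivation.leibniz, smul_eq_mul, smul_eq_mul, map_add, map_mul, map_mul, eval_X]
      by_cases hij : i = j
      · subst hij
        rw [pderiv_X_self, map_one, if_pos rfl]
        ring
      · rw [pderiv_X_of_ne (Ne.symm hij), map_zero, if_neg hij]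
        ring
    rw [Finset.sum_congr rfl fun i _ => e2 i, Finset.sum_add_distrib, ← Finset.sum_mul,
      Finset.sum_ite_eq' Finset.univ j, if_pos (Finset.mem_univ j)]

/-- The polynomial as a function of `(x', x_0)` is analytic. -/
theorem analyticAt_cons {m : ℕ} (G : MvPolynomial (Fin (m + 1)) ℂ) (u : (Fin m → ℂ) × ℂ) :
    AnalyticAt ℂ (fun u : (Fin m → ℂ) × ℂ => eval (Fin.cons u.2 u.1 : Fin (m + 1) → ℂ) G) u := by
  have h := AnalyticAt.aeval_mvPolynomial (𝕜 := ℂ) (B := ℂ)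
    (f := fun u : (Fin m → ℂ) × ℂ => (Fin.cons u.2 u.1 : Fin (m + 1) → ℂ)) (z := u) (fun i => ?_) G
  · simpa [MvPolynomial.aeval_eq_eval] using h
  · refine Fin.cases ?_ (fun j => ?_) i
    · simpa using analyticAt_snd
    · have h1 : AnalyticAt ℂ (fun u : (Fin m → ℂ) × ℂ => u.1 j) u :=
        ((ContinuousLinearMap.proj (R := ℂ) (φ := fun _ : Fin m => ℂ) j).comp
          (ContinuousLinearMap.fst ℂ (Fin m → ℂ) ℂ)).analyticAt u
      simpa using h1

/-- Implicit function near a point where `∂_0 G ≠ 0`, with gradient `h`, and uniqueness. -/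
theorem loc_ift {m e : ℕ} (G R : MvPolynomial (Fin (m + 1)) ℂ) (a₀ : ℂ) (a h : Fin m → ℂ)
    (hG : eval (Fin.cons a₀ a : Fin (m + 1) → ℂ) G = 0)
    (hG0 : eval (Fin.cons a₀ a : Fin (m + 1) → ℂ) (pderiv 0 G) ≠ 0)
    (hh : ∀ j : Fin m, eval (Fin.cons a₀ a : Fin (m + 1) → ℂ) (pderiv j.succ G) =
      -(h j) * eval (Fin.cons a₀ a : Fin (m + 1) → ℂ) (pderiv 0 G))
    (hR : eval (Fin.cons a₀ a : Fin (m + 1) → ℂ) R ≠ 0) (ε : ℝ) (hε : 0 < ε) :
    ∃ ρ : ℝ, 0 < ρ ∧ ∃ η : ℝ, 0 < η ∧ ∃ A : (Fin m → ℂ) → ℂ,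
      DifferentiableOn ℂ A (Metric.ball a η) ∧ A a = a₀ ∧
      (∀ ξ ∈ Metric.ball a η, ‖A ξ - a₀ - ∑ j, h j * (ξ j - a j)‖ ≤ ε * ‖ξ - a‖) ∧
      (∀ ξ ∈ Metric.ball a η, ‖A ξ - a₀‖ ≤ ρ / 4) ∧
      (∀ ξ ∈ Metric.ball a η, eval (Fin.cons (A ξ) ξ : Fin (m + 1) → ℂ) G = 0) ∧
      ∀ ξ ∈ Metric.ball a η, ∀ X : ℂ, ‖X - a₀‖ ≤ ρ →
        eval (Fin.cons X ξ : Fin (m + 1) → ℂ) (G ^ e * R) = 0 → X = A ξ := by
  set f : (Fin m → ℂ) × ℂ → ℂ := fun u => eval (Fin.cons u.2 u.1 : Fin (m + 1) → ℂ) G with hf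
  have cdf : ContDiffAt ℂ 1 f (a, a₀) := (analyticAt_cons G (a, a₀)).contDiffAt
  have h1 : (1 : WithTop ℕ∞) ≠ 0 := one_ne_zero
  have hd : HasFDerivAt f (fderiv ℂ f (a, a₀)) (a, a₀) :=
    (cdf.differentiableAt h1).hasFDerivAt
  -- the derivative in the last variable
  have hinr : HasFDerivAt (fun w : ℂ => ((a, w) : (Fin m → ℂ) × ℂ))
      (ContinuousLinearMap.inr ℂ (Fin m → ℂ) ℂ) a₀ := hasFDerivAt_prodMk_right a a₀
  have hcomp := HasFDerivAt.comp a₀ (g := f) hd hinr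
  have hline : HasDerivAt (fun w : ℂ => eval (Fin.cons w a : Fin (m + 1) → ℂ) G)
      (eval (Fin.cons a₀ a : Fin (m + 1) → ℂ) (pderiv 0 G)) a₀ := by
    have h2 := hasDerivAt_eval_curve (n := m + 1) G
      (c := fun w => (Fin.cons w a : Fin (m + 1) → ℂ))
      (c' := (Fin.cons 1 0 : Fin (m + 1) → ℂ)) (u₀ := a₀) (fun j => ?_)
    · refine h2.congr_deriv ?_
      rw [Fin.sum_univ_succ]
      simp
    · refine Fin.cases ?_ (fun j => ?_) j
      · simpa using hasDerivAt_id' a₀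
      · simpa using hasDerivAt_const a₀ (a j)
  have heq := hcomp.unique hline.hasFDerivAt
  have hinv : (fderiv ℂ f (a, a₀) ∘L .inr ℂ (Fin m → ℂ) ℂ).IsInvertible := by
    rw [heq]
    refine ⟨ContinuousLinearEquiv.unitsEquivAut ℂ (Units.mk0 _ hG0), ?_⟩
    ext
    simp
  set A := cdf.implicitFunction h1 hinv with hA
  have hAa : A a = a₀ := cdf.implicitFunction_apply_self h1 hinv
  have hAc : ContDiffAt ℂ 1 A a := cdf.contDiffAt_implicitFunction h1 hinv
  have hz : ∀ᶠ x in 𝓝 a, f (x, A x) = 0 := by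
    have h2 := cdf.eventually_apply_implicitFunction h1 hinv
    filter_upwards [h2] with x hx
    rw [hx]
    exact hG
  have huniq : ∀ᶠ v in 𝓝 (a, a₀), f v = 0 ↔ A v.1 = v.2 := by
    have h2 := cdf.eventually_apply_eq_iff_implicitFunction h1 hinv
    filter_upwards [h2] with v hv
    rw [← hv]
    rw [show f (a, a₀) = 0 from hG]
  -- the derivative of `A`
  have hAd : HasFDerivAt A (fderiv ℂ A a) a := (hAc.differentiableAt h1).hasFDerivAt
  have hgrad : ∀ v : Fin m → ℂ, fderiv ℂ A a v = ∑ j, h j * v j := by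
    intro v
    have hl : HasDerivAt (fun t : ℂ => a + t • v) v 0 := by
      simpa using ((hasDerivAt_id (0 : ℂ)).smul_const v).const_add a
    have hl0 : (fun t : ℂ => a + t • v) 0 = a := by simp
    have hAl : HasDerivAt (fun t : ℂ => A (a + t • v)) (fderiv ℂ A a v) 0 := by
      have h2 : HasFDerivAt A (fderiv ℂ A a) ((fun t : ℂ => a + t • v) 0) := by
        rw [hl0]; exact hAd
      exact h2.comp_hasDerivAt (0 : ℂ) hl
    have h3 := hasDerivAt_eval_curve (n := m + 1) G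
      (c := fun t => (Fin.cons (A (a + t • v)) (a + t • v) : Fin (m + 1) → ℂ))
      (c' := (Fin.cons (fderiv ℂ A a v) v : Fin (m + 1) → ℂ)) (u₀ := 0) (fun j => ?_)
    · have h4 : (fun t : ℂ => eval (Fin.cons (A (a + t • v)) (a + t • v) : Fin (m + 1) → ℂ) G)
          =ᶠ[𝓝 0] fun _ => 0 := by
        have h5 : Tendsto (fun t : ℂ => a + t • v) (𝓝 0) (𝓝 a) := by
          have := hl.continuousAt.tendsto
          simpa using this
        exact h5.eventually hz
      have h6 := h3.unique ((hasDerivAt_const (0 : ℂ) (0 : ℂ)).congr_of_eventuallyEq h4)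
      rw [Fin.sum_univ_succ] at h6
      simp only [zero_smul, add_zero, Fin.cons_zero, Fin.cons_succ, hAa, hh] at h6
      have h7 : eval (Fin.cons a₀ a : Fin (m + 1) → ℂ) (pderiv 0 G) *
          (fderiv ℂ A a v - ∑ j, h j * v j) = 0 := by
        rw [mul_sub, Finset.mul_sum, sub_eq_add_neg, ← Finset.sum_neg_distrib]
        refine Eq.trans ?_ h6
        congr 1
        refine Finset.sum_congr rfl fun j _ => ?_
        ring
      rcases mul_eq_zero.1 h7 with h8 | h8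
      · exact absurd h8 hG0
      · exact sub_eq_zero.1 h8
    · refine Fin.cases ?_ (fun j => ?_) j
      · simpa using hAl
      · have h8 := hasDerivAt_pi.1 hl j
        simpa using h8
  -- the bounds
  have hRc : ∀ᶠ v in 𝓝 (a, a₀), eval (Fin.cons v.2 v.1 : Fin (m + 1) → ℂ) R ≠ 0 := by
    have h2 := (analyticAt_cons R (a, a₀)).continuousAt
    exact h2.eventually_ne hR
  obtain ⟨ρ₀, hρ₀, hρ⟩ := Metric.eventually_nhds_iff_ball.1 (huniq.and hRc)
  set ρ := ρ₀ / 2 with hρd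
  have hρp : 0 < ρ := by positivity
  have hbd : ∀ᶠ ξ in 𝓝 a, ‖A ξ - a₀‖ ≤ ρ / 4 := by
    have h2 : Tendsto (fun ξ => ‖A ξ - a₀‖) (𝓝 a) (𝓝 0) := by
      have h3 : ContinuousAt (fun ξ => ‖A ξ - a₀‖) a := (hAd.continuousAt.sub continuousAt_const).norm
      have h4 := h3.tendsto
      simpa [hAa] using h4
    exact h2.eventually_le_const (by positivity)
  have hdf : ∀ᶠ ξ in 𝓝 a, DifferentiableAt ℂ A ξ := by
    have h2 := hAc.eventually (by simp)
    filter_upwards [h2] with ξ hξ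
    exact hξ.differentiableAt h1
  have hli : ∀ᶠ ξ in 𝓝 a, ‖A ξ - a₀ - ∑ j, h j * (ξ j - a j)‖ ≤ ε * ‖ξ - a‖ := by
    have h2 := hAd.isLittleO.bound hε
    filter_upwards [h2] with ξ hξ
    rw [hgrad, hAa] at hξ
    simpa using hξ
  obtain ⟨η₀, hη₀, hη⟩ := Metric.eventually_nhds_iff_ball.1 ((hbd.and hdf).and (hli.and hz))
  refine ⟨ρ, hρp, min η₀ ρ, lt_min hη₀ hρp, A, ?_, hAa, ?_, ?_, ?_, ?_⟩
  · intro ξ hξ
    exact (hη ξ (Metric.ball_subset_ball (min_le_left _ _) hξ)).1.2.differentiableWithinAt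
  · intro ξ hξ
    exact (hη ξ (Metric.ball_subset_ball (min_le_left _ _) hξ)).2.1
  · intro ξ hξ
    exact (hη ξ (Metric.ball_subset_ball (min_le_left _ _) hξ)).1.1
  · intro ξ hξ
    exact (hη ξ (Metric.ball_subset_ball (min_le_left _ _) hξ)).2.2
  · intro ξ hξ X hX h0
    have h2 : dist ξ a < ρ := lt_of_lt_of_le hξ (min_le_right _ _)
    have h3 : ((ξ, X) : (Fin m → ℂ) × ℂ) ∈ Metric.ball (a, a₀) ρ₀ := by
      rw [Metric.mem_ball, Prod.dist_eq]
      refine max_lt (by simp only; linarith) ?_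
      simp only
      rw [dist_eq_norm]
      linarith
    obtain ⟨h4, h5⟩ := hρ _ h3
    rw [map_mul, map_pow] at h0
    have h6 : eval (Fin.cons X ξ : Fin (m + 1) → ℂ) G = 0 := by
      rcases mul_eq_zero.1 h0 with h7 | h7
      · by_contra h8
        exact pow_ne_zero e h8 h7
      · exact absurd h7 h5
    exact (h4.1 h6).symm

/-- Evaluating a homogeneous polynomial at a multiple. -/
theorem eval_smul_hom {n D : ℕ} {L : MvPolynomial (Fin n) ℂ} (hL : L.IsHomogeneous D) (c : ℂ)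
    (x : Fin n → ℂ) : eval (fun i => c * x i) L = c ^ D * eval x L := by
  rw [eval_eq', eval_eq', Finset.mul_sum]
  refine Finset.sum_congr rfl fun d hd => ?_
  have h1 : ∑ i, d i = D := by
    have h2 := hL (mem_support_iff.1 hd)
    rw [← h2]
    simp [Finsupp.weight_apply, Finsupp.sum_fintype]
  have h2 : ∏ i, (c * x i) ^ d i = c ^ D * ∏ i, x i ^ d i := by
    rw [← h1, ← Finset.prod_pow_eq_pow_sum, ← Finset.prod_mul_distrib]
    exact Finset.prod_congr rfl fun i _ => mul_pow _ _ _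
  rw [h2]
  ring

/-- **The local part at `i (α₀, α)`.** -/
theorem loc {m e D : ℕ} (G R L : MvPolynomial (Fin (m + 1)) ℂ) (hLh : L.IsHomogeneous D)
    (hL : L = G ^ e * R) (α₀ : ℝ) (α h : Fin m → ℝ) (hα : eval (rpt α₀ α) G = 0)
    (hG0 : eval (rpt α₀ α) (pderiv 0 G) ≠ 0)
    (hh : ∀ j : Fin m, eval (rpt α₀ α) (pderiv j.succ G) = -(h j : ℂ) * eval (rpt α₀ α) (pderiv 0 G))
    (hR : eval (rpt α₀ α) R ≠ 0) (ε : ℝ) (hε : 0 < ε) :
    ∃ ρ : ℝ, 0 < ρ ∧ ∃ η : ℝ, 0 < η ∧ ∃ A : (Fin m → ℂ) → ℂ,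
      DifferentiableOn ℂ A (Metric.ball (ipt 1 α) η) ∧ A (ipt 1 α) = Complex.I * α₀ ∧
      (∀ ξ ∈ Metric.ball (ipt 1 α) η,
        ‖A ξ - Complex.I * α₀ - ∑ j, (h j : ℂ) * (ξ j - ipt 1 α j)‖ ≤ ε * ‖ξ - ipt 1 α‖) ∧
      (∀ ξ ∈ Metric.ball (ipt 1 α) η, ‖A ξ - Complex.I * α₀‖ ≤ ρ / 4) ∧
      ∀ ξ ∈ Metric.ball (ipt 1 α) η, ∀ X : ℂ, ‖X - Complex.I * α₀‖ ≤ ρ →
        eval (Fin.cons X ξ : Fin (m + 1) → ℂ) L = 0 → X = A ξ := by
  obtain ⟨ρ, hρ, η, hη, A, hd, hA0, hli, hbd, -, hun⟩ :=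
    loc_ift (e := e) G R (α₀ : ℂ) (fun j => (α j : ℂ)) (fun j => (h j : ℂ)) hα hG0 hh hR ε hε
  -- rotation
  set rot : (Fin m → ℂ) → (Fin m → ℂ) := fun ξ j => -Complex.I * ξ j with hrot
  have hrs : ∀ ξ, rot ξ = (-Complex.I) • ξ := fun ξ => rfl
  have hI : Complex.I * Complex.I = -1 := Complex.I_mul_I
  have hr0 : rot (ipt 1 α) = fun j => (α j : ℂ) := by
    funext j
    simp only [hrot, ipt, Complex.ofReal_one, mul_one]
    linear_combination (-(α j : ℂ)) * hI
  have hnorm : ∀ ξ, ‖rot ξ - fun j => (α j : ℂ)‖ = ‖ξ - ipt 1 α‖ := by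
    intro ξ
    rw [← hr0, hrs, hrs, ← smul_sub, norm_smul]
    simp
  have hball : ∀ ξ ∈ Metric.ball (ipt 1 α) η,
      rot ξ ∈ Metric.ball (fun j => (α j : ℂ)) η := by
    intro ξ hξ
    rw [Metric.mem_ball, dist_eq_norm] at hξ ⊢
    rwa [hnorm]
  refine ⟨ρ, hρ, η, hη, fun ξ => Complex.I * A (rot ξ), ?_, ?_, ?_, ?_, ?_⟩
  · refine DifferentiableOn.const_mul ?_ _
    have h1 : DifferentiableOn ℂ rot (Metric.ball (ipt 1 α) η) := by
      have h2 : rot = fun ξ => (-Complex.I) • ξ := rfl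
      rw [h2]
      exact (differentiable_id.const_smul (-Complex.I)).differentiableOn
    exact hd.comp h1 hball
  · simp only [hr0, hA0]
  · intro ξ hξ
    have h1 := hli _ (hball ξ hξ)
    rw [hnorm] at h1
    refine le_trans (le_of_eq ?_) h1
    have h2 : Complex.I * A (rot ξ) - Complex.I * α₀ - ∑ j, (h j : ℂ) * (ξ j - ipt 1 α j) =
        Complex.I * (A (rot ξ) - α₀ - ∑ j, (h j : ℂ) * (rot ξ j - α j)) := by
      rw [mul_sub, mul_sub, Finset.mul_sum]
      congr 1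
      refine Finset.sum_congr rfl fun j _ => ?_
      simp only [hrot, ipt, Complex.ofReal_one, mul_one]
      linear_combination ((h j : ℂ) * ξ j) * hI
    rw [h2, norm_mul, Complex.norm_I, one_mul]
  · intro ξ hξ
    have h1 := hbd _ (hball ξ hξ)
    rwa [← mul_sub, norm_mul, Complex.norm_I, one_mul]
  · intro ξ hξ X hX h0
    have h1 : eval (Fin.cons (-Complex.I * X) (rot ξ) : Fin (m + 1) → ℂ) L = 0 := by
      have h2 : (Fin.cons (-Complex.I * X) (rot ξ) : Fin (m + 1) → ℂ) =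
          fun i => -Complex.I * (Fin.cons X ξ : Fin (m + 1) → ℂ) i := by
        funext i
        refine Fin.cases ?_ (fun j => ?_) i
        · simp
        · simp [hrot]
      rw [h2, eval_smul_hom hLh, h0, mul_zero]
    rw [hL] at h1
    have h3 : ‖-Complex.I * X - α₀‖ ≤ ρ := by
      have h4 : -Complex.I * X - α₀ = -Complex.I * (X - Complex.I * α₀) := by
        linear_combination (-(α₀ : ℂ)) * hI
      rw [h4, norm_mul, norm_neg, Complex.norm_I, one_mul]
      exact hX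
    have h5 := hun _ (hball ξ hξ) _ h3 h1
    show X = Complex.I * A (rot ξ)
    rw [← h5]
    linear_combination X * hI

/-- **Schwarz**: a bounded holomorphic function is Lipschitz at the centre. -/
theorem lip_center {m : ℕ} {f : (Fin m → ℂ) → ℂ} {c : Fin m → ℂ} {η δ : ℝ}
    (hd : DifferentiableOn ℂ f (Metric.ball c η)) (hb : ∀ x ∈ Metric.ball c η, ‖f x‖ ≤ δ)
    (x : Fin m → ℂ) (hx : x ∈ Metric.ball c η) : ‖f x - f c‖ ≤ 2 * δ / η * ‖x - c‖ := by
  have hη : 0 < η := Metric.nonempty_ball.1 ⟨x, hx⟩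
  have h1 := Complex.dist_le_div_mul_dist_of_mapsTo_ball (R₂ := 2 * δ) hd (fun y hy => ?_) hx
  · rwa [dist_eq_norm, dist_eq_norm] at h1
  · rw [Metric.mem_closedBall, dist_eq_norm]
    have h2 := hb y hy
    have h3 := hb c (Metric.mem_ball_self hη)
    have h4 := norm_sub_le (f y) (f c)
    linarith

end Pool.Agent.EXM.Sh18
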