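import Pool.Agent.EXM.Defs

/-!
# EXM / ShTop: comparison with the top homogeneous component far away
-/

set_option autoImplicit false

namespace Pool.Agent.EXM

open MvPolynomial Filter Topology

theorem eval_homog {k i : ℕ} (Q : MvPolynomial (Fin k) ℂ) (hQ : Q.IsHomogeneous i) (T : ℂ)
    (v : Fin k → ℂ) : eval (fun j => T * v j) Q = T ^ i * eval v Q := by
  rw [eval_eq, eval_eq, Finset.mul_sum]
  refine Finset.sum_congr rfl fun s hs => ?_
  have h1 : i = ∑ j ∈ s.support, s j := hQ.degree_eq_sum_deg_support hs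
  have h2 : ∏ j ∈ s.support, (T * v j) ^ s j = T ^ i * ∏ j ∈ s.support, v j ^ s j := by
    rw [h1, ← Finset.prod_pow_eq_pow_sum, ← Finset.prod_mul_distrib]
    exact Finset.prod_congr rfl fun j _ => mul_pow _ _ _
  rw [h2]
  ring

theorem bdd_eval {k : ℕ} (Q : MvPolynomial (Fin k) ℂ) (C : ℝ) :
    ∃ M : ℝ, 0 ≤ M ∧ ∀ v : Fin k → ℂ, ‖v‖ ≤ C → ‖eval v Q‖ ≤ M := by
  obtain ⟨M, hM⟩ := (isCompact_closedBall (0 : Fin k → ℂ) C).exists_bound_of_continuousOn
    (MvPolynomial.continuous_eval Q).continuousOn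
  exact ⟨max M 0, le_max_right _ _, fun v hv => (hM v (by simpa using hv)).trans (le_max_left _ _)⟩

theorem top_approx {k : ℕ} (P : MvPolynomial (Fin k) ℂ) (C δ : ℝ) (hδ : 0 < δ) :
    ∀ᶠ T : ℝ in atTop, ∀ v : Fin k → ℂ, ‖v‖ ≤ C →
      ‖eval (fun j => (T : ℂ) * v j) P -
        (T : ℂ) ^ P.totalDegree * eval v (homogeneousComponent P.totalDegree P)‖ ≤
          δ * T ^ P.totalDegree := by
  set D := P.totalDegree with hD
  choose M hM0 hM using fun i : ℕ => bdd_eval (homogeneousComponent i P) C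
  have hP : ∀ (T : ℝ) (v : Fin k → ℂ), eval (fun j => (T : ℂ) * v j) P -
      (T : ℂ) ^ D * eval v (homogeneousComponent D P) =
      ∑ i ∈ Finset.range D, (T : ℂ) ^ i * eval v (homogeneousComponent i P) := by
    intro T v
    have h1 : eval (fun j => (T : ℂ) * v j) P =
        ∑ i ∈ Finset.range (D + 1), (T : ℂ) ^ i * eval v (homogeneousComponent i P) := by
      conv_lhs => rw [← sum_homogeneousComponent P]
      rw [map_sum]
      exact Finset.sum_congr rfl fun i _ =>
        eval_homog _ (homogeneousComponent_isHomogeneous i P) T v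
    rw [h1, Finset.sum_range_succ, add_sub_cancel_right]
  have hS : 0 ≤ ∑ i ∈ Finset.range D, M i := Finset.sum_nonneg fun i _ => hM0 i
  filter_upwards [eventually_ge_atTop 1, eventually_ge_atTop ((∑ i ∈ Finset.range D, M i) / δ)]
    with T hT1 hT v hv
  rw [hP]
  have hT0 : 0 < T := by linarith
  have h2 : ∑ i ∈ Finset.range D, M i ≤ δ * T := by
    rw [div_le_iff₀ hδ] at hT
    linarith
  refine (norm_sum_le _ _).trans ?_
  rcases Nat.eq_zero_or_pos D with h0 | h0
  · rw [h0]
    simp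
    exact hδ.le
  have h3 : ∀ i ∈ Finset.range D, ‖(T : ℂ) ^ i * eval v (homogeneousComponent i P)‖ ≤
      T ^ (D - 1) * M i := by
    intro i hi
    have hi' : i ≤ D - 1 := by have := Finset.mem_range.1 hi; omega
    rw [norm_mul, norm_pow, Complex.norm_real, Real.norm_of_nonneg hT0.le]
    exact mul_le_mul (pow_le_pow_right₀ hT1 hi') (hM i v hv) (norm_nonneg _) (by positivity)
  refine (Finset.sum_le_sum h3).trans ?_
  rw [← Finset.mul_sum]
  calc T ^ (D - 1) * ∑ i ∈ Finset.range D, M i ≤ T ^ (D - 1) * (δ * T) := by gcongr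
    _ = δ * (T ^ (D - 1) * T) := by ring
    _ = δ * T ^ D := by rw [← pow_succ]; congr 2; omega

end Pool.Agent.EXM
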